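import Mathlib

/-!
Clauses of width at most `k`, satisfiability of `k`-CNF formulas, and monotone Boolean formulas
with leaves taken from a class of functions.
-/

namespace Pool.Agent.Lib.MP_0e79d0_lc

/-- The clauses with at most `k` literals over the variables `0, …, n-1`; the literal `(v, b)` is
true under the assignment `α` when `α v = b`. -/
abbrev KClause (k n : ℕ) : Type := {C : Finset (Fin n × Bool) // C.card ≤ k}

/-- The assignment `α` satisfies the clause `C`. -/
def SatisfiesClause {k n : ℕ} (α : Fin n → Bool) (C : KClause k n) : Prop :=
  ∃ l ∈ C.1, α l.1 = l.2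

/-- The `k`-CNF formula whose clauses are the members of `F` is satisfiable. -/
def Satisfiable {k n : ℕ} (F : Set (KClause k n)) : Prop :=
  ∃ α : Fin n → Bool, ∀ C ∈ F, SatisfiesClause α C

/-- The variables that occur in some clause of `T`. -/
def vars {k n : ℕ} (T : Set (KClause k n)) : Set (Fin n) :=
  {v | ∃ C ∈ T, ∃ b : Bool, (v, b) ∈ C.1}

/-- The Boolean function `f` of a `k`-CNF formula is `m`-local: either whenever it is true on `F`
it is forced to be true by some `T ⊆ F` with at most `m` variables (all minterms have at most `m`
variables), or whenever it is false on `F` it is forced to be false by the absence of some `T`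
disjoint from `F` with at most `m` variables (all maxterms have at most `m` variables). -/
def IsLocal {k n : ℕ} (m : ℝ) (f : Set (KClause k n) → Prop) : Prop :=
  (∀ F, f F → ∃ T : Set (KClause k n), T ⊆ F ∧ ((vars T).ncard : ℝ) ≤ m ∧ ∀ F', T ⊆ F' → f F') ∨
  (∀ F, ¬ f F → ∃ T : Set (KClause k n), Disjoint T F ∧ ((vars T).ncard : ℝ) ≤ m ∧
    ∀ F', Disjoint T F' → ¬ f F')

/-- Formulas with binary conjunctions and disjunctions whose leaves are functions from the class
`L`. -/
inductive MFormula {ι : Type} (L : (Set ι → Prop) → Prop) : Type
  | leaf (f : Set ι → Prop) (h : L f) : MFormula L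
  | and (a b : MFormula L) : MFormula L
  | or (a b : MFormula L) : MFormula L

namespace MFormula

variable {ι : Type} {L : (Set ι → Prop) → Prop}

/-- The value of a formula on the input `F` (the set of the input variables that are true). -/
def eval (F : Set ι) : MFormula L → Prop
  | leaf f _ => f F
  | and a b => a.eval F ∧ b.eval F
  | or a b => a.eval F ∨ b.eval F

/-- The size of a formula: its number of leaves. -/
def size : MFormula L → ℕ
  | leaf _ _ => 1
  | and a b => a.size + b.size
  | or a b => a.size + b.size

end MFormula

/-- The random formula `P` decides the unsatisfiability of `k`-CNF formulas over `n` variables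
with error probability at most `1/3` on every input. -/
def DecidesUnsat {k n : ℕ} {L : (Set (KClause k n) → Prop) → Prop} (P : PMF (MFormula L)) : Prop :=
  ∀ F : Set (KClause k n), 2 / 3 ≤ P.toOuterMeasure {ψ | ψ.eval F ↔ ¬ Satisfiable F}

end Pool.Agent.Lib.MP_0e79d0_lc
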