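import Mathlib
import Pool.Agent.Lib.MP_0e79d0_lc.Defs

section

section

/-!
The rectangle bound for monotone formulas and the signed measure built from the characters of
small support.
-/

namespace Pool.Agent.Lib.MP_0e79d0_lc

open Finset

theorem two_sq {a b A B s t c : ℝ} (hA : 0 ≤ A) (hB : 0 ≤ B) (hs : 0 ≤ s) (ht : 0 ≤ t)
    (hc : 0 ≤ c) (ha : a ^ 2 ≤ c * (s * A)) (hb : b ^ 2 ≤ c * (t * B)) :
    (a + b) ^ 2 ≤ c * ((s + t) * (A + B)) := by
  have h1 : 2 * (a * b) ≤ c * (s * B + t * A) := by
    apply abs_le_of_sq_le_sq' _ (by positivity) |>.2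
    have h2 : a ^ 2 * b ^ 2 ≤ (c * (s * A)) * (c * (t * B)) :=
      mul_le_mul ha hb (sq_nonneg b) (by positivity)
    have h3 : 0 ≤ c ^ 2 * (s * B - t * A) ^ 2 := by positivity
    nlinarith
  nlinarith

/-- The sum of `f` over a rectangle. -/
def rsum {G X : Type} (f : G → X → ℝ) (𝒢 : Finset G) (𝒳 : Finset X) : ℝ :=
  ∑ g ∈ 𝒢, ∑ x ∈ 𝒳, f g x

theorem formula_bound {ι G X : Type} {L : (Set ι → Prop) → Prop} (F : G → Set ι) (H : X → Set ι)
    (f : G → X → ℝ) (K : ℝ) (hK : 0 ≤ K)
    (base : ∀ (c : Set ι → Prop) (_ : L c) (𝒢 : Finset G) (𝒳 : Finset X),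
      (∀ g ∈ 𝒢, c (F g)) → (∀ x ∈ 𝒳, ¬ c (H x)) → (rsum f 𝒢 𝒳) ^ 2 ≤ K * (#𝒢 * #𝒳))
    (ψ : MFormula L) : ∀ (𝒢 : Finset G) (𝒳 : Finset X), (∀ g ∈ 𝒢, ψ.eval (F g)) →
      (∀ x ∈ 𝒳, ¬ ψ.eval (H x)) → (rsum f 𝒢 𝒳) ^ 2 ≤ K * (ψ.size * (#𝒢 * #𝒳)) := by
  classical
  induction ψ with
  | leaf c hc =>
    intro 𝒢 𝒳 hG hX
    have := base c hc 𝒢 𝒳 hG hX
    simpa [MFormula.size] using this
  | and a b iha ihb =>
    intro 𝒢 𝒳 hG hX
    have hsplit : rsum f 𝒢 𝒳 = rsum f 𝒢 (𝒳.filter (fun x => ¬ a.eval (H x))) +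
        rsum f 𝒢 (𝒳.filter (fun x => ¬ ¬ a.eval (H x))) := by
      simp only [rsum]
      rw [← Finset.sum_add_distrib]
      apply Finset.sum_congr rfl
      intro g _
      rw [Finset.sum_filter_add_sum_filter_not]
    have hcard : #𝒳 = #(𝒳.filter (fun x => ¬ a.eval (H x))) +
        #(𝒳.filter (fun x => ¬ ¬ a.eval (H x))) := by
      rw [Finset.card_filter_add_card_filter_not]
    have h1 := iha 𝒢 (𝒳.filter (fun x => ¬ a.eval (H x))) (fun g hg => (hG g hg).1)
      (fun x hx => (Finset.mem_filter.mp hx).2)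
    have h2 := ihb 𝒢 (𝒳.filter (fun x => ¬ ¬ a.eval (H x))) (fun g hg => (hG g hg).2)
      (fun x hx => by
        have h3 := Finset.mem_filter.mp hx
        intro h4
        exact hX x h3.1 ⟨not_not.mp h3.2, h4⟩)
    rw [hsplit, hcard]
    have h5 := two_sq (a := rsum f 𝒢 (𝒳.filter (fun x => ¬ a.eval (H x))))
      (b := rsum f 𝒢 (𝒳.filter (fun x => ¬ ¬ a.eval (H x))))
      (A := (#(𝒳.filter (fun x => ¬ a.eval (H x))) : ℝ))
      (B := (#(𝒳.filter (fun x => ¬ ¬ a.eval (H x))) : ℝ))
      (s := (a.size : ℝ)) (t := (b.size : ℝ)) (c := K * #𝒢)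
      (by positivity) (by positivity) (by positivity) (by positivity) (by positivity)
      (by linarith) (by linarith)
    simp only [MFormula.size]
    push_cast
    linarith
  | or a b iha ihb =>
    intro 𝒢 𝒳 hG hX
    have hsplit : rsum f 𝒢 𝒳 = rsum f (𝒢.filter (fun g => a.eval (F g))) 𝒳 +
        rsum f (𝒢.filter (fun g => ¬ a.eval (F g))) 𝒳 := by
      simp only [rsum]
      rw [Finset.sum_filter_add_sum_filter_not]
    have hcard : #𝒢 = #(𝒢.filter (fun g => a.eval (F g))) +
        #(𝒢.filter (fun g => ¬ a.eval (F g))) := by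
      rw [Finset.card_filter_add_card_filter_not]
    have h1 := iha (𝒢.filter (fun g => a.eval (F g))) 𝒳 (fun g hg => (Finset.mem_filter.mp hg).2)
      (fun x hx h => hX x hx (Or.inl h))
    have h2 := ihb (𝒢.filter (fun g => ¬ a.eval (F g))) 𝒳
      (fun g hg => by
        have h3 := Finset.mem_filter.mp hg
        rcases hG g h3.1 with h | h
        · exact absurd h h3.2
        · exact h)
      (fun x hx h => hX x hx (Or.inr h))
    rw [hsplit, hcard]
    have h5 := two_sq (a := rsum f (𝒢.filter (fun g => a.eval (F g))) 𝒳)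
      (b := rsum f (𝒢.filter (fun g => ¬ a.eval (F g))) 𝒳)
      (A := (#(𝒢.filter (fun g => a.eval (F g))) : ℝ))
      (B := (#(𝒢.filter (fun g => ¬ a.eval (F g))) : ℝ))
      (s := (a.size : ℝ)) (t := (b.size : ℝ)) (c := K * #𝒳)
      (by positivity) (by positivity) (by positivity) (by positivity) (by positivity)
      (by linarith) (by linarith)
    simp only [MFormula.size]
    push_cast
    linarith

/-- The sign character of `ZMod 2`. -/
noncomputable def sgn (a : ZMod 2) : ℝ := if a = 0 then 1 else -1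

theorem sgn_zero : sgn 0 = 1 := by simp [sgn]

theorem sgn_one : sgn 1 = -1 := by simp [sgn]

theorem zmod2_cases (a : ZMod 2) : a = 0 ∨ a = 1 := by
  fin_cases a
  · left; rfl
  · right; rfl

theorem sgn_add (a b : ZMod 2) : sgn (a + b) = sgn a * sgn b := by
  have h11 : (1 : ZMod 2) + 1 = 0 := by decide
  rcases zmod2_cases a with rfl | rfl <;> rcases zmod2_cases b with rfl | rfl <;>
    simp [sgn, h11]

theorem sgn_sq (a : ZMod 2) : sgn a * sgn a = 1 := by
  rcases zmod2_cases a with rfl | rfl <;> simp [sgn]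

section Characters

variable {V : Type} [DecidableEq V]

/-- The character `(-1)^(sum of z j over S)`. -/
noncomputable def chr (z : V → ZMod 2) (S : Finset V) : ℝ := sgn (∑ j ∈ S, z j)

theorem chr_insert (z : V → ZMod 2) (S : Finset V) (j : V) (hj : j ∉ S) (h : z j = 1) :
    chr z (insert j S) = - chr z S := by
  simp only [chr]
  rw [Finset.sum_insert hj, sgn_add, h, sgn_one]
  ring

variable [Fintype V]

/-- The sum of the characters of support at most `r`. -/
noncomputable def pseudo (z : V → ZMod 2) (r : ℕ) : ℝ :=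
  ∑ S ∈ (univ : Finset (Finset V)).filter (fun S => #S ≤ r), chr z S

/-- The sets of size at most `r` and more than `r - s`. -/
def middle (V : Type) [Fintype V] (r s : ℕ) : Finset (Finset V) :=
  (univ : Finset (Finset V)).filter (fun S => #S ≤ r ∧ r < #S + s)

/-- If some equation in `J` is violated then only the large sets contribute. -/
theorem pseudo_eq (z : V → ZMod 2) (r s : ℕ) (J : Finset V) (hJ : #J ≤ s)
    (h : ∃ j ∈ J, z j = 1) :
    pseudo z r = ∑ S ∈ middle V r s, if r < #(S \ J) + #J then chr z S else 0 := by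
  obtain ⟨j, hj, hz⟩ := h
  have h1 : pseudo z r =
      ∑ S ∈ ((univ : Finset (Finset V)).filter (fun S => #S ≤ r)).filter
        (fun S => r < #(S \ J) + #J), chr z S +
      ∑ S ∈ ((univ : Finset (Finset V)).filter (fun S => #S ≤ r)).filter
        (fun S => ¬ r < #(S \ J) + #J), chr z S := by
    rw [Finset.sum_filter_add_sum_filter_not]
    rfl
  have hle : ∀ S : Finset V, #S ≤ #(S \ J) + #J := by
    intro S
    have h2 := Finset.card_sdiff_add_card_inter S J
    have h3 := Finset.card_le_card (Finset.inter_subset_right (s₁ := S) (s₂ := J))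
    omega
  have h2 : ∑ S ∈ ((univ : Finset (Finset V)).filter (fun S => #S ≤ r)).filter
        (fun S => ¬ r < #(S \ J) + #J), chr z S = 0 := by
    apply Finset.sum_involution (fun S _ => if j ∈ S then S.erase j else insert j S)
    · intro S _
      by_cases hjS : j ∈ S
      · rw [if_pos hjS]
        have h3 := chr_insert z (S.erase j) j (Finset.notMem_erase j S) hz
        rw [Finset.insert_erase hjS] at h3
        rw [h3]
        ring
      · rw [if_neg hjS, chr_insert z S j hjS hz]
        ring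
    · intro S _ _
      by_cases hjS : j ∈ S
      · rw [if_pos hjS]
        intro h3
        exact Finset.notMem_erase j S (h3.symm ▸ hjS)
      · rw [if_neg hjS]
        intro h3
        exact hjS (h3 ▸ Finset.mem_insert_self j S)
    · intro S _
      by_cases hjS : j ∈ S
      · simp only [if_pos hjS, Finset.notMem_erase, if_false]
        exact Finset.insert_erase hjS
      · simp only [if_neg hjS, Finset.mem_insert_self, if_true]
        exact Finset.erase_insert hjS
    · intro S hS
      simp only [Finset.mem_filter, Finset.mem_univ, true_and, not_lt] at hS ⊢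
      by_cases hjS : j ∈ S
      · rw [if_pos hjS]
        have h3 : S.erase j \ J = S \ J := by
          ext v
          simp only [Finset.mem_sdiff, Finset.mem_erase]
          constructor
          · rintro ⟨⟨_, h4⟩, h5⟩; exact ⟨h4, h5⟩
          · rintro ⟨h4, h5⟩
            exact ⟨⟨fun h6 => h5 (h6 ▸ hj), h4⟩, h5⟩
        rw [h3]
        exact ⟨(Finset.card_le_card (Finset.erase_subset j S)).trans hS.1, hS.2⟩
      · rw [if_neg hjS]
        have h3 : insert j S \ J = S \ J := by
          ext v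
          simp only [Finset.mem_sdiff, Finset.mem_insert]
          constructor
          · rintro ⟨h4 | h4, h5⟩
            · exact absurd (h4 ▸ hj) h5
            · exact ⟨h4, h5⟩
          · rintro ⟨h4, h5⟩; exact ⟨Or.inr h4, h5⟩
        have h4 := hle (insert j S)
        rw [h3] at h4 ⊢
        exact ⟨h4.trans hS.2, hS.2⟩
  rw [h1, h2, add_zero, ← Finset.sum_filter]
  apply Finset.sum_congr _ (fun _ _ => rfl)
  ext S
  simp only [middle, Finset.mem_filter, Finset.mem_univ, true_and]
  have h3 := Finset.card_le_card (Finset.sdiff_subset (s := S) (t := J))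
  constructor
  · rintro ⟨h4, h5⟩
    exact ⟨⟨h4, by omega⟩, h5⟩
  · rintro ⟨⟨h4, _⟩, h5⟩
    exact ⟨h4, h5⟩

end Characters

section Abstract

variable {G X V : Type} [Fintype V] [DecidableEq V]

/-- The main abstract bound. -/
theorem abstract_bound [Fintype G] [Fintype X] [Nonempty G] [Nonempty X] {ι : Type}
    {L : (Set ι → Prop) → Prop} (F : G → Set ι) (H : X → Set ι)
    (z : G → X → V → ZMod 2) (r s : ℕ) (D : ℝ) (hD : 0 ≤ D)
    (hF : ∀ c : Set ι → Prop, L c →
      (∀ g, c (F g) → ∃ J : Finset V, #J ≤ s ∧ ∀ x, ¬ c (H x) → ∃ j ∈ J, z g x j = 1) ∨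
      (∀ x, ¬ c (H x) → ∃ J : Finset V, #J ≤ s ∧ ∀ g, c (F g) → ∃ j ∈ J, z g x j = 1))
    (h1 : ∀ S : Finset V, S.Nonempty → #S ≤ r → ∀ x : X, ∑ g : G, chr (z g x) S = 0)
    (h2 : ∀ S ∈ middle V r s, ∀ (𝒢 : Finset G) (𝒳 : Finset X),
      (rsum (fun g x => chr (z g x) S) 𝒢 𝒳) ^ 2 ≤ #𝒢 * #𝒳 * (Fintype.card G * D))
    (ψ : MFormula L) (hψF : ∀ g, ψ.eval (F g)) (hψH : ∀ x, ¬ ψ.eval (H x)) :
    (Fintype.card X : ℝ) ≤ (#(middle V r s) : ℝ) ^ 2 * D * ψ.size := by
  classical
  set P := middle V r s with hP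
  set K : ℝ := (#P : ℝ) ^ 2 * (Fintype.card G * D) with hKdef
  have hK : 0 ≤ K := by positivity
  -- a bound for sums of bounded pieces
  have hsum : ∀ (𝒢 : Finset G) (𝒳 : Finset X) (a : Finset V → ℝ),
      (∀ S ∈ P, (a S) ^ 2 ≤ #𝒢 * #𝒳 * (Fintype.card G * D)) →
      (∑ S ∈ P, a S) ^ 2 ≤ K * (#𝒢 * #𝒳) := by
    intro 𝒢 𝒳 a ha
    calc (∑ S ∈ P, a S) ^ 2 ≤ #P * ∑ S ∈ P, (a S) ^ 2 := sq_sum_le_card_mul_sum_sq
      _ ≤ #P * ∑ S ∈ P, (#𝒢 * #𝒳 * (Fintype.card G * D) : ℝ) := by
          apply mul_le_mul_of_nonneg_left _ (by positivity)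
          exact Finset.sum_le_sum ha
      _ = K * (#𝒢 * #𝒳) := by
          rw [Finset.sum_const, nsmul_eq_mul, hKdef]
          ring
  have base : ∀ (c : Set ι → Prop) (_ : L c) (𝒢 : Finset G) (𝒳 : Finset X),
      (∀ g ∈ 𝒢, c (F g)) → (∀ x ∈ 𝒳, ¬ c (H x)) →
      (rsum (fun g x => pseudo (z g x) r) 𝒢 𝒳) ^ 2 ≤ K * (#𝒢 * #𝒳) := by
    intro c hc 𝒢 𝒳 hG hX
    rcases hF c hc with hl | hr
    · have hsel : ∀ g : G, ∃ J : Finset V, g ∈ 𝒢 → #J ≤ s ∧ ∀ x ∈ 𝒳, ∃ j ∈ J, z g x j = 1 := by
        intro g
        by_cases hg : g ∈ 𝒢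
        · obtain ⟨J, hJ, hJz⟩ := hl g (hG g hg)
          exact ⟨J, fun _ => ⟨hJ, fun x hx => hJz x (hX x hx)⟩⟩
        · exact ⟨∅, fun h => absurd h hg⟩
      choose J hJ using hsel
      have e1 : rsum (fun g x => pseudo (z g x) r) 𝒢 𝒳 =
          ∑ S ∈ P, rsum (fun g x => chr (z g x) S)
            (𝒢.filter (fun g => r < #(S \ J g) + #(J g))) 𝒳 := by
        calc rsum (fun g x => pseudo (z g x) r) 𝒢 𝒳 = ∑ g ∈ 𝒢, ∑ x ∈ 𝒳, ∑ S ∈ P,
              (if r < #(S \ J g) + #(J g) then chr (z g x) S else 0) := by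
              simp only [rsum]
              apply Finset.sum_congr rfl
              intro g hg
              apply Finset.sum_congr rfl
              intro x hx
              exact pseudo_eq (z g x) r s (J g) (hJ g hg).1 ((hJ g hg).2 x hx)
          _ = ∑ S ∈ P, ∑ g ∈ 𝒢, ∑ x ∈ 𝒳,
              (if r < #(S \ J g) + #(J g) then chr (z g x) S else 0) := by
              rw [Finset.sum_congr rfl (fun g _ => Finset.sum_comm), Finset.sum_comm]
          _ = _ := by
              apply Finset.sum_congr rfl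
              intro S _
              simp only [rsum]
              rw [Finset.sum_filter]
              apply Finset.sum_congr rfl
              intro g _
              split_ifs with h
              · rfl
              · simp
      rw [e1]
      apply hsum
      intro S hS
      refine (h2 S hS _ _).trans ?_
      apply mul_le_mul_of_nonneg_right _ (by positivity)
      apply mul_le_mul_of_nonneg_right _ (by positivity)
      exact_mod_cast Finset.card_filter_le _ _
    · have hsel : ∀ x : X, ∃ J : Finset V, x ∈ 𝒳 → #J ≤ s ∧ ∀ g ∈ 𝒢, ∃ j ∈ J, z g x j = 1 := by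
        intro x
        by_cases hx : x ∈ 𝒳
        · obtain ⟨J, hJ, hJz⟩ := hr x (hX x hx)
          exact ⟨J, fun _ => ⟨hJ, fun g hg => hJz g (hG g hg)⟩⟩
        · exact ⟨∅, fun h => absurd h hx⟩
      choose J hJ using hsel
      have e1 : rsum (fun g x => pseudo (z g x) r) 𝒢 𝒳 =
          ∑ S ∈ P, rsum (fun g x => chr (z g x) S) 𝒢
            (𝒳.filter (fun x => r < #(S \ J x) + #(J x))) := by
        calc rsum (fun g x => pseudo (z g x) r) 𝒢 𝒳 = ∑ g ∈ 𝒢, ∑ x ∈ 𝒳, ∑ S ∈ P,
              (if r < #(S \ J x) + #(J x) then chr (z g x) S else 0) := by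
              simp only [rsum]
              apply Finset.sum_congr rfl
              intro g hg
              apply Finset.sum_congr rfl
              intro x hx
              exact pseudo_eq (z g x) r s (J x) (hJ x hx).1 ((hJ x hx).2 g hg)
          _ = ∑ S ∈ P, ∑ g ∈ 𝒢, ∑ x ∈ 𝒳,
              (if r < #(S \ J x) + #(J x) then chr (z g x) S else 0) := by
              rw [Finset.sum_congr rfl (fun g _ => Finset.sum_comm), Finset.sum_comm]
          _ = _ := by
              apply Finset.sum_congr rfl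
              intro S _
              simp only [rsum]
              apply Finset.sum_congr rfl
              intro g _
              rw [Finset.sum_filter]
      rw [e1]
      apply hsum
      intro S hS
      refine (h2 S hS _ _).trans ?_
      apply mul_le_mul_of_nonneg_right _ (by positivity)
      apply mul_le_mul_of_nonneg_left _ (by positivity)
      exact_mod_cast Finset.card_filter_le _ _
  have hmain := formula_bound F H (fun g x => pseudo (z g x) r) K hK base ψ univ univ
    (fun g _ => hψF g) (fun x _ => hψH x)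
  have htot : rsum (fun g x => pseudo (z g x) r) univ univ =
      Fintype.card G * Fintype.card X := by
    have e3 : ∀ x : X, ∑ g : G, pseudo (z g x) r = Fintype.card G := by
      intro x
      simp only [pseudo]
      rw [Finset.sum_comm]
      rw [Finset.sum_eq_single (∅ : Finset V)]
      · simp [chr, sgn]
      · intro S hS hne
        apply h1 S (Finset.nonempty_iff_ne_empty.mpr hne) (Finset.mem_filter.mp hS).2 x
      · intro h
        exfalso
        apply h
        simp
    simp only [rsum]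
    rw [Finset.sum_comm]
    simp only [e3]
    rw [Finset.sum_const, nsmul_eq_mul, Finset.card_univ]
    ring
  rw [htot] at hmain
  have hG0 : (0:ℝ) < Fintype.card G := by exact_mod_cast Fintype.card_pos
  have hX0 : (0:ℝ) < Fintype.card X := by exact_mod_cast Fintype.card_pos
  simp only [Finset.card_univ] at hmain
  have h5 : (Fintype.card X : ℝ) * ((Fintype.card G : ℝ) ^ 2 * Fintype.card X) ≤
      ((#P : ℝ) ^ 2 * D * ψ.size) * ((Fintype.card G : ℝ) ^ 2 * Fintype.card X) := by
    rw [hKdef] at hmain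
    nlinarith
  exact le_of_mul_le_mul_right h5 (by positivity)

end Abstract

end Pool.Agent.Lib.MP_0e79d0_lc
end

section

/-!
Random systems of linear equations modulo two supported on a hypergraph, as `k`-CNF formulas.
-/

namespace Pool.Agent.Lib.MP_0e79d0_lc

open Finset

section LinSys

variable {V I : Type} [Fintype V] [DecidableEq V] [Fintype I] [DecidableEq I] {t : ℕ}
  (root : I → V) (leaf : Fin t → I → V)

/-- The systems: an odd right-hand side and the free coefficients. -/
abbrev Sys (V I : Type) [Fintype V] (t : ℕ) : Type :=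
  {b : V → ZMod 2 // ∑ j, b j = 1} × (I → Fin t → ZMod 2)

/-- The coefficient of the free parameter `(i, s)` in the equation at `j`. -/
def inc (i : I) (s : Fin t) (j : V) : ZMod 2 :=
  (if root i = j then 1 else 0) + (if leaf s i = j then 1 else 0)

/-- The defect of the equation at `j`. -/
def zz (g : Sys V I t) (x : I → ZMod 2) (j : V) : ZMod 2 :=
  g.1.1 j + ∑ i, ∑ s, x i * (g.2 i s * inc root leaf i s j)

omit [Fintype V] [Fintype I] [DecidableEq I] in
theorem sum_inc (S : Finset V) (i : I) (s : Fin t) :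
    ∑ j ∈ S, inc root leaf i s j =
      (if root i ∈ S then 1 else 0) + (if leaf s i ∈ S then 1 else 0) := by
  simp only [inc, Finset.sum_add_distrib, Finset.sum_ite_eq]

omit [DecidableEq I] in
theorem sum_zz (g : Sys V I t) (x : I → ZMod 2) : ∑ j, zz root leaf g x j = 1 := by
  have h2 : (1 : ZMod 2) + 1 = 0 := by decide
  simp only [zz, Finset.sum_add_distrib, g.1.2]
  rw [Finset.sum_comm]
  have : ∀ i : I, ∑ j, ∑ s, x i * (g.2 i s * inc root leaf i s j) = 0 := by
    intro i
    rw [Finset.sum_comm]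
    apply Finset.sum_eq_zero
    intro s _
    rw [← Finset.mul_sum, ← Finset.mul_sum, sum_inc]
    simp [h2]
  simp [this]

omit [DecidableEq I] in
/-- Characters of proper nonempty subsets have mean zero. -/
theorem sum_chi_eq_zero (S : Finset V) (hS : S.Nonempty) (hS' : #S < Fintype.card V)
    [Fintype (Sys V I t)] (x : I → ZMod 2) :
    ∑ g : Sys V I t, chr (zz root leaf g x) S = 0 := by
  obtain ⟨j, hj⟩ := hS
  have : ∃ j' : V, j' ∉ S := by
    by_contra h
    push Not at h
    have : S = univ := Finset.eq_univ_iff_forall.mpr h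
    rw [this, Finset.card_univ] at hS'
    exact lt_irrefl _ hS'
  obtain ⟨j', hj'⟩ := this
  have h2 : (1 : ZMod 2) + 1 = 0 := by decide
  have hjj' : j ≠ j' := fun h => hj' (h ▸ hj)
  let d : V → ZMod 2 := fun v => (if v = j then 1 else 0) + (if v = j' then 1 else 0)
  have hd : ∑ v, d v = 0 := by
    simp [d, Finset.sum_add_distrib, h2]
  have hdS : ∑ v ∈ S, d v = 1 := by
    simp [d, Finset.sum_add_distrib, hj, hj']
  have hdd : ∀ v, d v + d v = 0 := fun v => by
    rcases zmod2_cases (d v) with h | h <;> rw [h] <;> decide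
  let e : Sys V I t ≃ Sys V I t :=
    { toFun := fun g => (⟨fun v => g.1.1 v + d v, by
        rw [Finset.sum_add_distrib, g.1.2, hd, add_zero]⟩, g.2)
      invFun := fun g => (⟨fun v => g.1.1 v + d v, by
        rw [Finset.sum_add_distrib, g.1.2, hd, add_zero]⟩, g.2)
      left_inv := fun g => by
        apply Prod.ext
        · apply Subtype.ext
          funext v
          simp only [add_assoc, hdd, add_zero]
        · rfl
      right_inv := fun g => by
        apply Prod.ext
        · apply Subtype.ext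
          funext v
          simp only [add_assoc, hdd, add_zero]
        · rfl }
  have hneg : ∀ g : Sys V I t, chr (zz root leaf (e g) x) S = - chr (zz root leaf g x) S := by
    intro g
    simp only [chr]
    have : ∑ v ∈ S, zz root leaf (e g) x v = ∑ v ∈ S, zz root leaf g x v + 1 := by
      rw [← hdS, ← Finset.sum_add_distrib]
      apply Finset.sum_congr rfl
      intro v _
      simp only [zz, e, Equiv.coe_fn_mk]
      ring
    rw [this, sgn_add, sgn_one]
    ring
  have h3 : ∑ g : Sys V I t, chr (zz root leaf g x) S =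
      ∑ g : Sys V I t, chr (zz root leaf (e g) x) S := (Equiv.sum_comp e _).symm
  simp only [hneg, Finset.sum_neg_distrib] at h3
  linarith

/-- If `x` and `x'` differ at a block cut by `S` then the characters at `x` and `x'` are
orthogonal. -/
theorem sum_chi_mul_eq_zero (S : Finset V) [Fintype (Sys V I t)] (x x' : I → ZMod 2) (i : I)
    (hi : ¬ ∀ s, (leaf s i ∈ S ↔ root i ∈ S)) (hx : x i ≠ x' i) :
    ∑ g : Sys V I t, chr (zz root leaf g x) S * chr (zz root leaf g x') S = 0 := by
  push Not at hi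
  obtain ⟨s, hs⟩ := hi
  have hinc : ∑ j ∈ S, inc root leaf i s j = 1 := by
    rw [sum_inc]
    rcases hs with ⟨h1, h2⟩ | ⟨h1, h2⟩ <;> simp [h1, h2]
  let δ : I → Fin t → ZMod 2 := Pi.single i (Pi.single s 1)
  let e : Sys V I t ≃ Sys V I t := Equiv.prodCongr (Equiv.refl _) (Equiv.addRight δ)
  have hz : ∀ (g : Sys V I t) (y : I → ZMod 2) (j : V),
      zz root leaf (e g) y j = zz root leaf g y j + y i * inc root leaf i s j := by
    intro g y j
    have h1 : ∑ i', ∑ s', y i' * (δ i' s' * inc root leaf i' s' j) =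
        y i * inc root leaf i s j := by
      rw [Finset.sum_eq_single i]
      · rw [Finset.sum_eq_single s]
        · simp [δ]
        · intro s' _ hne
          simp [δ, hne]
        · simp
      · intro i' _ hne
        apply Finset.sum_eq_zero
        intro s' _
        simp [δ, hne]
      · simp
    rw [← h1]
    simp only [zz]
    have h2 : (e g).1.1 j = g.1.1 j := rfl
    have h3 : ∀ i' s', (e g).2 i' s' = g.2 i' s' + δ i' s' := fun i' s' => rfl
    simp only [h2, h3]
    rw [add_assoc]
    congr 1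
    rw [← Finset.sum_add_distrib]
    apply Finset.sum_congr rfl
    intro i' _
    rw [← Finset.sum_add_distrib]
    apply Finset.sum_congr rfl
    intro s' _
    ring
  have hchi : ∀ (g : Sys V I t) (y : I → ZMod 2),
      chr (zz root leaf (e g) y) S = chr (zz root leaf g y) S * sgn (y i) := by
    intro g y
    simp only [chr]
    rw [← sgn_add]
    congr 1
    simp only [hz]
    rw [Finset.sum_add_distrib, ← Finset.mul_sum, hinc, mul_one]
  have hsgn : sgn (x i) * sgn (x' i) = -1 := by
    rw [← sgn_add]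
    rcases zmod2_cases (x i) with h | h <;> rcases zmod2_cases (x' i) with h' | h' <;>
      rw [h, h'] at hx ⊢
    · exact absurd rfl hx
    · simp [sgn]
    · simp [sgn]
    · exact absurd rfl hx
  have h3 : ∑ g : Sys V I t, chr (zz root leaf g x) S * chr (zz root leaf g x') S =
      ∑ g : Sys V I t, chr (zz root leaf (e g) x) S * chr (zz root leaf (e g) x') S :=
    (Equiv.sum_comp e (fun g => chr (zz root leaf g x) S * chr (zz root leaf g x') S)).symm
  have h4 : ∀ g : Sys V I t, chr (zz root leaf (e g) x) S * chr (zz root leaf (e g) x') S =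
      - (chr (zz root leaf g x) S * chr (zz root leaf g x') S) := by
    intro g
    rw [hchi, hchi]
    have : chr (zz root leaf g x) S * sgn (x i) * (chr (zz root leaf g x') S * sgn (x' i)) =
        (chr (zz root leaf g x) S * chr (zz root leaf g x') S) * (sgn (x i) * sgn (x' i)) := by
      ring
    rw [this, hsgn]
    ring
  simp only [h4, Finset.sum_neg_distrib] at h3
  linarith

omit [Fintype V] [DecidableEq V] in
/-- The number of `x'` agreeing with `x` outside `U` is at most `2 ^ #U`. -/
theorem card_agree_off (U : Finset I) (x : I → ZMod 2) :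
    #(univ.filter (fun x' : I → ZMod 2 => ∀ i, i ∉ U → x i = x' i)) ≤ 2 ^ #U := by
  have h1 : Fintype.card (U → ZMod 2) = 2 ^ #U := by
    rw [Fintype.card_fun, ZMod.card, Fintype.card_coe]
  rw [← h1, ← Finset.card_univ]
  apply Finset.card_le_card_of_injOn (fun x' => fun u : U => x' u.1)
  · intro x' _
    simp
  · intro x' hx' x'' hx'' h
    rw [Finset.mem_coe, Finset.mem_filter] at hx' hx''
    funext i
    by_cases hi : i ∈ U
    · exact congrFun h ⟨i, hi⟩
    · rw [← hx'.2 i hi, ← hx''.2 i hi]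

/-- Lindsey's bound for the character of `S` on a rectangle. -/
theorem lindsey (S : Finset V) [Fintype (Sys V I t)] (𝒢 : Finset (Sys V I t))
    (𝒳 : Finset (I → ZMod 2)) :
    (rsum (fun g x => chr (zz root leaf g x) S) 𝒢 𝒳) ^ 2 ≤ #𝒢 * #𝒳 * (Fintype.card (Sys V I t) *
      (2:ℝ) ^ #(univ.filter (fun i => ∀ s, (leaf s i ∈ S ↔ root i ∈ S)))) := by
  set U := univ.filter (fun i => ∀ s, (leaf s i ∈ S ↔ root i ∈ S)) with hU
  set h : Sys V I t → ℝ := fun g => ∑ x ∈ 𝒳, chr (zz root leaf g x) S with hh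
  have h1 : (rsum (fun g x => chr (zz root leaf g x) S) 𝒢 𝒳) ^ 2 ≤ #𝒢 * ∑ g ∈ 𝒢, (h g) ^ 2 := by
    simp only [rsum]
    exact sq_sum_le_card_mul_sum_sq
  have h2 : ∑ g ∈ 𝒢, (h g) ^ 2 ≤ ∑ g : Sys V I t, (h g) ^ 2 :=
    Finset.sum_le_sum_of_subset_of_nonneg (Finset.subset_univ _) (fun _ _ _ => sq_nonneg _)
  have h3 : ∑ g : Sys V I t, (h g) ^ 2 = ∑ x ∈ 𝒳, ∑ x' ∈ 𝒳,
      ∑ g : Sys V I t, chr (zz root leaf g x) S * chr (zz root leaf g x') S := by
    simp only [hh, sq, Finset.sum_mul_sum]
    rw [Finset.sum_comm]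
    apply Finset.sum_congr rfl
    intro x _
    rw [Finset.sum_comm]
  have h4 : ∀ x ∈ 𝒳, ∑ x' ∈ 𝒳,
      ∑ g : Sys V I t, chr (zz root leaf g x) S * chr (zz root leaf g x') S ≤
      Fintype.card (Sys V I t) * (2:ℝ) ^ #U := by
    intro x _
    have h5 : ∀ x' ∈ 𝒳, ∑ g : Sys V I t, chr (zz root leaf g x) S * chr (zz root leaf g x') S ≤
        if (∀ i, i ∉ U → x i = x' i) then (Fintype.card (Sys V I t) : ℝ) else 0 := by
      intro x' _
      split_ifs with hag
      · calc ∑ g : Sys V I t, chr (zz root leaf g x) S * chr (zz root leaf g x') S ≤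
            ∑ g : Sys V I t, (1:ℝ) := by
              apply Finset.sum_le_sum
              intro g _
              simp only [chr]
              rw [← sgn_add]
              simp only [sgn]
              split_ifs <;> norm_num
          _ = _ := by simp
      · push Not at hag
        obtain ⟨i, hi, hne⟩ := hag
        rw [sum_chi_mul_eq_zero root leaf S x x' i _ hne]
        intro h6
        apply hi
        rw [hU, Finset.mem_filter]
        exact ⟨Finset.mem_univ _, h6⟩
    refine (Finset.sum_le_sum h5).trans ?_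
    rw [← Finset.sum_filter, Finset.sum_const, nsmul_eq_mul, mul_comm]
    apply mul_le_mul_of_nonneg_left _ (by positivity)
    have h7 : #(𝒳.filter (fun x' => ∀ i, i ∉ U → x i = x' i)) ≤ 2 ^ #U :=
      (Finset.card_le_card (Finset.filter_subset_filter _ (Finset.subset_univ _))).trans
        (card_agree_off U x)
    exact_mod_cast h7
  calc (rsum (fun g x => chr (zz root leaf g x) S) 𝒢 𝒳) ^ 2 ≤ #𝒢 * ∑ g ∈ 𝒢, (h g) ^ 2 := h1
    _ ≤ #𝒢 * ∑ g : Sys V I t, (h g) ^ 2 := mul_le_mul_of_nonneg_left h2 (by positivity)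
    _ ≤ #𝒢 * ∑ x ∈ 𝒳, (Fintype.card (Sys V I t) * (2:ℝ) ^ #U) := by
        rw [h3]
        exact mul_le_mul_of_nonneg_left (Finset.sum_le_sum h4) (by positivity)
    _ = _ := by
        rw [Finset.sum_const, nsmul_eq_mul]
        ring

end LinSys

/-- `ZMod 2` as Booleans. -/
def toB (a : ZMod 2) : Bool := decide (a = 1)

theorem toB_inj {a b : ZMod 2} (h : toB a = toB b) : a = b := by
  rcases zmod2_cases a with rfl | rfl <;> rcases zmod2_cases b with rfl | rfl
  · rfl
  · exact absurd h (by decide)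
  · exact absurd h (by decide)
  · rfl

section Encode

variable {V I : Type} [Fintype V] [DecidableEq V] [Fintype I] [DecidableEq I] {t : ℕ}
  (root : I → V) (leaf : Fin t → I → V) {k n : ℕ} (e : I ↪ Fin n)

/-- The blocks adjacent to the vertex `j`. -/
def nbh (j : V) : Finset I := univ.filter (fun i => root i = j ∨ ∃ s, leaf s i = j)

omit [DecidableEq I] in
theorem zz_congr (g : Sys V I t) (x x' : I → ZMod 2) (j : V)
    (h : ∀ i ∈ nbh root leaf j, x i = x' i) : zz root leaf g x j = zz root leaf g x' j := by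
  simp only [zz]
  congr 1
  apply Finset.sum_congr rfl
  intro i _
  apply Finset.sum_congr rfl
  intro s _
  by_cases hi : i ∈ nbh root leaf j
  · rw [h i hi]
  · have h1 : inc root leaf i s j = 0 := by
      simp only [nbh, mem_filter, mem_univ, true_and, not_or, not_exists] at hi
      simp [inc, hi.1, hi.2 s]
    rw [h1]
    ring

/-- The clause falsified exactly by the assignments that agree with `x` around `j`. -/
def cl (hk : ∀ j, #(nbh root leaf j) ≤ k) (j : V) (x : I → ZMod 2) : KClause k n :=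
  ⟨(nbh root leaf j).image (fun i => (e i, !(toB (x i)))), Finset.card_image_le.trans (hk j)⟩

omit [Fintype V] [DecidableEq I] in
theorem sat_cl (hk : ∀ j, #(nbh root leaf j) ≤ k) (j : V) (x : I → ZMod 2) (α : Fin n → Bool) :
    SatisfiesClause α (cl root leaf e hk j x) ↔
      ∃ i ∈ nbh root leaf j, α (e i) ≠ toB (x i) := by
  simp only [SatisfiesClause, cl, Finset.mem_image]
  constructor
  · rintro ⟨l, ⟨i, hi, rfl⟩, h⟩
    refine ⟨i, hi, ?_⟩
    simp only at h
    rw [h]
    cases toB (x i) <;> simp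
  · rintro ⟨i, hi, h⟩
    refine ⟨_, ⟨i, hi, rfl⟩, ?_⟩
    simp only
    cases h1 : α (e i) <;> cases h2 : toB (x i) <;> simp_all

/-- The unsatisfiable formula of a system. -/
def FF (hk : ∀ j, #(nbh root leaf j) ≤ k) (g : Sys V I t) : Set (KClause k n) :=
  {C | ∃ j x, C = cl root leaf e hk j x ∧ zz root leaf g x j = 1}

omit [DecidableEq I] in
theorem FF_unsat (hk : ∀ j, #(nbh root leaf j) ≤ k) (g : Sys V I t) :
    ¬ Satisfiable (FF root leaf e hk g) := by
  rintro ⟨α, hα⟩
  let x : I → ZMod 2 := fun i => if α (e i) then 1 else 0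
  have h1 : ∃ j, zz root leaf g x j = 1 := by
    by_contra h
    push Not at h
    have h2 : ∀ j, zz root leaf g x j = 0 := fun j =>
      (zmod2_cases _).resolve_right (h j)
    have h3 := sum_zz root leaf g x
    simp [h2] at h3
  obtain ⟨j, hj⟩ := h1
  have h4 := hα (cl root leaf e hk j x) ⟨j, x, rfl, hj⟩
  rw [sat_cl] at h4
  obtain ⟨i, _, hi⟩ := h4
  apply hi
  by_cases h5 : α (e i) = true
  · have h6 : x i = 1 := if_pos h5
    rw [h6, h5]; decide
  · have h6 : x i = 0 := if_neg h5
    simp only [Bool.not_eq_true] at h5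
    rw [h6, h5]; decide

/-- The assignment of `x`. -/
noncomputable def asg (x : I → ZMod 2) : Fin n → Bool :=
  Function.extend e (fun i => toB (x i)) (fun _ => false)

omit [Fintype I] [DecidableEq I] in
theorem asg_apply (x : I → ZMod 2) (i : I) : asg e x (e i) = toB (x i) :=
  e.injective.extend_apply _ _ _

/-- The satisfiable formula of an assignment: all the clauses it satisfies. -/
def HH (x : I → ZMod 2) : Set (KClause k n) := {C | SatisfiesClause (asg e x) C}

omit [Fintype I] [DecidableEq I] in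
theorem HH_sat (x : I → ZMod 2) : Satisfiable (HH (k := k) e x) := ⟨asg e x, fun _ h => h⟩

omit [DecidableEq I] in
/-- If the clause `C` of `FF g` is not in `HH x` then the corresponding equation is violated. -/
theorem FF_HH (hk : ∀ j, #(nbh root leaf j) ≤ k) (C : KClause k n) (g : Sys V I t)
    (hC : C ∈ FF root leaf e hk g) :
    ∃ j : V, (∀ i ∈ nbh root leaf j, ∃ b : Bool, (e i, b) ∈ C.1) ∧
      ∀ x : I → ZMod 2, C ∉ HH (k := k) e x → zz root leaf g x j = 1 := by
  obtain ⟨j, x', rfl, hz⟩ := hC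
  refine ⟨j, fun i hi => ⟨!(toB (x' i)), Finset.mem_image.mpr ⟨i, hi, rfl⟩⟩, fun x hx => ?_⟩
  rw [← hz]
  apply zz_congr
  intro i hi
  by_contra hne
  apply hx
  show SatisfiesClause (asg e x) _
  rw [sat_cl]
  refine ⟨i, hi, ?_⟩
  rw [asg_apply]
  intro h
  exact hne (toB_inj h)

/-- The equations all of whose variables are in `W`. -/
noncomputable def inside (W : Set (Fin n)) : Finset V :=
  open Classical in univ.filter (fun j => ∀ i ∈ nbh root leaf j, e i ∈ W)

theorem mem_inside {W : Set (Fin n)} {j : V} :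
    j ∈ inside root leaf e W ↔ ∀ i ∈ nbh root leaf j, e i ∈ W := by
  simp [inside]

theorem card_inside_le (s : ℕ) (m : ℝ)
    (hs : ∀ J : Finset V, s < #J → m < #(J.biUnion (nbh root leaf))) (W : Set (Fin n))
    (hW : (W.ncard : ℝ) ≤ m) : #(inside root leaf e W) ≤ s := by
  by_contra h
  push Not at h
  have h1 := hs _ h
  have h2 : #((inside root leaf e W).biUnion (nbh root leaf)) ≤ W.ncard := by
    rw [← Set.ncard_coe_finset]
    apply Set.ncard_le_ncard_of_injOn (fun i => e i)
    · intro i hi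
      rw [Finset.mem_coe, Finset.mem_biUnion] at hi
      obtain ⟨j, hj, hij⟩ := hi
      exact (mem_inside root leaf e).mp hj i hij
    · intro i _ i' _ h
      exact e.injective h
  have h3 : (#((inside root leaf e W).biUnion (nbh root leaf)) : ℝ) ≤ W.ncard := by
    exact_mod_cast h2
  linarith

/-- The deterministic lower bound. -/
theorem det_bound (e : I ↪ Fin n) (hk : ∀ j, #(nbh root leaf j) ≤ k) (r s u : ℕ) (m : ℝ)
    (hr : r < Fintype.card V)
    (hu : ∀ S ∈ middle V r s,
      #(univ.filter (fun i => ∀ s, (leaf s i ∈ S ↔ root i ∈ S))) ≤ u)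
    (hs : ∀ J : Finset V, s < #J → m < #(J.biUnion (nbh root leaf)))
    (ψ : MFormula (IsLocal (k := k) (n := n) m)) (hψ : ∀ F, ψ.eval F ↔ ¬ Satisfiable F) :
    2 ^ Fintype.card I ≤ (2 ^ Fintype.card V) ^ 2 * 2 ^ u * ψ.size := by
  classical
  have hne : Nonempty V := by
    rw [← Fintype.card_pos_iff]
    omega
  obtain ⟨j₀⟩ := hne
  have hneG : Nonempty (Sys V I t) := ⟨(⟨fun j => if j = j₀ then 1 else 0, by simp⟩, 0)⟩
  have hmem : ∀ (T : Set (KClause k n)) (C : KClause k n) (g : Sys V I t) (x : I → ZMod 2),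
      C ∈ T → C ∈ FF root leaf e hk g → C ∉ HH (k := k) e x →
      ∃ j ∈ inside root leaf e (vars T), zz root leaf g x j = 1 := by
    intro T C g x hCT hCF hCH
    obtain ⟨j, hj, hz⟩ := FF_HH root leaf e hk C g hCF
    refine ⟨j, ?_, hz x hCH⟩
    rw [mem_inside]
    intro i hi
    obtain ⟨b, hb⟩ := hj i hi
    exact ⟨C, hCT, b, hb⟩
  have h := abstract_bound (FF root leaf e hk) (HH (k := k) e) (zz root leaf) r s ((2:ℝ) ^ u)
    (by positivity)
    (fun c hc => by
      rcases hc with hc | hc
      · left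
        intro g hg
        obtain ⟨T, hTF, hTm, hT⟩ := hc _ hg
        refine ⟨inside root leaf e (vars T), card_inside_le root leaf e s m hs _ hTm, ?_⟩
        intro x hx
        have h1 : ¬ T ⊆ HH (k := k) e x := fun h => hx (hT _ h)
        rw [Set.not_subset] at h1
        obtain ⟨C, hCT, hCH⟩ := h1
        exact hmem T C g x hCT (hTF hCT) hCH
      · right
        intro x hx
        obtain ⟨T, hTF, hTm, hT⟩ := hc _ hx
        refine ⟨inside root leaf e (vars T), card_inside_le root leaf e s m hs _ hTm, ?_⟩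
        intro g hg
        have h1 : ¬ Disjoint T (FF root leaf e hk g) := fun h => hT _ h hg
        rw [Set.not_disjoint_iff] at h1
        obtain ⟨C, hCT, hCF⟩ := h1
        exact hmem T C g x hCT hCF (Set.disjoint_left.mp hTF hCT))
    (fun S hS hS' x => sum_chi_eq_zero root leaf S hS (by omega) x)
    (fun S hS 𝒢 𝒳 => by
      refine (lindsey root leaf S 𝒢 𝒳).trans ?_
      have h1 : (2:ℝ) ^ #(univ.filter (fun i => ∀ s, (leaf s i ∈ S ↔ root i ∈ S))) ≤ 2 ^ u :=
        pow_le_pow_right₀ (by norm_num) (hu S hS)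
      gcongr)
    ψ (fun g => (hψ _).mpr (FF_unsat root leaf e hk g))
    (fun x hx => ((hψ _).mp hx) (HH_sat e x))
  have h2 : Fintype.card (I → ZMod 2) = 2 ^ Fintype.card I := by
    rw [Fintype.card_fun, ZMod.card]
  have h3 : #(middle V r s) ≤ 2 ^ Fintype.card V := by
    refine (Finset.card_filter_le _ _).trans ?_
    rw [Finset.card_univ, Fintype.card_finset]
  rw [h2] at h
  have h4 : ((#(middle V r s) : ℕ) : ℝ) ≤ (2:ℝ) ^ Fintype.card V := by exact_mod_cast h3
  have h5 : ((2 ^ Fintype.card I : ℕ) : ℝ) ≤ ((2:ℝ) ^ Fintype.card V) ^ 2 * 2 ^ u * ψ.size := by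
    refine h.trans ?_
    gcongr
  exact_mod_cast h5

end Encode

end Pool.Agent.Lib.MP_0e79d0_lc
end
end

section

/-!
Existence of tuples of permutations giving a hypergraph in which every vertex cut that is not too
unbalanced cuts almost all hyperedges.
-/

namespace Pool.Agent.Lib.MP_0e79d0_lc

open Finset

section Perm

variable {I : Type} [Fintype I] [DecidableEq I]

/-- The permutations `π` with `π⁻¹(A) = T`. -/
def permFib (A T : Finset I) : Finset (Equiv.Perm I) :=
  univ.filter (fun π => (univ.filter (fun i => π i ∈ A)) = T)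

theorem mem_permFib {A T : Finset I} {π : Equiv.Perm I} :
    π ∈ permFib A T ↔ ∀ i, (π i ∈ A ↔ i ∈ T) := by
  simp only [permFib, mem_filter, mem_univ, true_and]
  rw [Finset.ext_iff]
  simp

theorem card_permFib_eq {A T : Finset I} (h : #T = #A) :
    #(permFib A T) = #(permFib A A) := by
  let e : {x // x ∈ T} ≃ {x // x ∈ A} := Finset.equivOfCardEq h
  let ρ : Equiv.Perm I := e.extendSubtype
  have hρ : ∀ i, ρ i ∈ A ↔ i ∈ T := by
    intro i
    constructor
    · intro h1
      by_contra h2
      exact (e.extendSubtype_not_mem i h2) h1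
    · intro h1
      exact e.extendSubtype_mem i h1
  apply Finset.card_nbij' (fun π => π * ρ⁻¹) (fun π => π * ρ)
  · intro π hπ
    rw [Finset.mem_coe, mem_permFib] at hπ ⊢
    intro i
    rw [Equiv.Perm.mul_apply, hπ, ← hρ, ← Equiv.Perm.mul_apply, mul_inv_cancel,
      Equiv.Perm.one_apply]
  · intro π hπ
    rw [Finset.mem_coe, mem_permFib] at hπ ⊢
    intro i
    rw [Equiv.Perm.mul_apply, hπ, hρ]
  · intro π _
    simp
  · intro π _
    simp

theorem card_pre (A : Finset I) (π : Equiv.Perm I) : #(univ.filter (fun i => π i ∈ A)) = #A := by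
  apply Finset.card_nbij' (fun i => π i) (fun i => π.symm i)
  · intro i hi
    simpa using hi
  · intro i hi
    simpa using hi
  · intro i _
    simp
  · intro i _
    simp

theorem choose_mul_card (A : Finset I) :
    (Fintype.card I).choose (#A) * #(permFib A A) = (Fintype.card I).factorial := by
  have hsum := Finset.card_eq_sum_card_fiberwise (s := (univ : Finset (Equiv.Perm I)))
    (f := fun π : Equiv.Perm I => univ.filter (fun i => π i ∈ A))
    (t := powersetCard (#A) univ) (by
      intro π _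
      rw [Finset.mem_coe, Finset.mem_powersetCard]
      exact ⟨Finset.subset_univ _, card_pre A π⟩)
  rw [← Fintype.card_perm, ← Finset.card_univ (α := Equiv.Perm I), hsum,
    Finset.sum_congr rfl (g := fun _ => #(permFib A A))]
  · rw [Finset.sum_const, Finset.card_powersetCard, Finset.card_univ, smul_eq_mul]
  · intro T hT
    rw [← card_permFib_eq (Finset.mem_powersetCard.mp hT).2]
    rfl

theorem card_pattern_le (D B : Finset I) (m : ℕ) :
    #(univ.filter (fun T : Finset I => T ∩ B = D ∩ B ∧ #T = m)) ≤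
      (Fintype.card I - #B).choose (m - #(D ∩ B)) := by
  rw [← Finset.card_compl, ← Finset.card_powersetCard]
  apply Finset.card_le_card_of_injOn (fun T => T \ B)
  · intro T hT
    rw [Finset.mem_coe, Finset.mem_filter] at hT
    rw [Finset.mem_coe, Finset.mem_powersetCard]
    constructor
    · intro x hx
      rw [Finset.mem_sdiff] at hx
      rw [Finset.mem_compl]
      exact hx.2
    · have h1 := Finset.card_sdiff_add_card_inter T B
      rw [hT.2.1, hT.2.2] at h1
      show #(T \ B) = _
      omega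
  · intro T hT T' hT' h
    rw [Finset.mem_coe, Finset.mem_filter] at hT hT'
    rw [← Finset.sdiff_union_inter T B, ← Finset.sdiff_union_inter T' B, hT.2.1, hT'.2.1]
    simp only at h
    rw [h]

/-- The number of permutations that map the elements of `B` into `A` exactly as prescribed
by `D`. -/
theorem card_fix_mul_le (A B D : Finset I) :
    #(univ.filter (fun π : Equiv.Perm I => ∀ i ∈ B, (π i ∈ A ↔ i ∈ D))) *
      (Fintype.card I).choose (#A) ≤
      (Fintype.card I - #B).choose (#A - #(D ∩ B)) * (Fintype.card I).factorial := by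
  have h1 : #(univ.filter (fun π : Equiv.Perm I => ∀ i ∈ B, (π i ∈ A ↔ i ∈ D))) ≤
      (Fintype.card I - #B).choose (#A - #(D ∩ B)) * #(permFib A A) := by
    rw [Finset.card_eq_sum_card_fiberwise
      (f := fun π : Equiv.Perm I => univ.filter (fun i => π i ∈ A))
      (t := univ.filter (fun T : Finset I => T ∩ B = D ∩ B ∧ #T = #A))]
    · refine (Finset.sum_le_card_nsmul _ _ (#(permFib A A)) ?_).trans ?_
      · intro T hT
        simp only [mem_filter, mem_univ, true_and] at hT
        rw [← card_permFib_eq hT.2]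
        apply Finset.card_le_card
        intro π hπ
        simp only [mem_filter, mem_univ, true_and] at hπ
        simp only [permFib, mem_filter, mem_univ, true_and]
        exact hπ.2
      · rw [smul_eq_mul]
        apply Nat.mul_le_mul_right
        exact card_pattern_le D B (#A)
    · intro π hπ
      rw [Finset.mem_coe, Finset.mem_filter] at hπ ⊢
      replace hπ := hπ.2
      refine ⟨Finset.mem_univ _, ?_, card_pre A π⟩
      ext i
      simp only [mem_inter, mem_filter, mem_univ, true_and]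
      constructor
      · rintro ⟨h3, h4⟩
        exact ⟨(hπ i h4).mp h3, h4⟩
      · rintro ⟨h3, h4⟩
        exact ⟨(hπ i h4).mpr h3, h4⟩
  calc _ ≤ ((Fintype.card I - #B).choose (#A - #(D ∩ B)) * #(permFib A A)) *
        (Fintype.card I).choose (#A) := Nat.mul_le_mul_right _ h1
    _ = (Fintype.card I - #B).choose (#A - #(D ∩ B)) *
        ((Fintype.card I).choose (#A) * #(permFib A A)) := by ring
    _ = _ := by rw [choose_mul_card]

end Perm

theorem choose_weight_le (x y : ℝ) (hx : 0 ≤ x) (hy : 0 ≤ y) (h : x + y = 1) (m l : ℕ)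
    (hl : l ≤ m) : (m.choose l : ℝ) * (x ^ l * y ^ (m - l)) ≤ 1 := by
  have h1 : (x + y) ^ m = 1 := by rw [h, one_pow]
  rw [add_pow] at h1
  rw [← h1]
  refine le_trans (le_of_eq ?_) (Finset.single_le_sum
    (f := fun l => x ^ l * y ^ (m - l) * (m.choose l : ℝ)) (fun i _ => by positivity)
    (Finset.mem_range.mpr (Nat.lt_succ_of_le hl)))
  ring

/-- The largest term of the binomial expansion of `(A/N + (N-A)/N)^N` is the `A`-th one. -/
theorem one_le_choose_weight (N A : ℕ) (hA : 0 < A) (hAN : A < N) :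
    (1:ℝ) ≤ (N + 1) * ((N.choose A : ℝ) * (((A:ℝ) / N) ^ A * (((N:ℝ) - A) / N) ^ (N - A))) := by
  set x : ℝ := (A:ℝ) / N with hx
  set y : ℝ := ((N:ℝ) - A) / N with hy
  have hN0 : (0:ℝ) < N := by exact_mod_cast (by omega : 0 < N)
  have hA0 : (0:ℝ) < A := by exact_mod_cast hA
  have hAN' : (A:ℝ) < N := by exact_mod_cast hAN
  have hx0 : 0 < x := by positivity
  have hy0 : 0 < y := div_pos (by linarith) hN0
  have hxy : x + y = 1 := by
    rw [hx, hy]; field_simp; ring
  set t : ℕ → ℝ := fun l => (N.choose l : ℝ) * (x ^ l * y ^ (N - l)) with ht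
  have hrec : ∀ l, l < N → t (l + 1) * ((l + 1) * (N - A)) = t l * ((N - l) * A) := by
    intro l hl
    have h1 : (N.choose (l + 1) : ℝ) * (l + 1) = N.choose l * (N - l) := by
      have := Nat.choose_succ_right_eq N l
      have h2 : ((N.choose (l + 1) * (l + 1) : ℕ) : ℝ) = ((N.choose l * (N - l) : ℕ) : ℝ) := by
        rw [this]
      push_cast [Nat.cast_sub hl.le] at h2
      exact h2
    have h2 : y ^ (N - l) = y ^ (N - (l + 1)) * y := by
      rw [← pow_succ]; congr 1; omega
    have h3 : x * N = A := by rw [hx]; field_simp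
    have h4 : y * N = N - A := by rw [hy]; field_simp
    simp only [ht]
    calc (N.choose (l + 1) : ℝ) * (x ^ (l + 1) * y ^ (N - (l + 1))) * ((l + 1) * (N - A)) =
        ((N.choose (l + 1) : ℝ) * (l + 1)) * (x ^ l * x * y ^ (N - (l + 1)) * (y * N)) := by
          rw [h4]; ring
      _ = (N.choose l * (N - l)) * (x ^ l * x * y ^ (N - (l + 1)) * (y * N)) := by rw [h1]
      _ = N.choose l * (x ^ l * y ^ (N - l)) * ((N - l) * (x * N)) := by rw [h2]; ring
      _ = _ := by rw [h3]
  have hup : ∀ d, t (A + d) ≤ t A := by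
    intro d
    induction d with
    | zero => simp
    | succ d ih =>
      by_cases hd : A + d < N
      · have h1 := hrec (A + d) hd
        have h2 : 0 ≤ t (A + d) := by simp only [ht]; positivity
        have h3 : t (A + (d + 1)) ≤ t (A + d) := by
          have hpos : (0:ℝ) < ((A + d : ℕ) + 1) * (N - A) := by
            apply mul_pos (by positivity); linarith
          apply le_of_mul_le_mul_right _ hpos
          rw [← add_assoc, h1]
          apply mul_le_mul_of_nonneg_left _ h2
          push_cast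
          have hd0 : (0:ℝ) ≤ d := by positivity
          nlinarith
        exact h3.trans ih
      · have h1 : N.choose (A + (d + 1)) = 0 := Nat.choose_eq_zero_of_lt (by omega)
        have h2 : t (A + (d + 1)) = 0 := by simp [ht, h1]
        rw [h2]
        simp only [ht]; positivity
  have hdown : ∀ d, d ≤ A → t (A - d) ≤ t A := by
    intro d
    induction d with
    | zero => simp
    | succ d ih =>
      intro hd
      have h1 := hrec (A - (d + 1)) (by omega)
      have h2 : A - (d + 1) + 1 = A - d := by omega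
      rw [h2] at h1
      have h3 : t (A - (d + 1)) ≤ t (A - d) := by
        have hcast : ((A - (d + 1) : ℕ) : ℝ) = A - (d + 1) := by
          rw [Nat.cast_sub hd]; push_cast; ring
        have hdA : (d:ℝ) + 1 ≤ A := by exact_mod_cast hd
        have hd0 : (0:ℝ) ≤ d := by positivity
        have hpos : (0:ℝ) < (N - (A - (d + 1) : ℕ)) * A := by
          rw [hcast]
          apply mul_pos _ hA0
          linarith
        apply le_of_mul_le_mul_right _ hpos
        rw [← h1]
        apply mul_le_mul_of_nonneg_left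
        · rw [hcast]
          nlinarith
        · simp only [ht]; positivity
      exact h3.trans (ih (by omega))
  have hall : ∀ l, t l ≤ t A := by
    intro l
    rcases le_total A l with h1 | h1
    · obtain ⟨d, rfl⟩ := Nat.exists_eq_add_of_le h1
      exact hup d
    · have h2 := hdown (A - l) (Nat.sub_le _ _)
      rwa [Nat.sub_sub_self h1] at h2
  have h1 : (x + y) ^ N = 1 := by rw [hxy, one_pow]
  rw [add_pow] at h1
  calc (1:ℝ) = ∑ m ∈ range (N + 1), x ^ m * y ^ (N - m) * (N.choose m : ℝ) := h1.symm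
    _ ≤ ∑ m ∈ range (N + 1), t A := by
        apply Finset.sum_le_sum
        intro m _
        refine le_trans (le_of_eq ?_) (hall m)
        simp only [ht]; ring
    _ = (N + 1) * t A := by
        rw [Finset.sum_const, Finset.card_range, nsmul_eq_mul]
        push_cast
        ring

section Perm

variable {I : Type} [Fintype I] [DecidableEq I]

/-- If `A` has density between `1 - θ` and `θ` then a random permutation follows a prescribed
pattern on `B` with probability at most `(N + 1) θ ^ #B`. -/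
theorem card_fix_le (A B D : Finset I) (θ : ℝ) (hA : 0 < #A) (hAN : #A < Fintype.card I)
    (h1 : (#A : ℝ) ≤ θ * Fintype.card I) (h2 : (Fintype.card I : ℝ) - #A ≤ θ * Fintype.card I) :
    (#(univ.filter (fun π : Equiv.Perm I => ∀ i ∈ B, (π i ∈ A ↔ i ∈ D))) : ℝ) ≤
      (Fintype.card I + 1) * θ ^ #B * (Fintype.card I).factorial := by
  set N := Fintype.card I with hN
  set Q := #(univ.filter (fun π : Equiv.Perm I => ∀ i ∈ B, (π i ∈ A ↔ i ∈ D))) with hQ
  have hN0 : (0:ℝ) < N := by exact_mod_cast (by omega : 0 < N)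
  have hA0 : (0:ℝ) < #A := by exact_mod_cast hA
  have hAN' : (#A:ℝ) < N := by exact_mod_cast hAN
  have hθ0 : 0 < θ := by
    by_contra h
    push Not at h
    nlinarith
  have hfac : (0:ℝ) < N.factorial := by positivity
  have hmul := card_fix_mul_le A B D
  rw [← hN, ← hQ] at hmul
  by_cases hcase : #(D ∩ B) ≤ #A ∧ #A - #(D ∩ B) ≤ N - #B
  · obtain ⟨ha, hb⟩ := hcase
    set x : ℝ := (#A:ℝ) / N with hx
    set y : ℝ := ((N:ℝ) - #A) / N with hy
    have hx0 : 0 < x := by positivity
    have hy0 : 0 < y := div_pos (by linarith) hN0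
    have hxy : x + y = 1 := by rw [hx, hy]; field_simp; ring
    have hxθ : x ≤ θ := by rw [hx, div_le_iff₀ hN0]; exact h1
    have hyθ : y ≤ θ := by rw [hy, div_le_iff₀ hN0]; exact h2
    have hlow := one_le_choose_weight N (#A) hA hAN
    have hup := choose_weight_le x y hx0.le hy0.le hxy (N - #B) (#A - #(D ∩ B)) hb
    have hBN : #B ≤ N := by rw [hN]; exact Finset.card_le_univ B
    have hDB : #(D ∩ B) ≤ #B := Finset.card_le_card Finset.inter_subset_right
    have e1 : x ^ #A = x ^ (#A - #(D ∩ B)) * x ^ #(D ∩ B) := by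
      rw [← pow_add]; congr 1; omega
    have e2 : y ^ (N - #A) = y ^ (N - #B - (#A - #(D ∩ B))) * y ^ (#B - #(D ∩ B)) := by
      rw [← pow_add]; congr 1; omega
    have e3 : x ^ #(D ∩ B) * y ^ (#B - #(D ∩ B)) ≤ θ ^ #B := by
      calc x ^ #(D ∩ B) * y ^ (#B - #(D ∩ B)) ≤ θ ^ #(D ∩ B) * θ ^ (#B - #(D ∩ B)) := by
            gcongr
        _ = θ ^ #B := by rw [← pow_add]; congr 1; omega
    have hmulR : (Q:ℝ) * (N.choose (#A) : ℝ) ≤
        ((N - #B).choose (#A - #(D ∩ B)) : ℝ) * N.factorial := by exact_mod_cast hmul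
    have hchain : (Q:ℝ) * ((N.choose (#A) : ℝ) * (x ^ #A * y ^ (N - #A))) ≤
        θ ^ #B * N.factorial := by
      calc (Q:ℝ) * ((N.choose (#A) : ℝ) * (x ^ #A * y ^ (N - #A))) =
          ((Q:ℝ) * (N.choose (#A) : ℝ)) * (x ^ #A * y ^ (N - #A)) := by ring
        _ ≤ (((N - #B).choose (#A - #(D ∩ B)) : ℝ) * N.factorial) *
            (x ^ #A * y ^ (N - #A)) := by gcongr
        _ = (((N - #B).choose (#A - #(D ∩ B)) : ℝ) *
            (x ^ (#A - #(D ∩ B)) * y ^ (N - #B - (#A - #(D ∩ B))))) *
            (x ^ #(D ∩ B) * y ^ (#B - #(D ∩ B))) * N.factorial := by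
            rw [e1, e2]; ring
        _ ≤ 1 * θ ^ #B * N.factorial := by
            apply mul_le_mul_of_nonneg_right _ hfac.le
            apply mul_le_mul hup e3 (by positivity) (by norm_num)
        _ = _ := by ring
    calc (Q:ℝ) = Q * 1 := by ring
      _ ≤ Q * ((N + 1) * ((N.choose (#A) : ℝ) * (x ^ #A * y ^ (N - #A)))) := by gcongr
      _ = (N + 1) * ((Q:ℝ) * ((N.choose (#A) : ℝ) * (x ^ #A * y ^ (N - #A)))) := by ring
      _ ≤ (N + 1) * (θ ^ #B * N.factorial) := by gcongr
      _ = _ := by ring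
  · have hQ0 : Q = 0 := by
      by_cases ha : #(D ∩ B) ≤ #A
      · have hb : N - #B < #A - #(D ∩ B) := by
          by_contra h
          push Not at h
          exact hcase ⟨ha, h⟩
        rw [Nat.choose_eq_zero_of_lt hb, zero_mul] at hmul
        have hch : 0 < N.choose (#A) := Nat.choose_pos (by omega)
        have := Nat.le_zero.mp hmul
        rcases Nat.mul_eq_zero.mp this with h | h
        · exact h
        · omega
      · rw [hQ, Finset.card_eq_zero, Finset.filter_eq_empty_iff]
        intro π _ h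
        apply ha
        apply Finset.card_le_card_of_injOn (fun i => π i)
        · intro i hi
          rw [Finset.mem_coe, Finset.mem_inter] at hi
          rw [Finset.mem_coe]
          exact (h i hi.2).mpr hi.1
        · intro i _ j _ hij
          exact π.injective hij
    rw [hQ0]
    push_cast
    positivity

end Perm

theorem choose_le_four (q L : ℕ) : (q * L).choose q ≤ (4 * L) ^ q := by
  have h1 : ((q * L).choose q : ℝ) ≤ ((q * L : ℕ) : ℝ) ^ q / (q.factorial : ℝ) :=
    Nat.choose_le_pow_div q (q * L)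
  have h2 : (q : ℝ) ^ q / (q.factorial : ℝ) ≤ Real.exp q :=
    Real.pow_div_factorial_le_exp (q : ℝ) (by positivity) q
  have h3 : Real.exp q ≤ 4 ^ q := by
    rw [← Real.exp_one_pow]
    apply pow_le_pow_left₀ (Real.exp_pos 1).le
    have := Real.exp_one_lt_d9
    linarith
  have h4 : ((q * L).choose q : ℝ) ≤ ((4 * L) ^ q : ℕ) := by
    calc ((q * L).choose q : ℝ) ≤ ((q * L : ℕ) : ℝ) ^ q / (q.factorial : ℝ) := h1
      _ = (L : ℝ) ^ q * ((q : ℝ) ^ q / (q.factorial : ℝ)) := by
        push_cast
        rw [mul_pow]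
        ring
      _ ≤ (L : ℝ) ^ q * 4 ^ q := by
        apply mul_le_mul_of_nonneg_left (h2.trans h3) (by positivity)
      _ = _ := by
        push_cast
        rw [mul_pow]
        ring
  exact_mod_cast h4

theorem eventually_poly_lt (c t : ℕ) : ∃ M₀ : ℕ, ∀ M ≥ M₀, (2 * M * c + 1) ^ t < 4 ^ M := by
  have h1 := tendsto_pow_const_div_const_pow_of_one_lt t (r := (4:ℝ)) (by norm_num)
  have h2 := h1.eventually (gt_mem_nhds (show (0:ℝ) < 1 / ((2 * c + 1 : ℕ) : ℝ) ^ t by positivity))
  obtain ⟨M₀, hM₀⟩ := Filter.eventually_atTop.mp h2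
  refine ⟨max M₀ 1, fun M hM => ?_⟩
  have h3 := hM₀ M ((le_max_left _ _).trans hM)
  have h4 : 1 ≤ M := (le_max_right _ _).trans hM
  have h5 : (0:ℝ) < ((2 * c + 1 : ℕ) : ℝ) ^ t := by positivity
  rw [div_lt_div_iff₀ (by positivity) h5, one_mul] at h3
  have h6 : (2 * M * c + 1) ^ t ≤ M ^ t * (2 * c + 1) ^ t := by
    rw [← mul_pow]
    apply Nat.pow_le_pow_left
    nlinarith
  have h7 : M ^ t * (2 * c + 1) ^ t < 4 ^ M := by exact_mod_cast h3
  omega

/-- The hypergraph: `2 M` vertices, hyperedges `(v, l)` with root `v` and leaves given by the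
permutations; every vertex set of size between `M / 2` and `M` cuts all but `2 M` hyperedges. -/
theorem exists_perms (a : ℕ) : ∃ M₀ : ℕ, ∀ M ≥ M₀, 1 ≤ M →
    ∃ σ : Fin (3 * (a + 4)) → Equiv.Perm (Fin (2 * M) × Fin (2 ^ a)),
      ∀ S : Finset (Fin (2 * M)), M ≤ 2 * #S → #S ≤ M →
        #(univ.filter (fun i : Fin (2 * M) × Fin (2 ^ a) => ∀ s, ((σ s i).1 ∈ S ↔ i.1 ∈ S))) <
          2 * M := by
  obtain ⟨M₀, hM₀⟩ := eventually_poly_lt (2 ^ a) (3 * (a + 4))
  refine ⟨M₀, fun M hM hM1 => ?_⟩
  by_contra hcon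
  push Not at hcon
  set N := 2 * M * 2 ^ a with hN
  set t := 3 * (a + 4) with ht
  have hcardI : Fintype.card (Fin (2 * M) × Fin (2 ^ a)) = N := by simp [hN]
  let A : Finset (Fin (2 * M)) → Finset (Fin (2 * M) × Fin (2 ^ a)) := fun S => S ×ˢ univ
  let Q : Finset (Fin (2 * M)) → Finset (Fin (2 * M) × Fin (2 ^ a)) →
      Finset (Equiv.Perm (Fin (2 * M) × Fin (2 ^ a))) := fun S B =>
    univ.filter (fun π : Equiv.Perm (Fin (2 * M) × Fin (2 ^ a)) =>
      ∀ i ∈ B, (π i ∈ A S ↔ i ∈ A S))
  let good : Finset (Finset (Fin (2 * M))) := univ.filter (fun S => M ≤ 2 * #S ∧ #S ≤ M)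
  have hcover : (univ : Finset (Fin t → Equiv.Perm (Fin (2 * M) × Fin (2 ^ a)))) ⊆
      (good ×ˢ powersetCard (2 * M) univ).biUnion
        (fun p : Finset (Fin (2 * M)) × Finset (Fin (2 * M) × Fin (2 ^ a)) =>
          Fintype.piFinset (fun _ => Q p.1 p.2)) := by
    intro σ _
    obtain ⟨S, hS, hS', hu⟩ := hcon σ
    obtain ⟨B, hB, hBc⟩ := Finset.exists_subset_card_eq hu
    rw [Finset.mem_biUnion]
    refine ⟨(S, B), ?_, ?_⟩
    · rw [Finset.mem_product, Finset.mem_powersetCard]
      exact ⟨Finset.mem_filter.mpr ⟨Finset.mem_univ _, hS, hS'⟩, ⟨Finset.subset_univ _, hBc⟩⟩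
    · rw [Fintype.mem_piFinset]
      intro s
      simp only [Q, mem_filter, mem_univ, true_and]
      intro i hi
      have := (Finset.mem_filter.mp (hB hi)).2 s
      simpa only [A, Finset.mem_product, Finset.mem_univ, and_true] using this
  have hQ : ∀ S : Finset (Fin (2 * M)), M ≤ 2 * #S → #S ≤ M →
      ∀ B : Finset (Fin (2 * M) × Fin (2 ^ a)), #B = 2 * M →
      (#(Q S B) : ℝ) ≤ (N + 1) * (3 / 4) ^ (2 * M) * N.factorial := by
    intro S hS hS' B hB
    have hAS : #(A S) = #S * 2 ^ a := by
      simp only [A, Finset.card_product, Finset.card_univ, Fintype.card_fin]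
    have hS0 : 0 < #S := by omega
    have h2a : 0 < 2 ^ a := by positivity
    have hSR : (M:ℝ) ≤ 2 * #S := by exact_mod_cast hS
    have hSR' : (#S:ℝ) ≤ M := by exact_mod_cast hS'
    have h2aR : (0:ℝ) < 2 ^ a := by positivity
    have h1 := card_fix_le (A S) B (A S) (3 / 4) (by rw [hAS]; positivity)
      (by
        rw [hAS, hcardI, hN]
        apply Nat.mul_lt_mul_of_pos_right _ h2a
        omega)
      (by
        rw [hAS, hcardI, hN]
        push_cast
        nlinarith)
      (by
        rw [hAS, hcardI, hN]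
        push_cast
        nlinarith)
    rw [hcardI, hB] at h1
    exact h1
  have h1 := Finset.card_le_card hcover
  have h2 : (#((good ×ˢ powersetCard (2 * M) univ).biUnion
        (fun p : Finset (Fin (2 * M)) × Finset (Fin (2 * M) × Fin (2 ^ a)) =>
          Fintype.piFinset (fun _ : Fin t => Q p.1 p.2))) : ℝ) ≤
      (2 ^ (2 * M) * N.choose (2 * M)) * ((N + 1) * (3 / 4) ^ (2 * M) * N.factorial) ^ t := by
    have h3 : (#((good ×ˢ powersetCard (2 * M) univ).biUnion
        (fun p : Finset (Fin (2 * M)) × Finset (Fin (2 * M) × Fin (2 ^ a)) =>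
          Fintype.piFinset (fun _ : Fin t => Q p.1 p.2))) : ℝ) ≤
        ∑ p ∈ good ×ˢ powersetCard (2 * M) univ, (#(Fintype.piFinset (fun _ : Fin t =>
          Q p.1 p.2)) : ℝ) := by exact_mod_cast Finset.card_biUnion_le
    refine h3.trans ?_
    refine (Finset.sum_le_card_nsmul _ _
      ((((N:ℝ) + 1) * (3 / 4) ^ (2 * M) * (N.factorial : ℝ)) ^ t) ?_).trans ?_
    · intro p hp
      rw [Finset.mem_product, Finset.mem_powersetCard] at hp
      have hp1 := (Finset.mem_filter.mp hp.1).2
      rw [Fintype.card_piFinset_const]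
      push_cast
      exact pow_le_pow_left₀ (by positivity) (hQ p.1 hp1.1 hp1.2 p.2 hp.2.2) _
    · rw [nsmul_eq_mul, Finset.card_product, Finset.card_powersetCard,
        Finset.card_univ, hcardI]
      push_cast
      apply mul_le_mul_of_nonneg_right _ (by positivity)
      apply mul_le_mul_of_nonneg_right _ (by positivity)
      have : good.card ≤ 2 ^ (2 * M) := by
        refine (Finset.card_filter_le _ _).trans ?_
        simp
      exact_mod_cast this
  have h3 : Fintype.card (Fin t → Equiv.Perm (Fin (2 * M) × Fin (2 ^ a))) =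
      N.factorial ^ t := by
    rw [Fintype.card_fun, Fintype.card_perm, hcardI, Fintype.card_fin]
  rw [Finset.card_univ, h3] at h1
  have h4 : ((N.factorial : ℝ)) ^ t ≤
      (2 ^ (2 * M) * N.choose (2 * M)) * ((N + 1) * (3 / 4) ^ (2 * M) * N.factorial) ^ t := by
    refine le_trans ?_ h2
    exact_mod_cast h1
  have h5 : (1:ℝ) ≤ (2 ^ (2 * M) * N.choose (2 * M)) * ((N + 1) * (3 / 4) ^ (2 * M)) ^ t := by
    have h6 : (0:ℝ) < (N.factorial : ℝ) ^ t := by positivity
    apply le_of_mul_le_mul_right _ h6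
    rw [one_mul]
    refine h4.trans (le_of_eq ?_)
    rw [mul_pow _ (N.factorial : ℝ)]
    ring
  have h7 : (N.choose (2 * M) : ℝ) ≤ ((4 * 2 ^ a) ^ (2 * M) : ℝ) := by
    exact_mod_cast choose_le_four (2 * M) (2 ^ a)
  have h8 : ((N:ℝ) + 1) ^ t < 4 ^ M := by
    have := hM₀ M hM
    rw [← hN] at this
    exact_mod_cast this
  -- (3/4)^(2M t) ≤ (1/2)^(2M (a+4))
  have h9 : ((3 / 4 : ℝ) ^ (2 * M)) ^ t ≤ ((1 / 2 : ℝ) ^ (a + 4)) ^ (2 * M) := by
    rw [← pow_mul, ← pow_mul, ht]
    have : 2 * M * (3 * (a + 4)) = 3 * ((a + 4) * (2 * M)) := by ring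
    rw [this, pow_mul]
    apply pow_le_pow_left₀ (by positivity)
    norm_num
  have h10 : (2 ^ (2 * M) * (N.choose (2 * M) : ℝ)) * ((N + 1) * (3 / 4) ^ (2 * M)) ^ t < 1 := by
    calc (2 ^ (2 * M) * (N.choose (2 * M) : ℝ)) * ((N + 1) * (3 / 4) ^ (2 * M)) ^ t =
        (2 ^ (2 * M) * (N.choose (2 * M) : ℝ)) * (((N:ℝ) + 1) ^ t * ((3 / 4) ^ (2 * M)) ^ t) := by
          rw [mul_pow]
      _ ≤ (2 ^ (2 * M) * (4 * 2 ^ a) ^ (2 * M)) *
          (((N:ℝ) + 1) ^ t * ((1 / 2 : ℝ) ^ (a + 4)) ^ (2 * M)) := by gcongr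
      _ = (2 * (4 * 2 ^ a) * (1 / 2 : ℝ) ^ (a + 4)) ^ (2 * M) * ((N:ℝ) + 1) ^ t := by
          have e : (2 * (4 * 2 ^ a) * (1 / 2 : ℝ) ^ (a + 4)) ^ (2 * M) =
              2 ^ (2 * M) * (4 * 2 ^ a) ^ (2 * M) * ((1 / 2 : ℝ) ^ (a + 4)) ^ (2 * M) := by
            rw [mul_pow, mul_pow 2 (4 * 2 ^ a : ℝ)]
          rw [e]
          ring
      _ = (1 / 2 : ℝ) ^ (2 * M) * ((N:ℝ) + 1) ^ t := by
          have : 2 * (4 * 2 ^ a) * (1 / 2 : ℝ) ^ (a + 4) = 1 / 2 := by
            rw [pow_add, one_div, inv_pow]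
            field_simp
            norm_num
          rw [this]
      _ < (1 / 2 : ℝ) ^ (2 * M) * 4 ^ M := by gcongr
      _ = 1 := by
          rw [pow_mul, ← mul_pow]
          norm_num
  linarith

end Pool.Agent.Lib.MP_0e79d0_lc
end
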