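import Mathlib
import Pool.Agent.Lib.MP_0e79d0_lc.Defs
import Pool.Agent.Lib.MP_0e79d0_lc.Expander

section

/-!
The amplification of bounded-error randomized monotone formulas by iterated majorities of three.
-/

namespace Pool.Agent.Lib.MP_0e79d0_lc

namespace MFormula

variable {ι : Type} {L : (Set ι → Prop) → Prop}

theorem one_le_size (a : MFormula L) : 1 ≤ a.size := by
  induction a with
  | leaf f h => simp [size]
  | and a b iha ihb => simp only [size]; omega
  | or a b iha ihb => simp only [size]; omega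

/-- Majority of three. -/
def maj (a b c : MFormula L) : MFormula L := or (and a b) (and (or a b) c)

theorem eval_maj (S : Set ι) (a b c : MFormula L) :
    (maj a b c).eval S ↔ (a.eval S ∧ b.eval S) ∨ ((a.eval S ∨ b.eval S) ∧ c.eval S) := by
  simp [maj, eval]

theorem size_maj (a b c : MFormula L) :
    (maj a b c).size = 2 * a.size + 2 * b.size + c.size := by
  simp [maj, size]; ring

end MFormula

/-- `Amp f δ T`: there is a (finitely supported) random monotone formula of size at most `T`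
whose probability of disagreeing with `f` is at most `δ` on every input. -/
def Amp {ι : Type} (L : (Set ι → Prop) → Prop) (f : Set ι → Prop) (δ : ℝ) (T : ℕ) : Prop :=
  ∃ (Ω : Type) (_ : Fintype Ω) (p : Ω → ℝ) (φ : Ω → MFormula L),
    (∀ ω, 0 ≤ p ω) ∧ ∑ ω, p ω = 1 ∧ (∀ ω, (φ ω).size ≤ T) ∧
    ∀ F : Set ι, ∑ ω, p ω * (open Classical in if ((φ ω).eval F ↔ f F) then 0 else 1) ≤ δ

open Classical in
theorem Amp.step {ι : Type} {L : (Set ι → Prop) → Prop} {f : Set ι → Prop} {δ : ℝ} {T : ℕ} (h0 : 0 ≤ δ) (h1 : δ ≤ 1)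
    (h : Amp L f δ T) : Amp L f (3 * δ ^ 2 - 2 * δ ^ 3) (5 * T) := by
  obtain ⟨Ω, hΩ, p, φ, hp, hs, hT, he⟩ := h
  refine ⟨Ω × Ω × Ω, inferInstance, fun w => p w.1 * (p w.2.1 * p w.2.2),
    fun w => MFormula.maj (φ w.1) (φ w.2.1) (φ w.2.2), ?_, ?_, ?_, ?_⟩
  · intro w
    exact mul_nonneg (hp _) (mul_nonneg (hp _) (hp _))
  · rw [Fintype.sum_prod_type]
    simp only [Fintype.sum_prod_type, ← Finset.mul_sum, hs, mul_one]
  · intro w
    rw [MFormula.size_maj]
    have := hT w.1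
    have := hT w.2.1
    have := hT w.2.2
    omega
  · intro F
    set β : Ω → ℝ := fun ω => if ((φ ω).eval F ↔ f F) then 0 else 1 with hβ
    have hβ01 : ∀ ω, β ω = 0 ∨ β ω = 1 := by
      intro ω
      simp only [hβ]
      split_ifs <;> simp
    have key : ∀ w : Ω × Ω × Ω,
        (if ((MFormula.maj (φ w.1) (φ w.2.1) (φ w.2.2)).eval F ↔ f F) then (0:ℝ) else 1) =
          β w.1 * β w.2.1 + β w.1 * β w.2.2 + β w.2.1 * β w.2.2 -
            2 * (β w.1 * β w.2.1 * β w.2.2) := by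
      intro w
      simp only [hβ, MFormula.eval_maj]
      by_cases ha : (φ w.1).eval F <;> by_cases hb : (φ w.2.1).eval F <;>
        by_cases hc : (φ w.2.2).eval F <;> by_cases hf : f F <;> simp [ha, hb, hc, hf] <;> norm_num
    set e : ℝ := ∑ ω, p ω * β ω with hedef
    have hesum : ∑ w : Ω × Ω × Ω, (p w.1 * (p w.2.1 * p w.2.2)) *
        (if ((MFormula.maj (φ w.1) (φ w.2.1) (φ w.2.2)).eval F ↔ f F) then (0:ℝ) else 1) =
        3 * e ^ 2 - 2 * e ^ 3 := by
      have e1 : ∑ w : Ω × Ω × Ω, (p w.1 * (p w.2.1 * p w.2.2)) *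
        (if ((MFormula.maj (φ w.1) (φ w.2.1) (φ w.2.2)).eval F ↔ f F) then (0:ℝ) else 1) =
          ∑ w : Ω × Ω × Ω, ((p w.1 * β w.1) * ((p w.2.1 * β w.2.1) * p w.2.2) +
            (p w.1 * β w.1) * (p w.2.1 * (p w.2.2 * β w.2.2)) +
            p w.1 * ((p w.2.1 * β w.2.1) * (p w.2.2 * β w.2.2)) -
            2 * ((p w.1 * β w.1) * ((p w.2.1 * β w.2.1) * (p w.2.2 * β w.2.2)))) := by
        apply Finset.sum_congr rfl
        intro w _
        rw [key w]
        ring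
      rw [e1]
      simp only [Finset.sum_add_distrib, Finset.sum_sub_distrib, ← Finset.mul_sum,
        Fintype.sum_prod_type]
      simp only [← Finset.mul_sum, ← Finset.sum_mul, hs, ← hedef]
      ring
    have he' : e ≤ δ := he F
    have he0 : 0 ≤ e := by
      apply Finset.sum_nonneg
      intro ω _
      apply mul_nonneg (hp ω)
      rcases hβ01 ω with h | h <;> rw [h] <;> norm_num
    show ∑ w : Ω × Ω × Ω, (p w.1 * (p w.2.1 * p w.2.2)) *
        (if ((MFormula.maj (φ w.1) (φ w.2.1) (φ w.2.2)).eval F ↔ f F) then (0:ℝ) else 1) ≤ _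
    rw [hesum]
    -- monotonicity of 3x^2-2x^3 on [0,1]
    have : 0 ≤ (3 * δ ^ 2 - 2 * δ ^ 3) - (3 * e ^ 2 - 2 * e ^ 3) := by
      have h2 : (3 * δ ^ 2 - 2 * δ ^ 3) - (3 * e ^ 2 - 2 * e ^ 3) =
          (δ - e) * (3 * (δ + e) - 2 * (δ ^ 2 + δ * e + e ^ 2)) := by ring
      rw [h2]
      apply mul_nonneg (by linarith)
      nlinarith [mul_nonneg he0 (sub_nonneg.mpr h1), mul_nonneg h0 (sub_nonneg.mpr h1),
        mul_nonneg he0 (sub_nonneg.mpr (he'.trans h1)), mul_nonneg h0 (sub_nonneg.mpr (he'.trans h1)), mul_nonneg he0 h0]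
    linarith

theorem Amp.mono {ι : Type} {L : (Set ι → Prop) → Prop} {f : Set ι → Prop} {δ δ' : ℝ} {T : ℕ}
    (h : Amp L f δ T) (hδ : δ ≤ δ') : Amp L f δ' T := by
  obtain ⟨Ω, hΩ, p, φ, hp, hs, hT, he⟩ := h
  exact ⟨Ω, hΩ, p, φ, hp, hs, hT, fun F => (he F).trans hδ⟩

/-- After `3 + h` rounds the error is at most `(1/4)^(2^h) / 3`. -/
theorem Amp.iter {ι : Type} {L : (Set ι → Prop) → Prop} {f : Set ι → Prop} {T : ℕ}
    (h : Amp L f (1 / 3) T) (m : ℕ) : Amp L f ((1 / 4 : ℝ) ^ (2 ^ m) / 3) (5 ^ (3 + m) * T) := by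
  induction m with
  | zero =>
    have h1 : Amp L f (7 / 27) (5 * T) := by
      have := h.step (by norm_num) (by norm_num)
      exact this.mono (by norm_num)
    have h2 : Amp L f (17 / 100) (5 * (5 * T)) := by
      have := h1.step (by norm_num) (by norm_num)
      exact this.mono (by norm_num)
    have h3 : Amp L f (1 / 12) (5 * (5 * (5 * T))) := by
      have := h2.step (by norm_num) (by norm_num)
      exact this.mono (by norm_num)
    have e1 : (5 ^ (3 + 0) * T) = (5 * (5 * (5 * T))) := by ring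
    rw [e1]
    exact h3.mono (by norm_num)
  | succ m ih =>
    have h0 : (0:ℝ) ≤ (1 / 4 : ℝ) ^ (2 ^ m) / 3 := by positivity
    have h1 : (1 / 4 : ℝ) ^ (2 ^ m) ≤ 1 := pow_le_one₀ (by norm_num) (by norm_num)
    have h2 := ih.step h0 (by linarith)
    have e1 : 5 ^ (3 + (m + 1)) * T = 5 * (5 ^ (3 + m) * T) := by ring
    rw [e1]
    apply h2.mono
    have e2 : (1 / 4 : ℝ) ^ (2 ^ (m + 1)) = ((1 / 4 : ℝ) ^ (2 ^ m)) ^ 2 := by
      rw [← pow_mul]; congr 1
    rw [e2]
    have : 0 ≤ ((1 / 4 : ℝ) ^ (2 ^ m) / 3) ^ 3 := by positivity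
    nlinarith

/-- Union bound: a random monotone formula with small enough error yields a deterministic one. -/
theorem Amp.det {ι : Type} {L : (Set ι → Prop) → Prop} [Fintype ι] {f : Set ι → Prop} {δ : ℝ}
    {T : ℕ} (h : Amp L f δ T) (hδ : 2 ^ Fintype.card ι * δ < 1) :
    ∃ ψ : MFormula L, ψ.size ≤ T ∧ ∀ F : Set ι, ψ.eval F ↔ f F := by
  classical
  obtain ⟨Ω, hΩ, p, φ, hp, hs, hT, he⟩ := h
  by_contra hcon
  push Not at hcon
  have h1 : ∀ ω, ∃ F : Set ι, ¬ ((φ ω).eval F ↔ f F) := by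
    intro ω
    obtain ⟨F, hF⟩ := hcon (φ ω) (hT ω)
    refine ⟨F, ?_⟩
    tauto
  have h2 : (1:ℝ) ≤ ∑ ω, p ω * ∑ F : Set ι, (if ((φ ω).eval F ↔ f F) then (0:ℝ) else 1) := by
    refine hs.symm.le.trans ?_
    apply Finset.sum_le_sum
    intro ω _
    obtain ⟨F, hF⟩ := h1 ω
    have h3 : (1:ℝ) ≤ ∑ F : Set ι, (if ((φ ω).eval F ↔ f F) then (0:ℝ) else 1) := by
      calc (1:ℝ) = (if ((φ ω).eval F ↔ f F) then (0:ℝ) else 1) := by rw [if_neg hF]
        _ ≤ _ := Finset.single_le_sum (f := fun F => (if ((φ ω).eval F ↔ f F) then (0:ℝ) else 1))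
          (fun i _ => by positivity) (Finset.mem_univ F)
    nlinarith [hp ω]
  have h4 : ∑ ω, p ω * ∑ F : Set ι, (if ((φ ω).eval F ↔ f F) then (0:ℝ) else 1) =
      ∑ F : Set ι, ∑ ω, p ω * (if ((φ ω).eval F ↔ f F) then (0:ℝ) else 1) := by
    rw [Finset.sum_comm]
    apply Finset.sum_congr rfl
    intro ω _
    rw [Finset.mul_sum]
  rw [h4] at h2
  have h5 : ∑ F : Set ι, ∑ ω, p ω * (if ((φ ω).eval F ↔ f F) then (0:ℝ) else 1) ≤
      ∑ F : Set ι, δ := Finset.sum_le_sum (fun F _ => by convert he F)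
  rw [Finset.sum_const, Finset.card_univ, Fintype.card_set, nsmul_eq_mul] at h5
  push_cast at h5
  linarith

end Pool.Agent.Lib.MP_0e79d0_lc
end

section

/-!
The lower bound for bounded-error randomized monotone formulas deciding the unsatisfiability of
`k`-CNF formulas.
-/

namespace Pool.Agent.Lib.MP_0e79d0_lc

open Finset

theorem det_main (a : ℕ) : ∃ M₀ : ℕ, ∀ M ≥ M₀, 1 ≤ M → ∀ (n k : ℕ) (m : ℝ),
    2 * M * 2 ^ a ≤ n → (3 * a + 13) * 2 ^ a ≤ k → m + 2 * M ≤ 2 * M * 2 ^ a →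
    ∀ ψ : MFormula (IsLocal (k := k) (n := n) m), (∀ F, ψ.eval F ↔ ¬ Satisfiable F) →
    2 ^ (2 * M * 2 ^ a) ≤ 2 ^ (6 * M) * ψ.size := by
  obtain ⟨M₀, hM₀⟩ := exists_perms a
  refine ⟨M₀, fun M hM hM1 n k m hn hk hm ψ hψ => ?_⟩
  obtain ⟨σ, hσ⟩ := hM₀ M hM hM1
  have hcard : Fintype.card (Fin (2 * M) × Fin (2 ^ a)) = 2 * M * 2 ^ a := by simp
  obtain ⟨e⟩ : Nonempty ((Fin (2 * M) × Fin (2 ^ a)) ↪ Fin n) := by
    rw [Function.Embedding.nonempty_iff_card_le, hcard, Fintype.card_fin]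
    exact hn
  have hfib : ∀ j : Fin (2 * M), #(univ.filter (fun i : Fin (2 * M) × Fin (2 ^ a) => i.1 = j)) =
      2 ^ a := by
    intro j
    have : (univ.filter (fun i : Fin (2 * M) × Fin (2 ^ a) => i.1 = j)) =
        {j} ×ˢ (univ : Finset (Fin (2 ^ a))) := by
      ext i
      simp only [mem_filter, mem_univ, true_and, mem_product, mem_singleton, and_true]
    rw [this, Finset.card_product]
    simp
  have hnb : ∀ j : Fin (2 * M), #(nbh (fun i : Fin (2 * M) × Fin (2 ^ a) => i.1)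
      (fun s i => (σ s i).1) j) ≤ k := by
    intro j
    refine le_trans ?_ hk
    have hsub : nbh (fun i : Fin (2 * M) × Fin (2 ^ a) => i.1) (fun s i => (σ s i).1) j ⊆
        (univ.filter (fun i : Fin (2 * M) × Fin (2 ^ a) => i.1 = j)) ∪
        (univ : Finset (Fin (3 * (a + 4)))).biUnion (fun s =>
          univ.filter (fun i : Fin (2 * M) × Fin (2 ^ a) => (σ s i).1 = j)) := by
      intro i hi
      simp only [nbh, mem_filter, mem_univ, true_and] at hi
      simp only [mem_union, mem_filter, mem_univ, true_and, mem_biUnion]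
      exact hi
    refine (Finset.card_le_card hsub).trans ((Finset.card_union_le _ _).trans ?_)
    have h2 : #((univ : Finset (Fin (3 * (a + 4)))).biUnion (fun s =>
          univ.filter (fun i : Fin (2 * M) × Fin (2 ^ a) => (σ s i).1 = j))) ≤
        (3 * (a + 4)) * 2 ^ a := by
      refine Finset.card_biUnion_le.trans ?_
      refine (Finset.sum_le_card_nsmul _ _ (2 ^ a) ?_).trans ?_
      · intro s _
        refine le_trans ?_ (hfib j).le
        apply Finset.card_le_card_of_injOn (fun i => σ s i)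
        · intro i hi
          simpa using hi
        · intro i _ i' _ h
          exact (σ s).injective h
      · simp
    rw [hfib j]
    calc 2 ^ a + _ ≤ 2 ^ a + (3 * (a + 4)) * 2 ^ a := Nat.add_le_add_left h2 _
      _ = _ := by ring
  have h := det_bound (fun i : Fin (2 * M) × Fin (2 ^ a) => i.1) (fun s i => (σ s i).1) e hnb
    M (M / 2) (2 * M) m (by rw [Fintype.card_fin]; omega)
    (fun S hS => by
      have h1 := (Finset.mem_filter.mp hS).2
      exact (hσ S (by omega) h1.1).le)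
    (fun J hJ => by
      -- the untouched blocks
      have hun : #(univ.filter (fun i : Fin (2 * M) × Fin (2 ^ a) =>
          i.1 ∉ J ∧ ∀ s, (σ s i).1 ∉ J)) < 2 * M := by
        by_cases hJM : #J ≤ M
        · refine lt_of_le_of_lt (Finset.card_le_card ?_) (hσ J (by omega) hJM)
          intro i hi
          rw [Finset.mem_filter] at hi ⊢
          exact ⟨hi.1, fun s => ⟨fun h => absurd h (hi.2.2 s), fun h => absurd h hi.2.1⟩⟩
        · have hc : #(Jᶜ) ≤ M := by
            rw [Finset.card_compl, Fintype.card_fin]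
            omega
          obtain ⟨S, hS, hSc⟩ := Finset.exists_superset_card_eq hc
            (by rw [Fintype.card_fin]; omega)
          refine lt_of_le_of_lt (Finset.card_le_card ?_) (hσ S (by omega) hSc.le)
          intro i hi
          rw [Finset.mem_filter] at hi ⊢
          refine ⟨hi.1, fun s => ⟨fun _ => hS (Finset.mem_compl.mpr hi.2.1), fun _ =>
            hS (Finset.mem_compl.mpr (hi.2.2 s))⟩⟩
      have hcompl : (J.biUnion (nbh (fun i : Fin (2 * M) × Fin (2 ^ a) => i.1)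
          (fun s i => (σ s i).1)))ᶜ ⊆ univ.filter (fun i : Fin (2 * M) × Fin (2 ^ a) =>
          i.1 ∉ J ∧ ∀ s, (σ s i).1 ∉ J) := by
        intro i hi
        rw [Finset.mem_compl, Finset.mem_biUnion] at hi
        push Not at hi
        rw [Finset.mem_filter]
        refine ⟨Finset.mem_univ _, fun h => ?_, fun s h => ?_⟩
        · exact hi _ h (by simp [nbh])
        · exact hi _ h (by
            rw [nbh, Finset.mem_filter]
            exact ⟨Finset.mem_univ _, Or.inr ⟨s, rfl⟩⟩)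
      have h3 := (Finset.card_le_card hcompl).trans_lt hun
      rw [Finset.card_compl, hcard] at h3
      have h4 : 2 * M * 2 ^ a < #(J.biUnion (nbh (fun i : Fin (2 * M) × Fin (2 ^ a) => i.1)
          (fun s i => (σ s i).1))) + 2 * M := by omega
      have h5 : ((2 * M * 2 ^ a : ℕ) : ℝ) < ((#(J.biUnion (nbh
          (fun i : Fin (2 * M) × Fin (2 ^ a) => i.1) (fun s i => (σ s i).1))) + 2 * M : ℕ) : ℝ) := by
        exact_mod_cast h4
      push_cast at h5
      linarith)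
    ψ hψ
  rw [hcard, Fintype.card_fin, ← pow_mul, ← pow_add] at h
  refine h.trans (le_of_eq ?_)
  congr 2
  ring

/-- The number of clauses of width at most `k`. -/
theorem card_KClause_le (k n : ℕ) : Fintype.card (KClause k n) ≤ (2 * n + 1) ^ k := by
  have h1 : Fintype.card (Fin k → Option (Fin n × Bool)) = (2 * n + 1) ^ k := by
    simp [mul_comm]
  rw [← h1]
  apply Fintype.card_le_of_injective (fun C : KClause k n => fun i : Fin k => C.1.toList[i.1]?)
  intro C D hCD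
  apply Subtype.ext
  have h2 : C.1.toList = D.1.toList := by
    apply List.ext_getElem?
    intro i
    by_cases hi : i < k
    · exact congrFun hCD ⟨i, hi⟩
    · rw [List.getElem?_eq_none, List.getElem?_eq_none]
      · rw [Finset.length_toList]
        have := D.2
        omega
      · rw [Finset.length_toList]
        have := C.2
        omega
  have h3 := congrArg List.toFinset h2
  simpa using h3

theorem amp_bound (a k : ℕ) (hk : (3 * a + 13) * 2 ^ a ≤ k) : ∃ n₀ : ℕ, ∀ n ≥ n₀,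
    ∀ (m : ℝ), m ≤ (1 - 4 / 2 ^ a : ℝ) * n → ∀ T : ℕ,
    Amp (IsLocal (k := k) (n := n) m) (fun F : Set (KClause k n) => ¬ Satisfiable F) (1 / 3) T →
    (2:ℝ) ^ ((1 - 4 / 2 ^ a : ℝ) * n) ≤ T := by
  obtain ⟨M₀, hM₀⟩ := det_main a
  -- growth
  have hgrow : ∃ n₁ : ℕ, ∀ n ≥ n₁, (2:ℝ) ^ (2 * 2 ^ a : ℝ) * (1000 * ((2 * n + 1 : ℝ) ^ (3 * k))) ≤
      (2:ℝ) ^ ((n : ℝ) / 2 ^ a) := by
    set r : ℝ := (2:ℝ) ^ ((1:ℝ) / 2 ^ a) with hr
    have hr1 : 1 < r := by
      rw [hr]
      exact Real.one_lt_rpow (by norm_num) (by positivity)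
    have h1 := tendsto_pow_const_div_const_pow_of_one_lt (3 * k) hr1
    set c : ℝ := (2:ℝ) ^ (2 * 2 ^ a : ℝ) * 1000 * 3 ^ (3 * k) with hc
    have hcpos : 0 < c := by positivity
    have h2 := h1.eventually (gt_mem_nhds (show (0:ℝ) < 1 / c by positivity))
    obtain ⟨n₁, hn₁⟩ := Filter.eventually_atTop.mp h2
    refine ⟨max n₁ 1, fun n hn => ?_⟩
    have h3 := hn₁ n ((le_max_left _ _).trans hn)
    have hn1 : (1:ℝ) ≤ n := by exact_mod_cast (le_max_right _ _).trans hn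
    have hrn : 0 < r ^ n := by positivity
    rw [div_lt_div_iff₀ hrn hcpos, one_mul] at h3
    have h4 : (2:ℝ) ^ ((n : ℝ) / 2 ^ a) = r ^ n := by
      rw [hr, ← Real.rpow_natCast ((2:ℝ) ^ ((1:ℝ) / 2 ^ a)) n, ← Real.rpow_mul (by norm_num)]
      congr 1
      ring
    rw [h4]
    have h5 : (2 * n + 1 : ℝ) ^ (3 * k) ≤ 3 ^ (3 * k) * (n:ℝ) ^ (3 * k) := by
      rw [← mul_pow]
      apply pow_le_pow_left₀ (by positivity)
      linarith
    calc (2:ℝ) ^ (2 * 2 ^ a : ℝ) * (1000 * ((2 * n + 1 : ℝ) ^ (3 * k))) ≤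
        (2:ℝ) ^ (2 * 2 ^ a : ℝ) * (1000 * (3 ^ (3 * k) * (n:ℝ) ^ (3 * k))) := by gcongr
      _ = (n:ℝ) ^ (3 * k) * c := by rw [hc]; ring
      _ ≤ r ^ n := h3.le
  obtain ⟨n₁, hn₁⟩ := hgrow
  refine ⟨max n₁ (max ((M₀ + 1) * (2 * 2 ^ a)) (2 ^ a * 2 ^ a)), fun n hn m₀ hm₀ T hT => ?_⟩
  set M := n / (2 * 2 ^ a) with hMdef
  have hLpos : 0 < 2 * 2 ^ a := by positivity
  have hM1 : M₀ + 1 ≤ M := by
    rw [hMdef, Nat.le_div_iff_mul_le hLpos]
    exact ((le_max_left _ _).trans (le_max_right _ _)).trans hn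
  have hMn : 2 * M * 2 ^ a ≤ n := by
    have := Nat.div_mul_le_self n (2 * 2 ^ a)
    rw [← hMdef] at this
    calc 2 * M * 2 ^ a = M * (2 * 2 ^ a) := by ring
      _ ≤ n := this
  have hMn' : n < 2 * M * 2 ^ a + 2 * 2 ^ a := by
    have := Nat.lt_div_mul_add (a := n) hLpos
    rw [← hMdef] at this
    calc n < M * (2 * 2 ^ a) + 2 * 2 ^ a := this
      _ = _ := by ring
  -- amplification
  set κ := Fintype.card (KClause k n) with hκ
  have hκpos : 0 < κ := Fintype.card_pos_iff.mpr ⟨⟨∅, by simp⟩⟩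
  obtain ⟨m, hm1, hm2⟩ : ∃ m : ℕ, κ ≤ 2 ^ m ∧ 2 ^ m ≤ 2 * κ := by
    refine ⟨Nat.log 2 κ + 1, (Nat.lt_pow_succ_log_self (by norm_num) κ).le, ?_⟩
    rw [pow_succ, mul_comm]
    exact Nat.mul_le_mul_left 2 (Nat.pow_log_le_self 2 (by omega))
  have hAmp := hT.iter m
  obtain ⟨ψ, hψsize, hψ⟩ := hAmp.det (by
    have h1 : (1 / 4 : ℝ) ^ (2 ^ m) ≤ (1 / 4) ^ κ :=
      pow_le_pow_of_le_one (by norm_num) (by norm_num) hm1
    have h2 : (2:ℝ) ^ κ * (1 / 4) ^ κ ≤ 1 := by
      rw [← mul_pow]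
      exact pow_le_one₀ (by norm_num) (by norm_num)
    have h3 : (0:ℝ) < 2 ^ κ := by positivity
    rw [← hκ]
    calc (2:ℝ) ^ κ * ((1 / 4 : ℝ) ^ (2 ^ m) / 3) ≤ 2 ^ κ * ((1 / 4 : ℝ) ^ κ / 3) := by gcongr
      _ = (2 ^ κ * (1 / 4 : ℝ) ^ κ) / 3 := by ring
      _ ≤ 1 / 3 := by gcongr
      _ < 1 := by norm_num)
  have hloc : m₀ + 2 * M ≤ 2 * M * 2 ^ a := by
    have h1 : (n : ℝ) < 2 * M * 2 ^ a + 2 * 2 ^ a := by exact_mod_cast hMn'
    have h2 : (2 * M * 2 ^ a : ℝ) ≤ n := by exact_mod_cast hMn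
    have h3 : ((2:ℝ) ^ a * 2 ^ a) ≤ n := by
      exact_mod_cast ((le_max_right _ _).trans (le_max_right _ _)).trans hn
    have hL0 : (0:ℝ) < 2 ^ a := by positivity
    have h4 : (2 * M : ℝ) ≤ n / 2 ^ a := by
      rw [le_div_iff₀ hL0]; exact h2
    have h5 : (2:ℝ) ^ a ≤ n / 2 ^ a := by
      rw [le_div_iff₀ hL0]; exact h3
    have h6 : (1 - 4 / 2 ^ a : ℝ) * n = n - 4 * (n / 2 ^ a) := by ring
    rw [h6] at hm₀
    linarith
  have hdet := hM₀ M (by omega) (by omega) n k m₀ hMn hk hloc ψ hψ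
  have h5m : 5 ^ (3 + m) ≤ 1000 * κ ^ 3 := by
    calc 5 ^ (3 + m) = 125 * 5 ^ m := by ring
      _ ≤ 125 * 8 ^ m := Nat.mul_le_mul_left _ (Nat.pow_le_pow_left (by norm_num) m)
      _ = 125 * (2 ^ m) ^ 3 := by rw [← pow_mul, mul_comm m 3, pow_mul]; norm_num
      _ ≤ 125 * (2 * κ) ^ 3 := Nat.mul_le_mul_left _ (Nat.pow_le_pow_left hm2 3)
      _ = 1000 * κ ^ 3 := by ring
  have hκ3 : κ ^ 3 ≤ (2 * n + 1) ^ (3 * k) := by
    calc κ ^ 3 ≤ ((2 * n + 1) ^ k) ^ 3 := Nat.pow_le_pow_left (card_KClause_le k n) 3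
      _ = _ := by rw [← pow_mul, mul_comm k 3]
  have hfin : 2 ^ (2 * M * 2 ^ a) ≤ 2 ^ (6 * M) * (1000 * (2 * n + 1) ^ (3 * k) * T) := by
    refine hdet.trans (Nat.mul_le_mul_left _ (hψsize.trans ?_))
    exact Nat.mul_le_mul_right _ (h5m.trans (Nat.mul_le_mul_left _ hκ3))
  have hfinR : (2:ℝ) ^ ((2 * M * 2 ^ a : ℕ) : ℝ) ≤
      (2:ℝ) ^ ((6 * M : ℕ) : ℝ) * (1000 * (2 * n + 1 : ℝ) ^ (3 * k) * T) := by
    rw [Real.rpow_natCast, Real.rpow_natCast]
    exact_mod_cast hfin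
  have hgr := hn₁ n ((le_max_left _ _).trans hn)
  -- conclude
  set L : ℝ := 2 ^ a with hL
  have hLR : 0 < L := by positivity
  have hLcast : ((2 ^ a : ℕ) : ℝ) = L := by rw [hL]; push_cast; rfl
  have e1 : (n : ℝ) - 2 * L ≤ ((2 * M * 2 ^ a : ℕ) : ℝ) := by
    have : (n : ℝ) < ((2 * M * 2 ^ a + 2 * 2 ^ a : ℕ) : ℝ) := by exact_mod_cast hMn'
    push_cast at this ⊢
    rw [hL]
    linarith
  have e2 : ((6 * M : ℕ) : ℝ) ≤ 3 * n / L := by
    rw [le_div_iff₀ hLR]
    have : ((2 * M * 2 ^ a : ℕ) : ℝ) ≤ n := by exact_mod_cast hMn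
    push_cast at this ⊢
    rw [hL]
    linarith
  have e3 : (2:ℝ) ^ ((1 - 4 / L) * n) * ((2:ℝ) ^ (3 * n / L) *
      ((2:ℝ) ^ (2 * L) * (1000 * (2 * n + 1 : ℝ) ^ (3 * k)))) ≤
      T * ((2:ℝ) ^ (3 * n / L) * ((2:ℝ) ^ (2 * L) * (1000 * (2 * n + 1 : ℝ) ^ (3 * k)))) := by
    calc (2:ℝ) ^ ((1 - 4 / L) * n) * ((2:ℝ) ^ (3 * n / L) *
      ((2:ℝ) ^ (2 * L) * (1000 * (2 * n + 1 : ℝ) ^ (3 * k)))) ≤
        (2:ℝ) ^ ((1 - 4 / L) * n) * ((2:ℝ) ^ (3 * n / L) * (2:ℝ) ^ ((n : ℝ) / L)) := by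
          gcongr
      _ = (2:ℝ) ^ ((n : ℝ) - 2 * L) * (2:ℝ) ^ (2 * L) := by
          rw [← Real.rpow_add (by norm_num), ← Real.rpow_add (by norm_num),
            ← Real.rpow_add (by norm_num)]
          congr 1
          field_simp
          ring
      _ ≤ (2:ℝ) ^ ((2 * M * 2 ^ a : ℕ) : ℝ) * (2:ℝ) ^ (2 * L) := by
          gcongr
          norm_num
      _ ≤ ((2:ℝ) ^ ((6 * M : ℕ) : ℝ) * (1000 * (2 * n + 1 : ℝ) ^ (3 * k) * T)) *
          (2:ℝ) ^ (2 * L) := by gcongr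
      _ ≤ ((2:ℝ) ^ (3 * n / L) * (1000 * (2 * n + 1 : ℝ) ^ (3 * k) * T)) *
          (2:ℝ) ^ (2 * L) := by
          gcongr
          norm_num
      _ = _ := by ring
  exact le_of_mul_le_mul_right e3 (by positivity)

/-- Finitely many monotone formulas have size at most `T`. -/
theorem finite_size_le {ι : Type} [Finite ι] {L : (Set ι → Prop) → Prop} (T : ℕ) :
    {ψ : MFormula L | ψ.size ≤ T}.Finite := by
  induction T with
  | zero =>
    have : {ψ : MFormula L | ψ.size ≤ 0} = ∅ := by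
      ext ψ
      have := ψ.one_le_size
      simp
      omega
    rw [this]
    exact Set.finite_empty
  | succ T ih =>
    apply Set.Finite.subset
      (s := (Set.range (fun c : {c : Set ι → Prop // L c} => MFormula.leaf c.1 c.2)) ∪
      (Set.image2 MFormula.and {ψ : MFormula L | ψ.size ≤ T} {ψ : MFormula L | ψ.size ≤ T} ∪
        Set.image2 MFormula.or {ψ : MFormula L | ψ.size ≤ T} {ψ : MFormula L | ψ.size ≤ T}))
    · apply Set.Finite.union
      · exact Set.finite_range _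
      · exact (ih.image2 _ ih).union (ih.image2 _ ih)
    · intro ψ hψ
      have hψ : ψ.size ≤ T + 1 := hψ
      cases ψ with
      | leaf c hc => left; exact ⟨⟨c, hc⟩, rfl⟩
      | and a b =>
        right; left
        have ha := a.one_le_size
        have hb := b.one_le_size
        simp only [MFormula.size] at hψ
        exact ⟨a, (show a.size ≤ T by omega), b, (show b.size ≤ T by omega), rfl⟩
      | or a b =>
        right; right
        have ha := a.one_le_size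
        have hb := b.one_le_size
        simp only [MFormula.size] at hψ
        exact ⟨a, (show a.size ≤ T by omega), b, (show b.size ≤ T by omega), rfl⟩

/-- A probability distribution on small formulas with error at most `1/3` gives `Amp`. -/
theorem amp_of_pmf {ι : Type} [Finite ι] {L : (Set ι → Prop) → Prop} (f : Set ι → Prop)
    (P : PMF (MFormula L)) (T : ℕ)
    (hT : ∀ ψ ∈ P.support, ψ.size ≤ T)
    (hP : ∀ F : Set ι, 2 / 3 ≤ P.toOuterMeasure {ψ | ψ.eval F ↔ f F}) : Amp L f (1 / 3) T := by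
  classical
  have hfin := finite_size_le (L := L) T
  set s : Finset (MFormula L) := hfin.toFinset with hs
  have hsupp : P.support ⊆ ↑s := by
    intro ψ hψ
    simp only [hs, Set.Finite.coe_toFinset]
    exact hT ψ hψ
  have hone : ∑ x ∈ s, P x = 1 := by
    rw [← PMF.toOuterMeasure_apply_finset, PMF.toOuterMeasure_apply_eq_one_iff]
    exact hsupp
  have hfinP : ∀ x, P x ≠ ⊤ := fun x => PMF.apply_ne_top P x
  refine ⟨{x // x ∈ s}, inferInstance, fun ω => (P ω.1).toReal, fun ω => ω.1, ?_, ?_, ?_, ?_⟩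
  · intro ω
    exact ENNReal.toReal_nonneg
  · rw [Finset.sum_coe_sort s (fun x => (P x).toReal), ← ENNReal.toReal_sum (fun x _ => hfinP x),
      hone, ENNReal.toReal_one]
  · intro ω
    have := ω.2
    simp only [hs, Set.Finite.mem_toFinset] at this
    exact this
  · intro F
    rw [Finset.sum_coe_sort s
      (fun x => (P x).toReal * (if (x.eval F ↔ f F) then (0:ℝ) else 1))]
    have h1 : ∑ x ∈ s, (P x).toReal * (if (x.eval F ↔ f F) then (0:ℝ) else 1) =
        ∑ x ∈ s.filter (fun x => ¬ (x.eval F ↔ f F)), (P x).toReal := by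
      rw [Finset.sum_filter]
      apply Finset.sum_congr rfl
      intro x _
      by_cases h : (x.eval F ↔ f F)
      · simp [h]
      · simp [h]
    have h2 : ∑ x ∈ s, (P x).toReal = 1 := by
      rw [← ENNReal.toReal_sum (fun x _ => hfinP x), hone, ENNReal.toReal_one]
    have h3 : ∑ x ∈ s.filter (fun x => (x.eval F ↔ f F)), (P x).toReal +
        ∑ x ∈ s.filter (fun x => ¬ (x.eval F ↔ f F)), (P x).toReal = 1 := by
      rw [Finset.sum_filter_add_sum_filter_not, h2]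
    have h4 : (2 / 3 : ℝ) ≤ ∑ x ∈ s.filter (fun x => (x.eval F ↔ f F)), (P x).toReal := by
      rw [← ENNReal.toReal_sum (fun x _ => hfinP x), ← PMF.toOuterMeasure_apply_finset]
      have h5 : P.toOuterMeasure {ψ | ψ.eval F ↔ f F} ≤
          P.toOuterMeasure ↑(s.filter (fun x => (x.eval F ↔ f F))) := by
        apply PMF.toOuterMeasure_mono
        intro x hx
        rw [Finset.mem_coe, Finset.mem_filter]
        exact ⟨hsupp hx.2, hx.1⟩
      have h6 := (hP F).trans h5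
      have h7 : P.toOuterMeasure ↑(s.filter (fun x => (x.eval F ↔ f F))) ≠ ⊤ := by
        rw [PMF.toOuterMeasure_apply_finset]
        exact (ENNReal.sum_lt_top.mpr (fun x _ => (hfinP x).lt_top)).ne
      have h8 := ENNReal.toReal_mono h7 h6
      simpa using h8
    rw [h1]
    linarith

/-- Final form. -/
theorem main (k : ℕ) (hk : 1 ≤ k) : ∃ n₀ : ℕ, ∀ n ≥ n₀,
    ∀ P : PMF (MFormula (IsLocal (k := k) (n := n) ((1 - 8 * (3 * Real.logb 2 k + 16) / k) * n))),
    (∀ F : Set (KClause k n), 2 / 3 ≤ P.toOuterMeasure {ψ | ψ.eval F ↔ ¬ Satisfiable F}) →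
    ∃ ψ ∈ P.support, (2:ℝ) ^ ((1 - 8 * (3 * Real.logb 2 k + 16) / k) * n) ≤ ψ.size := by
  have hk0 : (0:ℝ) < k := by exact_mod_cast hk
  have hlog : 0 ≤ Real.logb 2 k := Real.logb_nonneg (by norm_num) (by exact_mod_cast hk)
  by_cases hk5 : k < 13
  · refine ⟨0, fun n _ P _ => ?_⟩
    obtain ⟨ψ, hψ⟩ := P.support_nonempty
    refine ⟨ψ, hψ, ?_⟩
    have h1 : (1:ℝ) ≤ ψ.size := by exact_mod_cast ψ.one_le_size
    refine le_trans ?_ h1
    apply Real.rpow_le_one_of_one_le_of_nonpos (by norm_num)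
    apply mul_nonpos_of_nonpos_of_nonneg _ (by positivity)
    have h2 : (k:ℝ) < 13 := by exact_mod_cast hk5
    rw [sub_nonpos, le_div_iff₀ hk0]
    linarith
  · push Not at hk5
    -- the largest `a` with `(3 a + 13) * 2 ^ a ≤ k`
    obtain ⟨a, ha, ha'⟩ : ∃ a : ℕ, (3 * a + 13) * 2 ^ a ≤ k ∧
        k < (3 * (a + 1) + 13) * 2 ^ (a + 1) := by
      have hex : ∃ a : ℕ, k < (3 * a + 13) * 2 ^ a := by
        refine ⟨k, ?_⟩
        have := Nat.lt_two_pow_self (n := k)
        nlinarith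
      classical
      have hspec := Nat.find_spec hex
      have hmin := @Nat.find_min _ _ hex
      have hne : Nat.find hex ≠ 0 := by
        intro h
        rw [h] at hspec
        simp at hspec
        omega
      obtain ⟨b, hb⟩ := Nat.exists_eq_succ_of_ne_zero hne
      refine ⟨b, ?_, ?_⟩
      · have := hmin (m := b) (by omega)
        omega
      · rw [hb] at hspec
        exact hspec
    have h7 : (4:ℝ) / 2 ^ a ≤ 8 * (3 * Real.logb 2 k + 16) / k := by
      rw [div_le_div_iff₀ (by positivity) hk0]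
      have h8 : (k:ℝ) < (3 * a + 16) * 2 ^ (a + 1) := by
        have : (k:ℝ) < (((3 * (a + 1) + 13) * 2 ^ (a + 1) : ℕ) : ℝ) := by exact_mod_cast ha'
        push_cast at this
        linarith
      have h9 : (a:ℝ) ≤ Real.logb 2 k := by
        rw [Real.le_logb_iff_rpow_le (by norm_num) hk0, Real.rpow_natCast]
        have : 2 ^ a ≤ k := le_trans (by nlinarith [Nat.two_pow_pos a]) ha
        exact_mod_cast this
      have h10 : (0:ℝ) < 2 ^ a := by positivity
      rw [pow_succ] at h8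
      nlinarith
    obtain ⟨n₀, hn₀⟩ := amp_bound a k ha
    refine ⟨n₀, fun n hn P hP => ?_⟩
    have hmono : (1 - 8 * (3 * Real.logb 2 k + 16) / k) * n ≤ (1 - 4 / 2 ^ a : ℝ) * n := by
      apply mul_le_mul_of_nonneg_right _ (by positivity)
      linarith
    by_contra hcon
    push Not at hcon
    set B : ℝ := (2:ℝ) ^ ((1 - 8 * (3 * Real.logb 2 k + 16) / k) * n) with hB
    have hBpos : 0 < B := by positivity
    have hA := amp_of_pmf (fun F : Set (KClause k n) => ¬ Satisfiable F) P (⌈B⌉₊ - 1)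
      (fun ψ hψ => by
        have h1 := Nat.lt_ceil.mpr (hcon ψ hψ)
        omega) hP
    have h2 := hn₀ n hn _ hmono _ hA
    have h3 : ((⌈B⌉₊ - 1 : ℕ) : ℝ) < B := by
      have h4 := Nat.ceil_lt_add_one hBpos.le
      have h5 : 1 ≤ ⌈B⌉₊ := Nat.one_le_ceil_iff.mpr hBpos
      rw [Nat.cast_sub h5]
      push_cast
      linarith
    have h6 : B ≤ (2:ℝ) ^ ((1 - 4 / 2 ^ a : ℝ) * n) := by
      rw [hB]
      exact Real.rpow_le_rpow_of_exponent_le (by norm_num) hmono
    linarith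

end Pool.Agent.Lib.MP_0e79d0_lc
end
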