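import Mathlib
import Pool.Agent.Lib.MP_0e79d0_lc.Defs
import Pool.Agent.Lib.MP_0e79d0_lc.Expander

section

section

/-!
Subcubes of the Boolean cube and their local refutations.
-/

namespace Pool.Agent.Lib.MP_0e79d0_lc

/-- The subcube of the partial assignment `β`: the total assignments that extend `β`. -/
def cube {n : ℕ} (β : Fin n → Option Bool) : Finset (Fin n → Bool) :=
  Finset.univ.filter (fun α => ∀ i b, β i = some b → α i = b)

/-- The subcube of `β` is refuted by the clauses of `F` on at most `m` variables: some `T ⊆ F` in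
which at most `m` variables occur is falsified by every assignment of the subcube. -/
def LocallyRefuted {k n : ℕ} (m : ℝ) (F : Set (KClause k n)) (β : Fin n → Option Bool) : Prop :=
  ∃ T : Set (KClause k n), T ⊆ F ∧ ((vars T).ncard : ℝ) ≤ m ∧
    ∀ α ∈ cube β, ∃ C ∈ T, ¬ SatisfiesClause α C

end Pool.Agent.Lib.MP_0e79d0_lc
end

section

/-!
The moment method for parity systems with random local labels.
-/

namespace Pool.Agent.Lib.MP_0e79d0_lc

open Finset

section Columns

/-- The number of Boolean functions invariant under a fixed-point-free map. -/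
theorem card_invariant_le {m : ℕ} (π : Fin m → Fin m) (hπ : ∀ q, π q ≠ q) (p : ℕ)
    (hp : m ≤ 2 * p) :
    #(univ.filter (fun c : Fin m → Bool => ∀ q, c (π q) = c q)) ≤ 2 ^ p := by
  classical
  let r : Fin m → Fin m → Prop := fun x y => y = π x
  let _ : Fintype (Quot r) := Fintype.ofFinite _
  have h1 : Fintype.card (Quot r → Bool) = 2 ^ Fintype.card (Quot r) := by
    rw [Fintype.card_fun, Fintype.card_bool]
  have h2 : 2 * Fintype.card (Quot r) ≤ m := by
    have h3 := Finset.card_eq_sum_card_fiberwise (s := (univ : Finset (Fin m)))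
      (f := Quot.mk r) (t := (univ : Finset (Quot r))) (fun x _ => by simp)
    have h4 : ∀ y ∈ (univ : Finset (Quot r)), 2 ≤ #(univ.filter (fun x => Quot.mk r x = y)) := by
      intro y _
      obtain ⟨x, rfl⟩ := Quot.exists_rep y
      have h5 : ({x, π x} : Finset (Fin m)) ⊆ univ.filter (fun x' => Quot.mk r x' = Quot.mk r x) := by
        intro w hw
        rw [Finset.mem_insert, Finset.mem_singleton] at hw
        rw [Finset.mem_filter]
        refine ⟨Finset.mem_univ _, ?_⟩
        rcases hw with rfl | rfl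
        · rfl
        · exact (Quot.sound (show r x (π x) from rfl)).symm
      have h6 := Finset.card_le_card h5
      rwa [Finset.card_pair (hπ x).symm] at h6
    have h5 := Finset.card_nsmul_le_sum _ _ 2 h4
    rw [← h3, Finset.card_univ, Finset.card_univ, Fintype.card_fin, smul_eq_mul] at h5
    omega
  calc #(univ.filter (fun c : Fin m → Bool => ∀ q, c (π q) = c q)) ≤
      Fintype.card (Quot r → Bool) := by
        rw [← Finset.card_univ]
        apply Finset.card_le_card_of_injOn
          (fun c => if h : ∀ q, c (π q) = c q then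
            Quot.lift c (fun x y (hxy : y = π x) => by rw [hxy]; exact (h x).symm)
            else fun _ => false)
        · intro c _
          simp
        · intro c hc c' hc' h
          rw [Finset.mem_coe, Finset.mem_filter] at hc hc'
          simp only [dif_pos hc.2, dif_pos hc'.2] at h
          funext q
          exact congrFun h (Quot.mk r q)
    _ = 2 ^ Fintype.card (Quot r) := h1
    _ ≤ 2 ^ p := Nat.pow_le_pow_right (by norm_num) (by omega)

end Columns

section Labels

variable {V E : Type} [Fintype V] [DecidableEq V] [Fintype E] [DecidableEq E] {t n : ℕ}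
  (root : E → V) (leaf : Fin t → E → V) (U : E → Finset (Fin n))

/-- The labels: `t` functions for each hyperedge. -/
abbrev Lab (E : Type) (t n : ℕ) : Type := E → Fin t → (Fin n → Bool) → ZMod 2

/-- Forget the bits outside `W`. -/
def proj (W : Finset (Fin n)) (α : Fin n → Bool) : Fin n → Bool :=
  fun i => if i ∈ W then α i else false

theorem proj_apply_of_mem {W : Finset (Fin n)} {α β : Fin n → Bool}
    (h : proj W α = proj W β) {i : Fin n} (hi : i ∈ W) : α i = β i := by
  have := congrFun h i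
  simpa only [proj, if_pos hi] using this

/-- The defect of the equation at `j`. -/
def yy (h : Lab E t n) (b : V → ZMod 2) (α : Fin n → Bool) (j : V) : ZMod 2 :=
  b j + ∑ e, ∑ s, h e s (proj (U e) α) * inc root leaf e s j

omit [DecidableEq E] in
theorem sum_yy (h : Lab E t n) (b : V → ZMod 2) (α : Fin n → Bool) :
    ∑ j, yy root leaf U h b α j = ∑ j, b j := by
  have h2 : (1 : ZMod 2) + 1 = 0 := by decide
  simp only [yy, Finset.sum_add_distrib]
  rw [Finset.sum_comm]
  have : ∀ e : E, ∑ j, ∑ s, h e s (proj (U e) α) * inc root leaf e s j = 0 := by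
    intro e
    rw [Finset.sum_comm]
    apply Finset.sum_eq_zero
    intro s _
    rw [← Finset.mul_sum, sum_inc]
    simp [h2]
  simp [this]

omit [Fintype V] [DecidableEq E] in
theorem chr_yy (h : Lab E t n) (b : V → ZMod 2) (α : Fin n → Bool) (S : Finset V) :
    chr (yy root leaf U h b α) S = sgn (∑ j ∈ S, b j) * chr (yy root leaf U h 0 α) S := by
  simp only [chr, yy]
  rw [← sgn_add]
  congr 1
  simp [Finset.sum_add_distrib]

omit [Fintype V] in
/-- A pattern that occurs only once makes the average of the product of characters vanish. -/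
theorem sum_prod_chr_eq_zero (S : Finset V) (e : E)
    (he : ¬ ∀ s, (leaf s e ∈ S ↔ root e ∈ S)) {m : ℕ} (a : Fin m → Fin n → Bool) (q : Fin m)
    (hq : ∀ q' ≠ q, proj (U e) (a q') ≠ proj (U e) (a q)) :
    ∑ h : Lab E t n, ∏ q', chr (yy root leaf U h 0 (a q')) S = 0 := by
  push Not at he
  obtain ⟨s, hs⟩ := he
  have hinc : ∑ j ∈ S, inc root leaf e s j = 1 := by
    rw [sum_inc]
    rcases hs with ⟨h1, h2⟩ | ⟨h1, h2⟩ <;> simp [h1, h2]
  set y := proj (U e) (a q) with hy
  let δ : Lab E t n := Pi.single e (Pi.single s (Pi.single y 1))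
  have hδ : ∀ e' s' y', δ e' s' y' = if e' = e ∧ s' = s ∧ y' = y then 1 else 0 := by
    intro e' s' y'
    by_cases h1 : e' = e
    · subst h1
      by_cases h2 : s' = s
      · subst h2
        by_cases h3 : y' = y
        · subst h3; simp [δ]
        · simp [δ, h3]
      · simp [δ, h2]
    · simp [δ, h1]
  have hz : ∀ (h : Lab E t n) (α : Fin n → Bool) (j : V),
      yy root leaf U (h + δ) 0 α j = yy root leaf U h 0 α j +
        (if proj (U e) α = y then 1 else 0) * inc root leaf e s j := by
    intro h α j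
    have h1 : ∑ e', ∑ s', δ e' s' (proj (U e') α) * inc root leaf e' s' j =
        (if proj (U e) α = y then 1 else 0) * inc root leaf e s j := by
      rw [Finset.sum_eq_single e]
      · rw [Finset.sum_eq_single s]
        · rw [hδ]; simp
        · intro s' _ hne
          rw [hδ]; simp [hne]
        · simp
      · intro e' _ hne
        apply Finset.sum_eq_zero
        intro s' _
        rw [hδ]; simp [hne]
      · simp
    rw [← h1]
    simp only [yy, Pi.add_apply, Pi.zero_apply, zero_add, add_mul, Finset.sum_add_distrib]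
  have hchi : ∀ (h : Lab E t n) (α : Fin n → Bool),
      chr (yy root leaf U (h + δ) 0 α) S =
        chr (yy root leaf U h 0 α) S * sgn (if proj (U e) α = y then 1 else 0) := by
    intro h α
    simp only [chr]
    rw [← sgn_add]
    congr 1
    simp only [hz]
    rw [Finset.sum_add_distrib, ← Finset.mul_sum, hinc, mul_one]
  have hprod : ∏ q', sgn (if proj (U e) (a q') = y then 1 else 0) = -1 := by
    rw [Finset.prod_eq_single q]
    · simp [hy, sgn]
    · intro q' _ hne
      rw [if_neg (hq q' hne), sgn_zero]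
    · simp
  have h3 : ∑ h : Lab E t n, ∏ q', chr (yy root leaf U h 0 (a q')) S =
      ∑ h : Lab E t n, ∏ q', chr (yy root leaf U (h + δ) 0 (a q')) S :=
    (Equiv.sum_comp (Equiv.addRight δ)
      (fun h => ∏ q', chr (yy root leaf U h 0 (a q')) S)).symm
  have h4 : ∀ h : Lab E t n, ∏ q', chr (yy root leaf U (h + δ) 0 (a q')) S =
      - ∏ q', chr (yy root leaf U h 0 (a q')) S := by
    intro h
    simp only [hchi]
    rw [Finset.prod_mul_distrib, hprod]
    ring
  simp only [h4, Finset.sum_neg_distrib] at h3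
  linarith

/-- The free variables of a partial assignment. -/
def free (β : Fin n → Option Bool) : Finset (Fin n) := univ.filter (fun i => β i = none)

/-- The bits that occur in no hyperedge cut by `S`. -/
def uncov (S : Finset V) : Finset (Fin n) :=
  univ.filter (fun i => ∀ e, (¬ ∀ s, (leaf s e ∈ S ↔ root e ∈ S)) → i ∉ U e)

/-- The tuples in which every pattern on every cut hyperedge occurs at least twice. -/
def goodTuples (S : Finset V) (β : Fin n → Option Bool) (m : ℕ) :
    Finset (Fin m → Fin n → Bool) :=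
  (Fintype.piFinset (fun _ : Fin m => cube β)).filter
    (fun a => ∀ e, (¬ ∀ s, (leaf s e ∈ S ↔ root e ∈ S)) →
      ∀ q, ∃ q', q' ≠ q ∧ proj (U e) (a q') = proj (U e) (a q))

omit [Fintype V] in
theorem card_goodTuples_le (S : Finset V) (β : Fin n → Option Bool) (p : ℕ) (hp : 1 ≤ p) :
    #(goodTuples root leaf U S β (2 * p)) ≤
      ((2 * p) ^ (2 * p)) ^ Fintype.card E * (2 ^ (p * #(free β)) *
        2 ^ (p * #(uncov root leaf U S))) := by
  classical
  -- tuples compatible with a choice of partners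
  let 𝒜 : (E → Fin (2 * p) → Fin (2 * p)) → Finset (Fin (2 * p) → Fin n → Bool) := fun π =>
    (Fintype.piFinset (fun _ : Fin (2 * p) => cube β)).filter
      (fun a => ∀ e q, π e q ≠ q ∧ ((¬ ∀ s, (leaf s e ∈ S ↔ root e ∈ S)) →
        proj (U e) (a (π e q)) = proj (U e) (a q)))
  have hcover : goodTuples root leaf U S β (2 * p) ⊆ univ.biUnion 𝒜 := by
    intro a ha
    rw [goodTuples, Finset.mem_filter] at ha
    rw [Finset.mem_biUnion]
    have hex : ∀ e q, ∃ q', q' ≠ q ∧ ((¬ ∀ s, (leaf s e ∈ S ↔ root e ∈ S)) →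
        proj (U e) (a q') = proj (U e) (a q)) := by
      intro e q
      by_cases hcut : ∀ s, (leaf s e ∈ S ↔ root e ∈ S)
      · have hnt : Nontrivial (Fin (2 * p)) := Fin.nontrivial_iff_two_le.mpr (by omega)
        obtain ⟨q', hq'⟩ := exists_ne q
        exact ⟨q', hq', fun h => absurd hcut h⟩
      · obtain ⟨q', hq', h⟩ := ha.2 e hcut q
        exact ⟨q', hq', fun _ => h⟩
    choose π hπ using hex
    exact ⟨π, Finset.mem_univ _, Finset.mem_filter.mpr ⟨ha.1, hπ⟩⟩
  have hone : ∀ π, #(𝒜 π) ≤ 2 ^ (p * #(free β)) * 2 ^ (p * #(uncov root leaf U S)) := by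
    intro π
    by_cases hfix : ∀ e q, π e q ≠ q
    · -- the columns
      let C : Fin n → Finset (Fin (2 * p) → Bool) := fun i =>
        univ.filter (fun c => (∀ b, β i = some b → ∀ q, c q = b) ∧
          ∀ e, (¬ ∀ s, (leaf s e ∈ S ↔ root e ∈ S)) → i ∈ U e → ∀ q, c (π e q) = c q)
      have hC : ∀ i, #(C i) ≤ (if i ∈ free β then 2 ^ p else 1) *
          (if i ∈ uncov root leaf U S then 2 ^ p else 1) := by
        intro i
        by_cases hi : i ∈ free β
        · rw [if_pos hi]
          by_cases hu : i ∈ uncov root leaf U S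
          · rw [if_pos hu]
            refine (Finset.card_filter_le _ _).trans ?_
            rw [Finset.card_univ, Fintype.card_fun, Fintype.card_bool, Fintype.card_fin,
              ← pow_add]
            apply Nat.pow_le_pow_right (by norm_num)
            omega
          · rw [if_neg hu, mul_one]
            rw [uncov, Finset.mem_filter] at hu
            push Not at hu
            obtain ⟨e, hecut, hie⟩ := hu (Finset.mem_univ _)
            refine le_trans (Finset.card_le_card ?_)
              (card_invariant_le (π e) (hfix e) p le_rfl)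
            intro c hc
            rw [Finset.mem_filter] at hc ⊢
            refine ⟨hc.1, hc.2.2 e ?_ hie⟩
            push Not
            exact hecut
        · rw [if_neg hi, one_mul]
          have hval : ∃ b, β i = some b := by
            rw [free, Finset.mem_filter] at hi
            push Not at hi
            have h1 := hi (Finset.mem_univ _)
            exact Option.ne_none_iff_exists'.mp h1
          obtain ⟨b, hb⟩ := hval
          have h1 : #(C i) ≤ 1 := by
            rw [Finset.card_le_one]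
            intro c hc c' hc'
            rw [Finset.mem_filter] at hc hc'
            funext q
            rw [hc.2.1 b hb q, hc'.2.1 b hb q]
          refine h1.trans ?_
          split_ifs
          · exact Nat.one_le_two_pow
          · exact le_rfl
      have h1 : #(𝒜 π) ≤ #(Fintype.piFinset C) := by
        apply Finset.card_le_card_of_injOn (fun a i q => a q i)
        · intro a ha
          rw [Finset.mem_coe, Finset.mem_filter, Fintype.mem_piFinset] at ha
          rw [Finset.mem_coe, Fintype.mem_piFinset]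
          intro i
          rw [Finset.mem_filter]
          refine ⟨Finset.mem_univ _, fun b hb q => ?_, fun e hecut hie q => ?_⟩
          · have h2 := ha.1 q
            rw [cube, Finset.mem_filter] at h2
            exact h2.2 i b hb
          · exact proj_apply_of_mem ((ha.2 e q).2 hecut) hie
        · intro a _ a' _ h
          funext q i
          exact congrFun (congrFun h i) q
      refine h1.trans ?_
      rw [Fintype.card_piFinset]
      refine (Finset.prod_le_prod' (fun i _ => hC i)).trans ?_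
      rw [Finset.prod_mul_distrib, Finset.prod_ite_mem, Finset.prod_ite_mem, Finset.univ_inter,
        Finset.univ_inter, Finset.prod_const, Finset.prod_const, ← pow_mul, ← pow_mul]
    · have h1 : 𝒜 π = ∅ := by
        rw [Finset.filter_eq_empty_iff]
        intro a _ h
        exact hfix (fun e q => (h e q).1)
      rw [h1, Finset.card_empty]
      positivity
  refine (Finset.card_le_card hcover).trans (Finset.card_biUnion_le.trans ?_)
  refine (Finset.sum_le_card_nsmul _ _ _ (fun π _ => hone π)).trans ?_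
  rw [smul_eq_mul, Finset.card_univ, Fintype.card_fun, Fintype.card_fun, Fintype.card_fin]

omit [Fintype V] in
/-- The moment bound. -/
theorem moment (S : Finset V) (β : Fin n → Option Bool) (p : ℕ) (hp : 1 ≤ p) :
    ∑ h : Lab E t n, (∑ α ∈ cube β, chr (yy root leaf U h 0 α) S) ^ (2 * p) ≤
      Fintype.card (Lab E t n) * ((((2 * p : ℕ) : ℝ) ^ (2 * p)) ^ Fintype.card E *
        (2 ^ (p * #(free β)) * 2 ^ (p * #(uncov root leaf U S)))) := by
  classical
  have h1 : ∀ h : Lab E t n, (∑ α ∈ cube β, chr (yy root leaf U h 0 α) S) ^ (2 * p) =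
      ∑ a ∈ Fintype.piFinset (fun _ : Fin (2 * p) => cube β),
        ∏ q, chr (yy root leaf U h 0 (a q)) S := by
    intro h
    have h0 := Finset.prod_univ_sum (fun _ : Fin (2 * p) => cube β)
      (fun _ α => chr (yy root leaf U h 0 α) S)
    rw [← h0]
    simp
  simp only [h1]
  rw [Finset.sum_comm]
  have h2 : ∀ a ∈ Fintype.piFinset (fun _ : Fin (2 * p) => cube β),
      ∑ h : Lab E t n, ∏ q, chr (yy root leaf U h 0 (a q)) S ≤
        if a ∈ goodTuples root leaf U S β (2 * p) then (Fintype.card (Lab E t n) : ℝ) else 0 := by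
    intro a ha
    split_ifs with hgood
    · calc ∑ h : Lab E t n, ∏ q, chr (yy root leaf U h 0 (a q)) S ≤
          ∑ h : Lab E t n, (1:ℝ) := by
            apply Finset.sum_le_sum
            intro h _
            refine (le_abs_self _).trans ?_
            rw [Finset.abs_prod]
            apply Finset.prod_le_one (fun _ _ => abs_nonneg _)
            intro q _
            simp only [chr, sgn]
            split_ifs <;> simp
        _ = _ := by simp
    · rw [goodTuples, Finset.mem_filter] at hgood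
      push Not at hgood
      obtain ⟨e, hecut, q, hq⟩ := hgood ha
      refine le_of_eq (sum_prod_chr_eq_zero root leaf U S e ?_ a q hq)
      push Not
      exact hecut
  refine (Finset.sum_le_sum h2).trans ?_
  rw [← Finset.sum_filter, Finset.sum_const, nsmul_eq_mul, mul_comm]
  apply mul_le_mul_of_nonneg_left _ (by positivity)
  have h3 : #((Fintype.piFinset (fun _ : Fin (2 * p) => cube β)).filter
      (fun a => a ∈ goodTuples root leaf U S β (2 * p))) ≤
      #(goodTuples root leaf U S β (2 * p)) := by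
    apply Finset.card_le_card
    intro a ha
    exact (Finset.mem_filter.mp ha).2
  have h4 := h3.trans (card_goodTuples_le root leaf U S β p hp)
  exact_mod_cast h4

end Labels

end Pool.Agent.Lib.MP_0e79d0_lc
end

section

/-!
The lower bound for weighted partitions of the Boolean cube into subcubes refuting a parity system
with random local labels.
-/

namespace Pool.Agent.Lib.MP_0e79d0_lc

open Finset

theorem card_cube {n : ℕ} (β : Fin n → Option Bool) : #(cube β) = 2 ^ #(free β) := by
  have h1 : cube β = Fintype.piFinset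
      (fun i => univ.filter (fun c : Bool => ∀ b, β i = some b → c = b)) := by
    ext α
    simp [cube, Fintype.mem_piFinset]
  rw [h1, Fintype.card_piFinset]
  have h2 : ∀ i, #(univ.filter (fun c : Bool => ∀ b, β i = some b → c = b)) =
      if i ∈ free β then 2 else 1 := by
    intro i
    rcases hb : β i with _ | b
    · have h3 : i ∈ free β := by simp [free, hb]
      rw [if_pos h3]
      simp
    · have h3 : i ∉ free β := by simp [free, hb]
      rw [if_neg h3]
      have h4 : (univ.filter (fun c : Bool => ∀ b', some b = some b' → c = b')) = {b} := by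
        ext c
        simp
      rw [h4, Finset.card_singleton]
  rw [Finset.prod_congr rfl (fun i _ => h2 i), Finset.prod_ite_mem, Finset.univ_inter,
    Finset.prod_const]

section OddShift

variable {V : Type} [Fintype V] [DecidableEq V]

theorem sum_odd_sgn_eq_zero (S : Finset V) (hS : S.Nonempty) (hS' : #S < Fintype.card V) :
    ∑ b : {b : V → ZMod 2 // ∑ j, b j = 1}, sgn (∑ j ∈ S, b.1 j) = 0 := by
  obtain ⟨j, hj⟩ := hS
  have : ∃ j' : V, j' ∉ S := by
    by_contra h
    push Not at h
    have : S = univ := Finset.eq_univ_iff_forall.mpr h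
    rw [this, Finset.card_univ] at hS'
    exact lt_irrefl _ hS'
  obtain ⟨j', hj'⟩ := this
  have h2 : (1 : ZMod 2) + 1 = 0 := by decide
  let d : V → ZMod 2 := fun v => (if v = j then 1 else 0) + (if v = j' then 1 else 0)
  have hd : ∑ v, d v = 0 := by
    simp [d, Finset.sum_add_distrib, h2]
  have hdS : ∑ v ∈ S, d v = 1 := by
    simp [d, Finset.sum_add_distrib, hj, hj']
  have hdd : ∀ v, d v + d v = 0 := fun v => by
    rcases zmod2_cases (d v) with h | h <;> rw [h] <;> decide
  let e : {b : V → ZMod 2 // ∑ j, b j = 1} ≃ {b : V → ZMod 2 // ∑ j, b j = 1} :=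
    { toFun := fun g => ⟨fun v => g.1 v + d v, by
        rw [Finset.sum_add_distrib, g.2, hd, add_zero]⟩
      invFun := fun g => ⟨fun v => g.1 v + d v, by
        rw [Finset.sum_add_distrib, g.2, hd, add_zero]⟩
      left_inv := fun g => by
        apply Subtype.ext
        funext v
        simp only [add_assoc, hdd, add_zero]
      right_inv := fun g => by
        apply Subtype.ext
        funext v
        simp only [add_assoc, hdd, add_zero] }
  have hneg : ∀ g : {b : V → ZMod 2 // ∑ j, b j = 1},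
      sgn (∑ j ∈ S, (e g).1 j) = - sgn (∑ j ∈ S, g.1 j) := by
    intro g
    have h5 : ∑ v ∈ S, (e g).1 v = ∑ v ∈ S, g.1 v + 1 := by
      calc ∑ v ∈ S, (e g).1 v = ∑ v ∈ S, (g.1 v + d v) := rfl
        _ = ∑ v ∈ S, g.1 v + ∑ v ∈ S, d v := Finset.sum_add_distrib
        _ = _ := by rw [hdS]
    rw [h5, sgn_add, sgn_one]
    ring
  have h3 : ∑ b : {b : V → ZMod 2 // ∑ j, b j = 1}, sgn (∑ j ∈ S, b.1 j) =
      ∑ b : {b : V → ZMod 2 // ∑ j, b j = 1}, sgn (∑ j ∈ S, (e b).1 j) :=
    (Equiv.sum_comp e (fun b => sgn (∑ j ∈ S, b.1 j))).symm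
  simp only [hneg, Finset.sum_neg_distrib] at h3
  linarith

end OddShift

section Labels

variable {V E : Type} [Fintype V] [DecidableEq V] [Fintype E] [DecidableEq E] {t n : ℕ}
  (root : E → V) (leaf : Fin t → E → V) (U : E → Finset (Fin n))

/-- A choice of labels with small character sums on all subcubes. -/
theorem exists_labels (𝒮 : Finset (Finset V)) (p u : ℕ) (hp : 1 ≤ p)
    (hu : ∀ S ∈ 𝒮, #(uncov root leaf U S) ≤ u) (K : ℝ) (hK0 : 0 ≤ K)
    (hK : (2:ℝ) ^ Fintype.card V * 3 ^ n * ((((2 * p : ℕ) : ℝ) ^ (2 * p)) ^ Fintype.card E *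
      2 ^ (p * u)) ≤ K ^ p) :
    ∃ h : Lab E t n, ∀ S ∈ 𝒮, ∀ β : Fin n → Option Bool,
      (∑ α ∈ cube β, chr (yy root leaf U h 0 α) S) ^ 2 ≤ K * 2 ^ #(free β) := by
  set W : ℝ := (2:ℝ) ^ Fintype.card V * 3 ^ n * ((((2 * p : ℕ) : ℝ) ^ (2 * p)) ^ Fintype.card E *
      2 ^ (p * u)) with hW
  have h1 : ∑ h : Lab E t n, ∑ S ∈ 𝒮, ∑ β : Fin n → Option Bool,
      (∑ α ∈ cube β, chr (yy root leaf U h 0 α) S) ^ (2 * p) / 2 ^ (p * #(free β)) ≤
      ∑ h : Lab E t n, W := by
    rw [Finset.sum_comm]
    have h2 : ∀ S ∈ 𝒮, ∑ h : Lab E t n, ∑ β : Fin n → Option Bool,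
        (∑ α ∈ cube β, chr (yy root leaf U h 0 α) S) ^ (2 * p) / 2 ^ (p * #(free β)) ≤
        3 ^ n * (Fintype.card (Lab E t n) * ((((2 * p : ℕ) : ℝ) ^ (2 * p)) ^ Fintype.card E *
          2 ^ (p * u))) := by
      intro S hS
      rw [Finset.sum_comm]
      have h3 : ∀ β ∈ (univ : Finset (Fin n → Option Bool)), ∑ h : Lab E t n,
          (∑ α ∈ cube β, chr (yy root leaf U h 0 α) S) ^ (2 * p) / 2 ^ (p * #(free β)) ≤
          Fintype.card (Lab E t n) * ((((2 * p : ℕ) : ℝ) ^ (2 * p)) ^ Fintype.card E *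
          2 ^ (p * u)) := by
        intro β _
        rw [← Finset.sum_div, div_le_iff₀ (by positivity)]
        refine (moment root leaf U S β p hp).trans ?_
        have h4 : (2:ℝ) ^ (p * #(uncov root leaf U S)) ≤ 2 ^ (p * u) :=
          pow_le_pow_right₀ (by norm_num) (Nat.mul_le_mul_left p (hu S hS))
        calc (Fintype.card (Lab E t n) : ℝ) * ((((2 * p : ℕ) : ℝ) ^ (2 * p)) ^ Fintype.card E *
            (2 ^ (p * #(free β)) * 2 ^ (p * #(uncov root leaf U S)))) ≤
            (Fintype.card (Lab E t n) : ℝ) * ((((2 * p : ℕ) : ℝ) ^ (2 * p)) ^ Fintype.card E *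
            (2 ^ (p * #(free β)) * 2 ^ (p * u))) := by gcongr
          _ = _ := by ring
      refine (Finset.sum_le_card_nsmul _ _ _ h3).trans (le_of_eq ?_)
      rw [nsmul_eq_mul, Finset.card_univ, Fintype.card_fun, Fintype.card_fin,
        Fintype.card_option, Fintype.card_bool]
      push_cast
      norm_num
    refine (Finset.sum_le_card_nsmul _ _ _ h2).trans ?_
    rw [nsmul_eq_mul, Finset.sum_const, nsmul_eq_mul, Finset.card_univ, hW]
    have h3 : (#𝒮 : ℝ) ≤ 2 ^ Fintype.card V := by
      have : #𝒮 ≤ 2 ^ Fintype.card V := by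
        rw [← Fintype.card_finset]
        exact Finset.card_le_univ 𝒮
      exact_mod_cast this
    calc (#𝒮 : ℝ) * (3 ^ n * (Fintype.card (Lab E t n) * ((((2 * p : ℕ) : ℝ) ^ (2 * p)) ^
        Fintype.card E * 2 ^ (p * u)))) ≤ 2 ^ Fintype.card V * (3 ^ n * (Fintype.card (Lab E t n) *
        ((((2 * p : ℕ) : ℝ) ^ (2 * p)) ^ Fintype.card E * 2 ^ (p * u)))) := by gcongr
      _ = _ := by ring
  obtain ⟨h, _, hh⟩ := Finset.exists_le_of_sum_le (Finset.univ_nonempty) h1
  refine ⟨h, fun S hS β => ?_⟩
  have h5 : (∑ α ∈ cube β, chr (yy root leaf U h 0 α) S) ^ (2 * p) / 2 ^ (p * #(free β)) ≤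
      K ^ p := by
    refine le_trans ?_ (hh.trans hK)
    have hnn : ∀ (S : Finset V) (β : Fin n → Option Bool),
        0 ≤ (∑ α ∈ cube β, chr (yy root leaf U h 0 α) S) ^ (2 * p) / 2 ^ (p * #(free β)) := by
      intro S β
      apply div_nonneg _ (by positivity)
      rw [pow_mul]
      positivity
    refine le_trans ?_ (Finset.single_le_sum (f := fun S => ∑ β : Fin n → Option Bool,
      (∑ α ∈ cube β, chr (yy root leaf U h 0 α) S) ^ (2 * p) / 2 ^ (p * #(free β)))
      (fun S _ => Finset.sum_nonneg (fun β _ => hnn S β)) hS)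
    exact Finset.single_le_sum (f := fun β : Fin n → Option Bool =>
      (∑ α ∈ cube β, chr (yy root leaf U h 0 α) S) ^ (2 * p) / 2 ^ (p * #(free β)))
      (fun β _ => hnn S β) (Finset.mem_univ β)
  rw [div_le_iff₀ (by positivity)] at h5
  have h6 : ((∑ α ∈ cube β, chr (yy root leaf U h 0 α) S) ^ 2) ^ p ≤
      (K * 2 ^ #(free β)) ^ p := by
    rw [← pow_mul, mul_pow, ← pow_mul, mul_comm (#(free β)) p]
    exact h5
  exact (pow_le_pow_iff_left₀ (by positivity) (by positivity) (by omega)).mp h6

omit [DecidableEq E] in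
/-- A choice of an odd right-hand side with large total mass. -/
theorem exists_shift (h : Lab E t n) (r : ℕ) (hr : r < Fintype.card V) :
    ∃ b : V → ZMod 2, ∑ j, b j = 1 ∧
      (2:ℝ) ^ n ≤ ∑ α : Fin n → Bool, pseudo (yy root leaf U h b α) r := by
  have hne : Nonempty V := by
    rw [← Fintype.card_pos_iff]
    omega
  obtain ⟨j₀⟩ := hne
  have hneB : Nonempty {b : V → ZMod 2 // ∑ j, b j = 1} :=
    ⟨⟨fun j => if j = j₀ then 1 else 0, by simp⟩⟩
  have h1 : ∑ b : {b : V → ZMod 2 // ∑ j, b j = 1}, (2:ℝ) ^ n ≤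
      ∑ b : {b : V → ZMod 2 // ∑ j, b j = 1}, ∑ α : Fin n → Bool,
        pseudo (yy root leaf U h b.1 α) r := by
    rw [Finset.sum_comm]
    have h2 : ∀ α : Fin n → Bool, ∑ b : {b : V → ZMod 2 // ∑ j, b j = 1},
        pseudo (yy root leaf U h b.1 α) r =
        Fintype.card {b : V → ZMod 2 // ∑ j, b j = 1} := by
      intro α
      simp only [pseudo]
      rw [Finset.sum_comm, Finset.sum_eq_single (∅ : Finset V)]
      · simp [chr, sgn]
      · intro S hS hne
        have h3 : ∀ b : {b : V → ZMod 2 // ∑ j, b j = 1}, chr (yy root leaf U h b.1 α) S =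
            sgn (∑ j ∈ S, b.1 j) * chr (yy root leaf U h 0 α) S :=
          fun b => chr_yy root leaf U h b.1 α S
        simp only [h3]
        rw [← Finset.sum_mul, sum_odd_sgn_eq_zero S (Finset.nonempty_iff_ne_empty.mpr hne)
          (lt_of_le_of_lt (Finset.mem_filter.mp hS).2 hr), zero_mul]
      · intro h
        exfalso
        apply h
        simp
    simp only [h2]
    rw [Finset.sum_const, Finset.sum_const, nsmul_eq_mul, nsmul_eq_mul, Finset.card_univ,
      Finset.card_univ, Fintype.card_fun, Fintype.card_bool, Fintype.card_fin]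
    push_cast
    rw [mul_comm]
  obtain ⟨b, _, hb⟩ := Finset.exists_le_of_sum_le (Finset.univ_nonempty) h1
  exact ⟨b.1, b.2, hb⟩

/-- The bits adjacent to the vertex `j`. -/
def nbv (j : V) : Finset (Fin n) :=
  (univ.filter (fun e => root e = j ∨ ∃ s, leaf s e = j)).biUnion U

omit [Fintype V] [DecidableEq E] in
theorem yy_congr (h : Lab E t n) (b : V → ZMod 2) (α α' : Fin n → Bool) (j : V)
    (hj : ∀ i ∈ nbv root leaf U j, α i = α' i) :
    yy root leaf U h b α j = yy root leaf U h b α' j := by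
  simp only [yy]
  congr 1
  apply Finset.sum_congr rfl
  intro e _
  apply Finset.sum_congr rfl
  intro s _
  by_cases he : root e = j ∨ ∃ s, leaf s e = j
  · have h1 : proj (U e) α = proj (U e) α' := by
      funext i
      simp only [proj]
      split_ifs with hi
      · apply hj
        rw [nbv, Finset.mem_biUnion]
        exact ⟨e, Finset.mem_filter.mpr ⟨Finset.mem_univ _, he⟩, hi⟩
      · rfl
    rw [h1]
  · push Not at he
    have h1 : inc root leaf e s j = 0 := by
      simp [inc, he.1, he.2 s]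
    rw [h1]
    ring

variable {k : ℕ}

/-- The clause falsified exactly by the assignments that agree with `x` around `j`. -/
def clv (hk : ∀ j, #(nbv root leaf U j) ≤ k) (j : V) (x : Fin n → Bool) : KClause k n :=
  ⟨(nbv root leaf U j).image (fun i => (i, !(x i))), Finset.card_image_le.trans (hk j)⟩

omit [Fintype V] [DecidableEq E] in
theorem sat_clv (hk : ∀ j, #(nbv root leaf U j) ≤ k) (j : V) (x : Fin n → Bool)
    (α : Fin n → Bool) :
    SatisfiesClause α (clv root leaf U hk j x) ↔ ∃ i ∈ nbv root leaf U j, α i ≠ x i := by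
  simp only [SatisfiesClause, clv, Finset.mem_image]
  constructor
  · rintro ⟨l, ⟨i, hi, rfl⟩, h⟩
    refine ⟨i, hi, ?_⟩
    simp only at h
    rw [h]
    cases x i <;> simp
  · rintro ⟨i, hi, h⟩
    refine ⟨_, ⟨i, hi, rfl⟩, ?_⟩
    simp only
    cases h1 : α i <;> cases h2 : x i <;> simp_all

/-- The unsatisfiable formula of the labels. -/
def VF (hk : ∀ j, #(nbv root leaf U j) ≤ k) (h : Lab E t n) (b : V → ZMod 2) :
    Set (KClause k n) :=
  {C | ∃ j x, C = clv root leaf U hk j x ∧ yy root leaf U h b x j = 1}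

omit [DecidableEq E] in
theorem VF_unsat (hk : ∀ j, #(nbv root leaf U j) ≤ k) (h : Lab E t n) (b : V → ZMod 2)
    (hb : ∑ j, b j = 1) : ¬ Satisfiable (VF root leaf U hk h b) := by
  rintro ⟨α, hα⟩
  have h1 : ∃ j, yy root leaf U h b α j = 1 := by
    by_contra hcon
    push Not at hcon
    have h2 : ∀ j, yy root leaf U h b α j = 0 := fun j => (zmod2_cases _).resolve_right (hcon j)
    have h3 := sum_yy root leaf U h b α
    rw [hb] at h3
    simp [h2] at h3
  obtain ⟨j, hj⟩ := h1
  have h4 := hα (clv root leaf U hk j α) ⟨j, α, rfl, hj⟩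
  rw [sat_clv] at h4
  obtain ⟨i, _, hi⟩ := h4
  exact hi rfl

/-- The vertices all of whose bits are in `W`. -/
noncomputable def insideV (W : Set (Fin n)) : Finset V :=
  open Classical in univ.filter (fun j => ∀ i ∈ nbv root leaf U j, i ∈ W)

omit [DecidableEq E] in
theorem mem_insideV {W : Set (Fin n)} {j : V} :
    j ∈ insideV root leaf U W ↔ ∀ i ∈ nbv root leaf U j, i ∈ W := by
  simp [insideV]

omit [DecidableEq E] in
theorem card_insideV_le (s : ℕ) (m : ℝ)
    (hs : ∀ J : Finset V, s < #J → m < #(J.biUnion (nbv root leaf U))) (W : Set (Fin n))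
    (hW : (W.ncard : ℝ) ≤ m) : #(insideV root leaf U W) ≤ s := by
  by_contra h
  push Not at h
  have h1 := hs _ h
  have h2 : #((insideV root leaf U W).biUnion (nbv root leaf U)) ≤ W.ncard := by
    rw [← Set.ncard_coe_finset]
    refine Set.ncard_le_ncard ?_ (Set.toFinite _)
    intro i hi
    rw [Finset.mem_coe, Finset.mem_biUnion] at hi
    obtain ⟨j, hj, hij⟩ := hi
    exact (mem_insideV root leaf U).mp hj i hij
  have h3 : (#((insideV root leaf U W).biUnion (nbv root leaf U)) : ℝ) ≤ W.ncard := by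
    exact_mod_cast h2
  linarith

/-- The lower bound for weighted partitions into refuted subcubes. -/
theorem hitting_bound (hk : ∀ j, #(nbv root leaf U j) ≤ k) (r s u p : ℕ) (m : ℝ)
    (hr : r < Fintype.card V) (hp : 1 ≤ p)
    (hu : ∀ S ∈ middle V r s, #(uncov root leaf U S) ≤ u)
    (hs : ∀ J : Finset V, s < #J → m < #(J.biUnion (nbv root leaf U)))
    (K : ℝ) (hK0 : 0 ≤ K)
    (hK : (2:ℝ) ^ Fintype.card V * 3 ^ n * ((((2 * p : ℕ) : ℝ) ^ (2 * p)) ^ Fintype.card E *
      2 ^ (p * u)) ≤ K ^ p) :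
    ∃ F : Set (KClause k n), ¬ Satisfiable F ∧
      ∀ (ι : Type) [Fintype ι] (ρ : ι → Fin n → Option Bool) (w : ι → ℝ),
        (∀ α : Fin n → Bool, ∑ i with α ∈ cube (ρ i), w i = 1) →
        (∀ i, ∃ T : Set (KClause k n), T ⊆ F ∧ ((vars T).ncard : ℝ) ≤ m ∧
          ∀ α ∈ cube (ρ i), ∃ C ∈ T, ¬ SatisfiesClause α C) →
        ((2:ℝ) ^ n) ^ 2 ≤ (2 ^ Fintype.card V) ^ 2 * K *
          (Fintype.card ι * ∑ i, w i ^ 2 * #(cube (ρ i))) := by
  classical
  obtain ⟨h, hh⟩ := exists_labels root leaf U (middle V r s) p u hp hu K hK0 hK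
  obtain ⟨b, hb, hmass⟩ := exists_shift root leaf U h r hr
  refine ⟨VF root leaf U hk h b, VF_unsat root leaf U hk h b hb, ?_⟩
  intro ι _ ρ w hw hT
  set Λ : ι → ℝ := fun i => ∑ α ∈ cube (ρ i), pseudo (yy root leaf U h b α) r with hΛ
  -- the total mass
  have h1 : ∑ α : Fin n → Bool, pseudo (yy root leaf U h b α) r = ∑ i, w i * Λ i := by
    calc ∑ α : Fin n → Bool, pseudo (yy root leaf U h b α) r =
        ∑ α : Fin n → Bool, ∑ i, (if α ∈ cube (ρ i) then
          w i * pseudo (yy root leaf U h b α) r else 0) := by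
          apply Finset.sum_congr rfl
          intro α _
          rw [← Finset.sum_filter, ← Finset.sum_mul, hw α, one_mul]
      _ = ∑ i, ∑ α : Fin n → Bool, (if α ∈ cube (ρ i) then
          w i * pseudo (yy root leaf U h b α) r else 0) := Finset.sum_comm
      _ = ∑ i, w i * Λ i := by
          apply Finset.sum_congr rfl
          intro i _
          rw [← Finset.sum_filter, hΛ, Finset.mul_sum]
          apply Finset.sum_congr _ (fun _ _ => rfl)
          ext α
          simp
  -- the mass of a refuted subcube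
  have h2 : ∀ i, (Λ i) ^ 2 ≤ (#(middle V r s) : ℝ) ^ 2 * (K * #(cube (ρ i))) := by
    intro i
    obtain ⟨T, hTF, hTm, hTα⟩ := hT i
    set J := insideV root leaf U (vars T) with hJ
    have hJs : #J ≤ s := card_insideV_le root leaf U s m hs _ hTm
    have h3 : ∀ α ∈ cube (ρ i), ∃ j ∈ J, yy root leaf U h b α j = 1 := by
      intro α hα
      obtain ⟨C, hCT, hCα⟩ := hTα α hα
      obtain ⟨j, x, hC, hz⟩ := hTF hCT
      refine ⟨j, ?_, ?_⟩
      · rw [hJ, mem_insideV]
        intro v hv
        refine ⟨C, hCT, !(x v), ?_⟩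
        rw [hC]
        exact Finset.mem_image.mpr ⟨v, hv, rfl⟩
      · rw [← hz]
        apply yy_congr
        intro v hv
        by_contra hne
        apply hCα
        rw [hC, sat_clv]
        exact ⟨v, hv, hne⟩
    have h4 : Λ i = ∑ S ∈ middle V r s, (if r < #(S \ J) + #J then
        sgn (∑ j ∈ S, b j) * ∑ α ∈ cube (ρ i), chr (yy root leaf U h 0 α) S else 0) := by
      calc Λ i = ∑ α ∈ cube (ρ i), ∑ S ∈ middle V r s, (if r < #(S \ J) + #J then
            chr (yy root leaf U h b α) S else 0) := by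
            apply Finset.sum_congr rfl
            intro α hα
            exact pseudo_eq _ r s J hJs (h3 α hα)
        _ = ∑ S ∈ middle V r s, ∑ α ∈ cube (ρ i), (if r < #(S \ J) + #J then
            chr (yy root leaf U h b α) S else 0) := Finset.sum_comm
        _ = _ := by
            apply Finset.sum_congr rfl
            intro S _
            split_ifs
            · rw [Finset.mul_sum]
              apply Finset.sum_congr rfl
              intro α _
              exact chr_yy root leaf U h b α S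
            · simp
    rw [h4]
    calc (∑ S ∈ middle V r s, (if r < #(S \ J) + #J then
        sgn (∑ j ∈ S, b j) * ∑ α ∈ cube (ρ i), chr (yy root leaf U h 0 α) S else 0)) ^ 2 ≤
        #(middle V r s) * ∑ S ∈ middle V r s, (if r < #(S \ J) + #J then
        sgn (∑ j ∈ S, b j) * ∑ α ∈ cube (ρ i), chr (yy root leaf U h 0 α) S else 0) ^ 2 :=
          sq_sum_le_card_mul_sum_sq
      _ ≤ #(middle V r s) * ∑ S ∈ middle V r s, (K * #(cube (ρ i)) : ℝ) := by
          apply mul_le_mul_of_nonneg_left _ (by positivity)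
          apply Finset.sum_le_sum
          intro S hS
          have h5 := hh S hS (ρ i)
          rw [card_cube]
          push_cast
          split_ifs
          · rw [mul_pow, sq (sgn _), sgn_sq, one_mul]
            exact h5
          · rw [sq, zero_mul]
            positivity
      _ = _ := by
          rw [Finset.sum_const, nsmul_eq_mul]
          ring
  have h3 : ((2:ℝ) ^ n) ^ 2 ≤ (∑ i, w i * Λ i) ^ 2 := by
    rw [← h1]
    exact pow_le_pow_left₀ (by positivity) hmass 2
  have h4 : (#(middle V r s) : ℝ) ≤ 2 ^ Fintype.card V := by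
    have : #(middle V r s) ≤ 2 ^ Fintype.card V := by
      rw [← Fintype.card_finset]
      exact Finset.card_le_univ _
    exact_mod_cast this
  calc ((2:ℝ) ^ n) ^ 2 ≤ (∑ i, w i * Λ i) ^ 2 := h3
    _ ≤ #(univ : Finset ι) * ∑ i, (w i * Λ i) ^ 2 := sq_sum_le_card_mul_sum_sq
    _ ≤ #(univ : Finset ι) * ∑ i, (w i ^ 2 * ((2 ^ Fintype.card V) ^ 2 * (K * #(cube (ρ i))))) := by
        apply mul_le_mul_of_nonneg_left _ (by positivity)
        apply Finset.sum_le_sum
        intro i _
        rw [mul_pow]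
        apply mul_le_mul_of_nonneg_left _ (sq_nonneg _)
        refine (h2 i).trans ?_
        gcongr
    _ = _ := by
        rw [Finset.card_univ]
        have : ∀ i, w i ^ 2 * ((2 ^ Fintype.card V) ^ 2 * (K * #(cube (ρ i)))) =
            ((2:ℝ) ^ Fintype.card V) ^ 2 * K * (w i ^ 2 * #(cube (ρ i))) := fun i => by ring
        simp only [this]
        rw [← Finset.mul_sum]
        ring

end Labels

end Pool.Agent.Lib.MP_0e79d0_lc
end
end

section

/-!
Assignment of the bits to hyperedges such that half of the hyperedges cover almost all bits.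
-/

namespace Pool.Agent.Lib.MP_0e79d0_lc

open Finset

theorem exists_assign (a : ℕ) : ∃ M₀ : ℕ, ∀ M ≥ M₀, 1 ≤ M →
    ∀ 𝒯 : Finset (Finset (Fin (2 * M) × Fin (2 ^ 1))), #𝒯 ≤ 2 ^ (2 * M) →
      (∀ T ∈ 𝒯, #T ≤ 2 * M) →
      ∃ π : Fin (a + 4) → Equiv.Perm ((Fin (2 * M) × Fin (2 ^ 1)) × Fin (2 ^ a * (a + 2))),
        ∀ T ∈ 𝒯, #(univ.filter (fun i : (Fin (2 * M) × Fin (2 ^ 1)) × Fin (2 ^ a * (a + 2)) =>
          ∀ s, (π s i).1 ∈ T)) < 4 * M * (a + 2) := by
  obtain ⟨M₀, hM₀⟩ := eventually_poly_lt (2 * (2 ^ a * (a + 2))) (a + 4)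
  refine ⟨M₀, fun M hM hM1 𝒯 h𝒯 hT => ?_⟩
  by_contra hcon
  push Not at hcon
  set R := 2 ^ a * (a + 2) with hR
  have hRpos : 0 < R := by positivity
  set q := 4 * M * (a + 2) with hq
  set N := q * 2 ^ a with hN
  have hN2 : N = 4 * M * R := by rw [hN, hq, hR]; ring
  have hcardI : Fintype.card ((Fin (2 * M) × Fin (2 ^ 1)) × Fin R) = N := by
    simp only [Fintype.card_prod, Fintype.card_fin]
    rw [hN2]; ring
  have hcardE : Fintype.card (Fin (2 * M) × Fin (2 ^ 1)) = 4 * M := by
    simp only [Fintype.card_prod, Fintype.card_fin]; ring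
  let Q : Finset (Fin (2 * M) × Fin (2 ^ 1)) →
      Finset ((Fin (2 * M) × Fin (2 ^ 1)) × Fin R) →
      Finset (Equiv.Perm ((Fin (2 * M) × Fin (2 ^ 1)) × Fin R)) := fun T B =>
    univ.filter (fun π => ∀ i ∈ B, (π i).1 ∈ T)
  have hcover : (univ : Finset (Fin (a + 4) →
      Equiv.Perm ((Fin (2 * M) × Fin (2 ^ 1)) × Fin R))) ⊆
      (𝒯 ×ˢ powersetCard q univ).biUnion
        (fun p => Fintype.piFinset (fun _ => Q p.1 p.2)) := by
    intro π _
    obtain ⟨T, hTT, hu⟩ := hcon π
    obtain ⟨B, hB, hBc⟩ := Finset.exists_subset_card_eq hu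
    rw [Finset.mem_biUnion]
    refine ⟨(T, B), ?_, ?_⟩
    · rw [Finset.mem_product, Finset.mem_powersetCard]
      exact ⟨hTT, ⟨Finset.subset_univ _, hBc⟩⟩
    · rw [Fintype.mem_piFinset]
      intro s
      simp only [Q, mem_filter, mem_univ, true_and]
      intro i hi
      exact (Finset.mem_filter.mp (hB hi)).2 s
  have hQ : ∀ T ∈ 𝒯, ∀ B : Finset ((Fin (2 * M) × Fin (2 ^ 1)) × Fin R), #B = q →
      (#(Q T B) : ℝ) ≤ (N + 1) * (1 / 2) ^ q * N.factorial := by
    intro T hTT B hB
    obtain ⟨T', hT', hT'c⟩ := Finset.exists_superset_card_eq (hT T hTT) (by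
      rw [hcardE]; omega)
    have hA : #(T' ×ˢ (univ : Finset (Fin R))) = 2 * M * R := by
      rw [Finset.card_product, hT'c, Finset.card_univ, Fintype.card_fin]
    have hNR : (N:ℝ) = 4 * M * R := by rw [hN2]; push_cast; ring
    have h1 := card_fix_le (T' ×ˢ (univ : Finset (Fin R))) B univ (1 / 2)
      (by rw [hA]; positivity)
      (by
        rw [hA, hcardI, hN2]
        apply Nat.mul_lt_mul_of_pos_right _ hRpos
        omega)
      (by
        rw [hA, hcardI, hNR]
        push_cast
        linarith)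
      (by
        rw [hA, hcardI, hNR]
        push_cast
        linarith)
    rw [hcardI, hB] at h1
    refine le_trans ?_ h1
    have h2 : #(Q T B) ≤ #(univ.filter
        (fun π : Equiv.Perm ((Fin (2 * M) × Fin (2 ^ 1)) × Fin R) =>
        ∀ i ∈ B, (π i ∈ T' ×ˢ (univ : Finset (Fin R)) ↔
          i ∈ (univ : Finset ((Fin (2 * M) × Fin (2 ^ 1)) × Fin R))))) := by
      apply Finset.card_le_card
      intro π hπ
      rw [Finset.mem_filter] at hπ ⊢
      refine ⟨hπ.1, fun i hi => ?_⟩
      have h3 := hT' (hπ.2 i hi)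
      simp only [Finset.mem_product, Finset.mem_univ, and_true, h3]
    exact_mod_cast h2
  have h1 := Finset.card_le_card hcover
  have h2 : (#((𝒯 ×ˢ powersetCard q univ).biUnion
        (fun p : Finset (Fin (2 * M) × Fin (2 ^ 1)) ×
          Finset ((Fin (2 * M) × Fin (2 ^ 1)) × Fin R) =>
          Fintype.piFinset (fun _ : Fin (a + 4) => Q p.1 p.2))) : ℝ) ≤
      (2 ^ (2 * M) * N.choose q) * ((N + 1) * (1 / 2) ^ q * N.factorial) ^ (a + 4) := by
    have h3 : (#((𝒯 ×ˢ powersetCard q univ).biUnion
        (fun p : Finset (Fin (2 * M) × Fin (2 ^ 1)) ×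
          Finset ((Fin (2 * M) × Fin (2 ^ 1)) × Fin R) =>
          Fintype.piFinset (fun _ : Fin (a + 4) => Q p.1 p.2))) : ℝ) ≤
        ∑ p ∈ 𝒯 ×ˢ powersetCard q univ, (#(Fintype.piFinset (fun _ : Fin (a + 4) =>
          Q p.1 p.2)) : ℝ) := by exact_mod_cast Finset.card_biUnion_le
    refine h3.trans ?_
    refine (Finset.sum_le_card_nsmul _ _
      ((((N:ℝ) + 1) * (1 / 2) ^ q * (N.factorial : ℝ)) ^ (a + 4)) ?_).trans ?_
    · intro p hp
      rw [Finset.mem_product, Finset.mem_powersetCard] at hp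
      rw [Fintype.card_piFinset_const]
      push_cast
      exact pow_le_pow_left₀ (by positivity) (hQ p.1 hp.1 p.2 hp.2.2) _
    · rw [nsmul_eq_mul, Finset.card_product, Finset.card_powersetCard,
        Finset.card_univ, hcardI]
      push_cast
      apply mul_le_mul_of_nonneg_right _ (by positivity)
      apply mul_le_mul_of_nonneg_right _ (by positivity)
      exact_mod_cast h𝒯
  have h3 : Fintype.card (Fin (a + 4) →
      Equiv.Perm ((Fin (2 * M) × Fin (2 ^ 1)) × Fin R)) = N.factorial ^ (a + 4) := by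
    rw [Fintype.card_fun, Fintype.card_perm, hcardI, Fintype.card_fin]
  rw [Finset.card_univ, h3] at h1
  have h4 : ((N.factorial : ℝ)) ^ (a + 4) ≤
      (2 ^ (2 * M) * N.choose q) * ((N + 1) * (1 / 2) ^ q * N.factorial) ^ (a + 4) := by
    refine le_trans ?_ h2
    exact_mod_cast h1
  have h5 : (1:ℝ) ≤ (2 ^ (2 * M) * N.choose q) * ((N + 1) * (1 / 2) ^ q) ^ (a + 4) := by
    have h6 : (0:ℝ) < (N.factorial : ℝ) ^ (a + 4) := by positivity
    apply le_of_mul_le_mul_right _ h6
    rw [one_mul]
    refine h4.trans (le_of_eq ?_)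
    rw [mul_pow _ (N.factorial : ℝ)]
    ring
  have h7 : (N.choose q : ℝ) ≤ ((4 * 2 ^ a) ^ q : ℝ) := by
    exact_mod_cast choose_le_four q (2 ^ a)
  have h8 : ((N:ℝ) + 1) ^ (a + 4) < 4 ^ M := by
    have := hM₀ M hM
    have e : 2 * M * (2 * R) + 1 = N + 1 := by rw [hN2]; ring
    rw [e] at this
    exact_mod_cast this
  have h10 : (2 ^ (2 * M) * (N.choose q : ℝ)) * ((N + 1) * (1 / 2) ^ q) ^ (a + 4) < 1 := by
    calc (2 ^ (2 * M) * (N.choose q : ℝ)) * ((N + 1) * (1 / 2) ^ q) ^ (a + 4) =
        (2 ^ (2 * M) * (N.choose q : ℝ)) * (((N:ℝ) + 1) ^ (a + 4) * ((1 / 2) ^ q) ^ (a + 4)) := by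
          rw [mul_pow]
      _ ≤ (2 ^ (2 * M) * (4 * 2 ^ a) ^ q) *
          (((N:ℝ) + 1) ^ (a + 4) * ((1 / 2) ^ q) ^ (a + 4)) := by gcongr
      _ = 2 ^ (2 * M) * ((4 * 2 ^ a) * (1 / 2 : ℝ) ^ (a + 4)) ^ q * ((N:ℝ) + 1) ^ (a + 4) := by
          have e : ((4 * 2 ^ a) * (1 / 2 : ℝ) ^ (a + 4)) ^ q =
              (4 * 2 ^ a) ^ q * ((1 / 2 : ℝ) ^ q) ^ (a + 4) := by
            rw [mul_pow (4 * 2 ^ a : ℝ), ← pow_mul, ← pow_mul, mul_comm (a + 4) q]
          rw [e]
          ring
      _ = 2 ^ (2 * M) * (1 / 4 : ℝ) ^ q * ((N:ℝ) + 1) ^ (a + 4) := by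
          have : (4 * 2 ^ a) * (1 / 2 : ℝ) ^ (a + 4) = 1 / 4 := by
            rw [pow_add, one_div, inv_pow]
            field_simp
            norm_num
          rw [this]
      _ < 2 ^ (2 * M) * (1 / 4 : ℝ) ^ q * 4 ^ M := by gcongr
      _ ≤ 2 ^ (2 * M) * (1 / 4 : ℝ) ^ (2 * M) * 4 ^ M := by
          have hq2 : 2 * M ≤ q := by
            rw [hq]
            nlinarith
          have := pow_le_pow_of_le_one (show (0:ℝ) ≤ 1 / 4 by norm_num) (by norm_num) hq2
          gcongr
      _ = 1 := by
          rw [pow_mul 2 2 M, pow_mul (1 / 4 : ℝ) 2 M, ← mul_pow, ← mul_pow]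
          norm_num
  linarith

/-- The combinatorial structure: `2 M` vertices, `4 M` hyperedges with `16` ends each, and
`4 M R` bits, `R = 2 ^ a (a + 2)`, each assigned to at most `a + 4` hyperedges. -/
theorem exists_structure (a : ℕ) : ∃ M₀ : ℕ, ∀ M ≥ M₀, 1 ≤ M →
    ∃ (σ : Fin 15 → Equiv.Perm (Fin (2 * M) × Fin (2 ^ 1)))
      (π : Fin (a + 4) → Equiv.Perm ((Fin (2 * M) × Fin (2 ^ 1)) × Fin (2 ^ a * (a + 2)))),
      ∀ S : Finset (Fin (2 * M)), M ≤ 2 * #S → #S ≤ M →
        #(univ.filter (fun i : (Fin (2 * M) × Fin (2 ^ 1)) × Fin (2 ^ a * (a + 2)) =>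
          ∀ s s', ((σ s' (π s i).1).1 ∈ S ↔ (π s i).1.1 ∈ S))) < 4 * M * (a + 2) := by
  obtain ⟨M₁, hM₁⟩ := exists_perms 1
  obtain ⟨M₂, hM₂⟩ := exists_assign a
  refine ⟨max M₁ M₂, fun M hM hM1 => ?_⟩
  obtain ⟨σ, hσ⟩ := hM₁ M ((le_max_left _ _).trans hM) hM1
  classical
  let 𝒮 : Finset (Finset (Fin (2 * M))) := univ.filter (fun S => M ≤ 2 * #S ∧ #S ≤ M)
  let 𝒯 : Finset (Finset (Fin (2 * M) × Fin (2 ^ 1))) := 𝒮.image (fun S =>
    univ.filter (fun i : Fin (2 * M) × Fin (2 ^ 1) => ∀ s, ((σ s i).1 ∈ S ↔ i.1 ∈ S)))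
  obtain ⟨π, hπ⟩ := hM₂ M ((le_max_right _ _).trans hM) hM1 𝒯
    (by
      refine Finset.card_image_le.trans ((Finset.card_filter_le _ _).trans ?_)
      simp)
    (by
      intro T hT
      rw [Finset.mem_image] at hT
      obtain ⟨S, hS, rfl⟩ := hT
      have h1 := (Finset.mem_filter.mp hS).2
      exact (hσ S h1.1 h1.2).le)
  refine ⟨σ, π, fun S hS hS' => ?_⟩
  have h1 := hπ _ (Finset.mem_image.mpr ⟨S, Finset.mem_filter.mpr ⟨Finset.mem_univ _, hS, hS'⟩,
    rfl⟩)
  refine lt_of_le_of_lt (Finset.card_le_card ?_) h1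
  intro i hi
  rw [Finset.mem_filter] at hi ⊢
  refine ⟨hi.1, fun s => ?_⟩
  rw [Finset.mem_filter]
  exact ⟨Finset.mem_univ _, hi.2 s⟩

end Pool.Agent.Lib.MP_0e79d0_lc
end
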