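import Mathlib
import Pool.Agent.Lib.MP_0e79d0_lc.Defs
import Pool.Agent.Lib.MP_0e79d0_lc.Expander
import Pool.Agent.Lib.MP_0e79d0_lc.TwoLevel

/-!
The lower bound for (weighted) partitions of the Boolean cube into refuted subcubes.
-/

namespace Pool.Agent.Lib.MP_0e79d0_lc

open Finset

theorem card_fst_fiber (K R : ℕ) (j : Fin K) :
    #(univ.filter (fun i : Fin K × Fin R => i.1 = j)) = R := by
  have : (univ.filter (fun i : Fin K × Fin R => i.1 = j)) =
      {j} ×ˢ (univ : Finset (Fin R)) := by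
    ext i
    simp only [mem_filter, mem_univ, true_and, mem_product, mem_singleton, and_true]
  rw [this, Finset.card_product]
  simp

theorem card_fst_fiber' {E : Type} [Fintype E] [DecidableEq E] (R : ℕ) (e : E) :
    #(univ.filter (fun i : E × Fin R => i.1 = e)) = R := by
  have : (univ.filter (fun i : E × Fin R => i.1 = e)) =
      {e} ×ˢ (univ : Finset (Fin R)) := by
    ext i
    simp only [mem_filter, mem_univ, true_and, mem_product, mem_singleton, and_true]
  rw [this, Finset.card_product]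
  simp

/-- The number of `i` with `(π s i).1 = e` for some `s`. -/
theorem card_slot_le {E : Type} [Fintype E] [DecidableEq E] (R t : ℕ)
    (π : Fin t → Equiv.Perm (E × Fin R)) (e : E) :
    #(univ.filter (fun i : E × Fin R => ∃ s, (π s i).1 = e)) ≤ t * R := by
  have hsub : (univ.filter (fun i : E × Fin R => ∃ s, (π s i).1 = e)) ⊆
      (univ : Finset (Fin t)).biUnion (fun s =>
        univ.filter (fun i : E × Fin R => (π s i).1 = e)) := by
    intro i hi
    simp only [mem_filter, mem_univ, true_and, mem_biUnion] at hi ⊢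
    exact hi
  refine (Finset.card_le_card hsub).trans (Finset.card_biUnion_le.trans ?_)
  refine (Finset.sum_le_card_nsmul _ _ R ?_).trans ?_
  · intro s _
    refine le_trans ?_ (card_fst_fiber' R e).le
    apply Finset.card_le_card_of_injOn (fun i => π s i)
    · intro i hi
      simpa using hi
    · intro i _ i' _ h
      exact (π s).injective h
  · simp

theorem hitting_struct (a : ℕ) : ∃ M₀ : ℕ, ∀ M ≥ M₀, 1 ≤ M → ∀ (n k : ℕ) (m : ℝ),
    4 * M * (2 ^ a * (a + 2)) ≤ n → 32 * ((a + 4) * (2 ^ a * (a + 2))) ≤ k →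
    m + 4 * M * (a + 2) ≤ 4 * M * (2 ^ a * (a + 2)) →
    ∃ F : Set (KClause k n), ¬ Satisfiable F ∧
      ∀ (ι : Type) [Fintype ι] (ρ : ι → Fin n → Option Bool) (w : ι → ℝ),
        (∀ α : Fin n → Bool, ∑ i with α ∈ cube (ρ i), w i = 1) →
        (∀ i, ∃ T : Set (KClause k n), T ⊆ F ∧ ((vars T).ncard : ℝ) ≤ m ∧
          ∀ α ∈ cube (ρ i), ∃ C ∈ T, ¬ SatisfiesClause α C) →
        ((2:ℝ) ^ n) ^ 2 ≤ (2 ^ (2 * M)) ^ 2 * ((2:ℝ) ^ (((2 * n + 2 * M : ℕ) : ℝ) / 2 ^ (a + 1)) *
          2 ^ (8 * M * (a + 2) + ((n - 4 * M * (2 ^ a * (a + 2))) + 4 * M * (a + 2)))) *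
          (Fintype.card ι * ∑ i, w i ^ 2 * #(cube (ρ i))) := by
  obtain ⟨M₀, hM₀⟩ := exists_structure a
  refine ⟨M₀, fun M hM hM1 n k m hn hk hm => ?_⟩
  replace hM₀ := hM₀ M hM hM1
  generalize hR : 2 ^ a * (a + 2) = R at hM₀ hn hk ⊢
  obtain ⟨σ, π, hσπ⟩ := hM₀
  have hcardI : Fintype.card ((Fin (2 * M) × Fin (2 ^ 1)) × Fin R) = 4 * M * R := by
    simp only [Fintype.card_prod, Fintype.card_fin]
    ring
  have hcardE : Fintype.card (Fin (2 * M) × Fin (2 ^ 1)) = 4 * M := by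
    simp only [Fintype.card_prod, Fintype.card_fin]; ring
  obtain ⟨ε⟩ : Nonempty (((Fin (2 * M) × Fin (2 ^ 1)) × Fin R) ↪ Fin n) := by
    rw [Function.Embedding.nonempty_iff_card_le, hcardI, Fintype.card_fin]
    exact hn
  let root : Fin (2 * M) × Fin (2 ^ 1) → Fin (2 * M) := fun e => e.1
  let leaf : Fin 15 → Fin (2 * M) × Fin (2 ^ 1) → Fin (2 * M) := fun s e => (σ s e).1
  let U : Fin (2 * M) × Fin (2 ^ 1) → Finset (Fin n) := fun e =>
    (univ.filter (fun i : (Fin (2 * M) × Fin (2 ^ 1)) × Fin R => ∃ s, (π s i).1 = e)).map ε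
  have hmemU : ∀ e i, ε i ∈ U e ↔ ∃ s, (π s i).1 = e := by
    intro e i
    simp only [U, Finset.mem_map', mem_filter, mem_univ, true_and]
  have hcardU : ∀ e, #(U e) ≤ (a + 4) * R := by
    intro e
    simp only [U, Finset.card_map]
    exact card_slot_le R (a + 4) π e
  -- widths
  have hk' : ∀ j, #(nbv root leaf U j) ≤ k := by
    intro j
    refine le_trans ?_ hk
    have hE : #(univ.filter (fun e => root e = j ∨ ∃ s, leaf s e = j)) ≤ 32 := by
      have hsub : (univ.filter (fun e => root e = j ∨ ∃ s, leaf s e = j)) ⊆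
          (univ.filter (fun e : Fin (2 * M) × Fin (2 ^ 1) => e.1 = j)) ∪
          (univ.filter (fun e : Fin (2 * M) × Fin (2 ^ 1) => ∃ s, (σ s e).1 = j)) := by
        intro e he
        simp only [mem_filter, mem_univ, true_and, mem_union] at he ⊢
        exact he
      refine (Finset.card_le_card hsub).trans ((Finset.card_union_le _ _).trans ?_)
      have h1 := card_fst_fiber (2 * M) (2 ^ 1) j
      have h2 := card_slot_le (2 ^ 1) 15 σ j
      omega
    refine Finset.card_biUnion_le.trans ?_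
    refine (Finset.sum_le_card_nsmul _ _ ((a + 4) * R) (fun e _ => hcardU e)).trans ?_
    rw [smul_eq_mul]
    exact Nat.mul_le_mul_right _ hE
  -- uncovered bits
  have hu : ∀ S ∈ middle (Fin (2 * M)) M (M / 2), #(uncov root leaf U S) ≤
      (n - 4 * M * R) + 4 * M * (a + 2) := by
    intro S hS
    have hS' := (Finset.mem_filter.mp hS).2
    have h1 := hσπ S (by omega) hS'.1
    have hsub : uncov root leaf U S ⊆ ((univ : Finset ((Fin (2 * M) × Fin (2 ^ 1)) ×
        Fin R)).map ε)ᶜ ∪ ((univ.filter (fun i : (Fin (2 * M) × Fin (2 ^ 1)) × Fin R =>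
          ∀ s s', ((σ s' (π s i).1).1 ∈ S ↔ (π s i).1.1 ∈ S))).map ε) := by
      intro v hv
      rw [Finset.mem_union]
      by_cases hv' : v ∈ (univ : Finset ((Fin (2 * M) × Fin (2 ^ 1)) × Fin R)).map ε
      · right
        rw [Finset.mem_map] at hv'
        obtain ⟨i, _, rfl⟩ := hv'
        rw [Finset.mem_map']
        rw [Finset.mem_filter]
        refine ⟨Finset.mem_univ _, fun s => ?_⟩
        by_contra hcon
        have h2 := (Finset.mem_filter.mp hv).2 (π s i).1 hcon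
        exact h2 ((hmemU _ _).mpr ⟨s, rfl⟩)
      · left
        exact Finset.mem_compl.mpr hv'
    refine (Finset.card_le_card hsub).trans ((Finset.card_union_le _ _).trans ?_)
    rw [Finset.card_compl, Finset.card_map, Finset.card_map, Finset.card_univ, hcardI,
      Fintype.card_fin]
    omega
  -- touched bits
  have hs : ∀ J : Finset (Fin (2 * M)), M / 2 < #J → m < #(J.biUnion (nbv root leaf U)) := by
    intro J hJ
    have hun : #(univ.filter (fun i : (Fin (2 * M) × Fin (2 ^ 1)) × Fin R =>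
        ε i ∉ J.biUnion (nbv root leaf U))) < 4 * M * (a + 2) := by
      have hout : ∀ i : (Fin (2 * M) × Fin (2 ^ 1)) × Fin R, ε i ∉ J.biUnion (nbv root leaf U) →
          ∀ s, (π s i).1.1 ∉ J ∧ ∀ s', (σ s' (π s i).1).1 ∉ J := by
        intro i hi s
        rw [Finset.mem_biUnion] at hi
        push Not at hi
        have hUi : ε i ∈ U (π s i).1 := (hmemU _ _).mpr ⟨s, rfl⟩
        constructor
        · intro h
          apply hi _ h
          rw [nbv, Finset.mem_biUnion]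
          exact ⟨(π s i).1, Finset.mem_filter.mpr ⟨Finset.mem_univ _, Or.inl rfl⟩, hUi⟩
        · intro s' h
          apply hi _ h
          rw [nbv, Finset.mem_biUnion]
          exact ⟨(π s i).1, Finset.mem_filter.mpr ⟨Finset.mem_univ _, Or.inr ⟨s', rfl⟩⟩, hUi⟩
      by_cases hJM : #J ≤ M
      · refine lt_of_le_of_lt (Finset.card_le_card ?_) (hσπ J (by omega) hJM)
        intro i hi
        rw [Finset.mem_filter] at hi ⊢
        refine ⟨hi.1, fun s s' => ?_⟩
        have h1 := hout i hi.2 s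
        exact ⟨fun h => absurd h (h1.2 s'), fun h => absurd h h1.1⟩
      · have hc : #(Jᶜ) ≤ M := by
          rw [Finset.card_compl, Fintype.card_fin]
          omega
        obtain ⟨S, hS, hSc⟩ := Finset.exists_superset_card_eq hc
          (by rw [Fintype.card_fin]; omega)
        refine lt_of_le_of_lt (Finset.card_le_card ?_) (hσπ S (by omega) hSc.le)
        intro i hi
        rw [Finset.mem_filter] at hi ⊢
        refine ⟨hi.1, fun s s' => ?_⟩
        have h1 := hout i hi.2 s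
        exact ⟨fun _ => hS (Finset.mem_compl.mpr h1.1),
          fun _ => hS (Finset.mem_compl.mpr (h1.2 s'))⟩
    have h3 : #(univ.filter (fun i : (Fin (2 * M) × Fin (2 ^ 1)) × Fin R =>
        ε i ∈ J.biUnion (nbv root leaf U))) ≤ #(J.biUnion (nbv root leaf U)) := by
      apply Finset.card_le_card_of_injOn (fun i => ε i)
      · intro i hi
        rw [Finset.mem_coe, Finset.mem_filter] at hi
        exact hi.2
      · intro i _ i' _ h
        exact ε.injective h
    have h4 := Finset.card_filter_add_card_filter_not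
      (s := (univ : Finset ((Fin (2 * M) × Fin (2 ^ 1)) × Fin R)))
      (fun i => ε i ∈ J.biUnion (nbv root leaf U))
    rw [Finset.card_univ, hcardI] at h4
    have h5 : 4 * M * R < #(J.biUnion (nbv root leaf U)) + 4 * M * (a + 2) := by omega
    have h6 : ((4 * M * R : ℕ) : ℝ) < ((#(J.biUnion (nbv root leaf U)) + 4 * M * (a + 2) : ℕ) : ℝ) := by
      exact_mod_cast h5
    rw [← hR] at h6
    push_cast at h6
    linarith
  have hmain := hitting_bound root leaf U hk' M (M / 2) ((n - 4 * M * R) + 4 * M * (a + 2))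
    (2 ^ (a + 1)) m (by rw [Fintype.card_fin]; omega) Nat.one_le_two_pow hu hs
    ((2:ℝ) ^ (((2 * n + 2 * M : ℕ) : ℝ) / 2 ^ (a + 1)) *
          2 ^ (8 * M * (a + 2) + ((n - 4 * M * R) + 4 * M * (a + 2)))) (by positivity)
    (by
      rw [Fintype.card_fin, hcardE]
      have e1 : ((2:ℝ) ^ (((2 * n + 2 * M : ℕ) : ℝ) / 2 ^ (a + 1))) ^ (2 ^ (a + 1)) =
          2 ^ (2 * n + 2 * M) := by
        rw [← Real.rpow_natCast ((2:ℝ) ^ (((2 * n + 2 * M : ℕ) : ℝ) / 2 ^ (a + 1))) (2 ^ (a + 1)),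
          ← Real.rpow_mul (by norm_num)]
        have : ((2 * n + 2 * M : ℕ) : ℝ) / 2 ^ (a + 1) * ((2 ^ (a + 1) : ℕ) : ℝ) =
            ((2 * n + 2 * M : ℕ) : ℝ) := by
          push_cast
          field_simp
        rw [this, Real.rpow_natCast]
      have e2 : (((2 * 2 ^ (a + 1) : ℕ) : ℝ) ^ (2 * 2 ^ (a + 1))) ^ (4 * M) =
          (2:ℝ) ^ (8 * M * (a + 2) * 2 ^ (a + 1)) := by
        have : ((2 * 2 ^ (a + 1) : ℕ) : ℝ) = 2 ^ (a + 2) := by
          push_cast; ring
        rw [this, ← pow_mul, ← pow_mul]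
        congr 1
        ring
      have e3 : (3:ℝ) ^ n ≤ 2 ^ (2 * n) := by
        rw [pow_mul]
        apply pow_le_pow_left₀ (by norm_num)
        norm_num
      rw [mul_pow, e1, e2]
      calc (2:ℝ) ^ (2 * M) * 3 ^ n * (2 ^ (8 * M * (a + 2) * 2 ^ (a + 1)) *
          2 ^ (2 ^ (a + 1) * ((n - 4 * M * R) + 4 * M * (a + 2)))) ≤
          (2:ℝ) ^ (2 * M) * 2 ^ (2 * n) * (2 ^ (8 * M * (a + 2) * 2 ^ (a + 1)) *
          2 ^ (2 ^ (a + 1) * ((n - 4 * M * R) + 4 * M * (a + 2)))) := by gcongr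
        _ = _ := by
          rw [← pow_mul, ← pow_add, ← pow_add, ← pow_add, ← pow_add]
          congr 1
          ring)
  rw [Fintype.card_fin] at hmain
  exact hmain

theorem hit_bound (a k : ℕ) (hk : 32 * ((a + 4) * (2 ^ a * (a + 2))) ≤ k) : ∃ n₀ : ℕ, ∀ n ≥ n₀,
    ∀ (m : ℝ), m ≤ (1 - 5 / 2 ^ a : ℝ) * n →
    ∃ F : Set (KClause k n), ¬ Satisfiable F ∧
      ∀ (ι : Type) [Fintype ι] (ρ : ι → Fin n → Option Bool) (w : ι → ℝ),
        (∀ α : Fin n → Bool, ∑ i with α ∈ cube (ρ i), w i = 1) →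
        (∀ i, ∃ T : Set (KClause k n), T ⊆ F ∧ ((vars T).ncard : ℝ) ≤ m ∧
          ∀ α ∈ cube (ρ i), ∃ C ∈ T, ¬ SatisfiesClause α C) →
        (2:ℝ) ^ m * 2 ^ n ≤ Fintype.card ι * ∑ i, w i ^ 2 * #(cube (ρ i)) := by
  obtain ⟨M₀, hM₀⟩ := hitting_struct a
  set R := 2 ^ a * (a + 2) with hR
  have hRpos : 0 < R := by positivity
  refine ⟨max ((M₀ + 1) * (4 * R)) (16 * R * 2 ^ a), fun n hn m hm => ?_⟩
  set M := n / (4 * R) with hMdef
  have hM1 : M₀ + 1 ≤ M := by
    rw [hMdef, Nat.le_div_iff_mul_le (by positivity)]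
    exact (le_max_left _ _).trans hn
  have hMn : 4 * M * R ≤ n := by
    have := Nat.div_mul_le_self n (4 * R)
    rw [← hMdef] at this
    calc 4 * M * R = M * (4 * R) := by ring
      _ ≤ n := this
  have hMn' : n < 4 * M * R + 4 * R := by
    have := Nat.lt_div_mul_add (a := n) (b := 4 * R) (by positivity)
    rw [← hMdef] at this
    calc n < M * (4 * R) + 4 * R := this
      _ = _ := by ring
  -- real versions
  set L : ℝ := 2 ^ a with hL
  have hL1 : 1 ≤ L := one_le_pow₀ (by norm_num)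
  have hL0 : 0 < L := by linarith
  have ha0 : (0:ℝ) ≤ a := by positivity
  have hRR : (R:ℝ) = L * (a + 2) := by rw [hR, hL]; push_cast; ring
  have hMnR : 4 * M * (L * (a + 2)) ≤ (n:ℝ) := by
    rw [← hRR]; exact_mod_cast hMn
  have hMnR' : (n:ℝ) < 4 * M * (L * (a + 2)) + 4 * (L * (a + 2)) := by
    rw [← hRR]; exact_mod_cast hMn'
  have hbig : 16 * (L * (a + 2)) * L ≤ n := by
    rw [← hRR, hL]
    exact_mod_cast (le_max_right _ _).trans hn
  have hM0 : (0:ℝ) ≤ M := by positivity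
  -- the quantities in units of n / L
  set ν : ℝ := (n:ℝ) / L with hν
  have hnν : (n:ℝ) = ν * L := by rw [hν]; field_simp
  have hq : 4 * (M:ℝ) * (a + 2) ≤ ν := by
    rw [hν, le_div_iff₀ hL0]; linarith
  have hM2 : 4 * (M:ℝ) ≤ ν / 2 := by
    have : 4 * (M:ℝ) * 2 ≤ 4 * (M:ℝ) * (a + 2) := by
      apply mul_le_mul_of_nonneg_left _ (by positivity)
      linarith
    linarith
  have hRn : 4 * (L * (a + 2)) ≤ ν / 4 := by
    rw [hν, div_div, le_div_iff₀ (by positivity)]
    linarith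
  have hm' : m ≤ n - 5 * ν := by
    refine hm.trans (le_of_eq ?_)
    rw [hν]; ring
  obtain ⟨F, hF, hmain⟩ := hM₀ M (by omega) (by omega) n k m hMn hk (by linarith)
  refine ⟨F, hF, fun ι _ ρ w hw hT => ?_⟩
  have h1 := hmain ι ρ w hw hT
  set X : ℝ := Fintype.card ι * ∑ i, w i ^ 2 * #(cube (ρ i)) with hX
  -- rewrite everything as real powers of two
  have e1 : ((2:ℝ) ^ n) ^ 2 = (2:ℝ) ^ (2 * (n:ℝ)) := by
    rw [← pow_mul, ← Real.rpow_natCast]
    congr 1
    push_cast; ring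
  have e2 : ((2:ℝ) ^ (2 * M)) ^ 2 = (2:ℝ) ^ (4 * (M:ℝ)) := by
    rw [← pow_mul, ← Real.rpow_natCast]
    congr 1
    push_cast; ring
  have e3 : (2:ℝ) ^ (8 * M * (a + 2) + ((n - 4 * M * R) + 4 * M * (a + 2))) =
      (2:ℝ) ^ (8 * (M:ℝ) * (a + 2) + ((n - 4 * M * (L * (a + 2))) + 4 * M * (a + 2))) := by
    rw [← Real.rpow_natCast]
    congr 1
    push_cast [Nat.cast_sub hMn]
    rw [hRR]
  have e4 : ((2 * n + 2 * M : ℕ) : ℝ) / 2 ^ (a + 1) = (n + M) / L := by
    push_cast
    rw [pow_succ, ← hL]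
    field_simp
  rw [e1, e2, e3, e4, ← Real.rpow_add (by norm_num), ← Real.rpow_add (by norm_num)] at h1
  have hML : (M:ℝ) / L ≤ ν / 8 := by
    calc (M:ℝ) / L ≤ M / 1 := by gcongr
      _ = M := by ring
      _ ≤ ν / 8 := by linarith
  have hexp : (2:ℝ) ^ m * 2 ^ n * (2:ℝ) ^ (4 * (M:ℝ) + ((n + M) / L + (8 * (M:ℝ) * (a + 2) +
      ((n - 4 * M * (L * (a + 2))) + 4 * M * (a + 2))))) ≤ (2:ℝ) ^ (2 * (n:ℝ)) := by
    rw [← Real.rpow_natCast 2 n, ← Real.rpow_add (by norm_num), ← Real.rpow_add (by norm_num)]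
    apply Real.rpow_le_rpow_of_exponent_le (by norm_num)
    have h2 : ((n:ℝ) + M) / L = ν + M / L := by rw [hν]; ring
    rw [h2]
    linarith
  have h2 := hexp.trans h1
  rw [mul_comm (_ * _) ((2:ℝ) ^ (4 * (M:ℝ) + _))] at h2
  exact le_of_mul_le_mul_left h2 (by positivity)

/-- The trivial bound. -/
theorem trivial_bound {n : ℕ} (ι : Type) [Fintype ι] (ρ : ι → Fin n → Option Bool) (w : ι → ℝ)
    (hw : ∀ α : Fin n → Bool, ∑ i with α ∈ cube (ρ i), w i = 1) :
    (2:ℝ) ^ n ≤ Fintype.card ι * ∑ i, w i ^ 2 * #(cube (ρ i)) := by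
  have h1 : (2:ℝ) ^ n = ∑ i, w i * #(cube (ρ i)) := by
    calc (2:ℝ) ^ n = ∑ α : Fin n → Bool, (1:ℝ) := by
          rw [Finset.sum_const, nsmul_eq_mul, Finset.card_univ, Fintype.card_fun,
            Fintype.card_bool, Fintype.card_fin]
          push_cast; ring
      _ = ∑ α : Fin n → Bool, ∑ i, (if α ∈ cube (ρ i) then w i else 0) := by
          apply Finset.sum_congr rfl
          intro α _
          rw [← Finset.sum_filter, hw α]
      _ = ∑ i, ∑ α : Fin n → Bool, (if α ∈ cube (ρ i) then w i else 0) := Finset.sum_comm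
      _ = _ := by
          apply Finset.sum_congr rfl
          intro i _
          rw [← Finset.sum_filter, Finset.sum_const, nsmul_eq_mul, mul_comm]
          congr 2
          congr 1
          ext α
          simp
  have h2 : ((2:ℝ) ^ n) ^ 2 ≤ (Fintype.card ι * ∑ i, w i ^ 2 * #(cube (ρ i))) * 2 ^ n := by
    calc ((2:ℝ) ^ n) ^ 2 = (∑ i, w i * #(cube (ρ i))) ^ 2 := by rw [h1]
      _ ≤ #(univ : Finset ι) * ∑ i, (w i * #(cube (ρ i))) ^ 2 := sq_sum_le_card_mul_sum_sq
      _ ≤ #(univ : Finset ι) * ∑ i, (w i ^ 2 * #(cube (ρ i))) * 2 ^ n := by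
          apply mul_le_mul_of_nonneg_left _ (by positivity)
          apply Finset.sum_le_sum
          intro i _
          have h3 : (#(cube (ρ i)) : ℝ) ≤ 2 ^ n := by
            have : #(cube (ρ i)) ≤ 2 ^ n := by
              refine (Finset.card_le_univ _).trans ?_
              rw [Fintype.card_fun, Fintype.card_bool, Fintype.card_fin]
            exact_mod_cast this
          have h4 : (w i * (#(cube (ρ i)) : ℝ)) ^ 2 =
              (w i ^ 2 * #(cube (ρ i))) * #(cube (ρ i)) := by ring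
          rw [h4]
          gcongr
      _ = _ := by
          rw [Finset.card_univ, ← Finset.sum_mul]
          ring
  rw [sq] at h2
  exact le_of_mul_le_mul_right h2 (by positivity)

/-- Final form. -/
theorem main2 (k : ℕ) (hk : 1 ≤ k) : ∃ n₀ : ℕ, ∀ n ≥ n₀, ∀ m : ℝ,
    m = (1 - 320 * (Real.logb 2 k + 4) ^ 2 / k) * n →
    ∃ F : Set (KClause k n), ¬ Satisfiable F ∧
      ∀ (ι : Type) [Fintype ι] (ρ : ι → Fin n → Option Bool) (w : ι → ℝ),
        (∀ α : Fin n → Bool, ∑ i with α ∈ cube (ρ i), w i = 1) →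
        (∀ i, ∃ T : Set (KClause k n), T ⊆ F ∧ ((vars T).ncard : ℝ) ≤ m ∧
          ∀ α ∈ cube (ρ i), ∃ C ∈ T, ¬ SatisfiesClause α C) →
        (2:ℝ) ^ m * 2 ^ n ≤ Fintype.card ι * ∑ i, w i ^ 2 * #(cube (ρ i)) := by
  have hk0 : (0:ℝ) < k := by exact_mod_cast hk
  have hlog : 0 ≤ Real.logb 2 k := Real.logb_nonneg (by norm_num) (by exact_mod_cast hk)
  by_cases hk5 : k < 256
  · refine ⟨0, fun n _ m hm => ?_⟩
    refine ⟨Set.univ, ?_, ?_⟩
    · rintro ⟨α, hα⟩
      obtain ⟨l, hl, _⟩ := hα ⟨∅, by simp⟩ (Set.mem_univ _)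
      simp at hl
    · intro ι _ ρ w hw _
      have h1 := trivial_bound ι ρ w hw
      have hm0 : m ≤ 0 := by
        rw [hm]
        apply mul_nonpos_of_nonpos_of_nonneg _ (by positivity)
        have h2 : (k:ℝ) < 256 := by exact_mod_cast hk5
        rw [sub_nonpos, le_div_iff₀ hk0]
        nlinarith
      have h2 : (2:ℝ) ^ m ≤ 1 := Real.rpow_le_one_of_one_le_of_nonpos (by norm_num) hm0
      calc (2:ℝ) ^ m * 2 ^ n ≤ 1 * 2 ^ n := by gcongr
        _ = 2 ^ n := one_mul _
        _ ≤ _ := h1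
  · push Not at hk5
    obtain ⟨a, ha, ha'⟩ : ∃ a : ℕ, 32 * ((a + 4) * (2 ^ a * (a + 2))) ≤ k ∧
        k < 32 * ((a + 1 + 4) * (2 ^ (a + 1) * (a + 1 + 2))) := by
      have hex : ∃ a : ℕ, k < 32 * ((a + 4) * (2 ^ a * (a + 2))) := by
        refine ⟨k, ?_⟩
        have h1 := Nat.lt_two_pow_self (n := k)
        have h2 : 2 ^ k * 1 ≤ 2 ^ k * (k + 2) := Nat.mul_le_mul_left _ (by omega)
        have h3 : 1 * (2 ^ k * (k + 2)) ≤ (k + 4) * (2 ^ k * (k + 2)) :=
          Nat.mul_le_mul_right _ (by omega)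
        omega
      classical
      have hspec := Nat.find_spec hex
      have hmin := @Nat.find_min _ _ hex
      have hne : Nat.find hex ≠ 0 := by
        intro h
        rw [h] at hspec
        simp at hspec
        omega
      obtain ⟨b, hb⟩ := Nat.exists_eq_succ_of_ne_zero hne
      refine ⟨b, ?_, ?_⟩
      · have := hmin (m := b) (by omega)
        omega
      · rw [hb] at hspec
        exact hspec
    have h7 : (5:ℝ) / 2 ^ a ≤ 320 * (Real.logb 2 k + 4) ^ 2 / k := by
      rw [div_le_div_iff₀ (by positivity) hk0]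
      have h8 : (k:ℝ) < 32 * ((a + 5) * (2 ^ (a + 1) * (a + 3))) := by
        have : (k:ℝ) < ((32 * ((a + 1 + 4) * (2 ^ (a + 1) * (a + 1 + 2))) : ℕ) : ℝ) := by
          exact_mod_cast ha'
        push_cast at this
        linarith
      have h9 : (a:ℝ) ≤ Real.logb 2 k := by
        rw [Real.le_logb_iff_rpow_le (by norm_num) hk0, Real.rpow_natCast]
        have h10 : 2 ^ a * 1 ≤ 2 ^ a * (a + 2) := Nat.mul_le_mul_left _ (by omega)
        have h11 : 1 * (2 ^ a * (a + 2)) ≤ (a + 4) * (2 ^ a * (a + 2)) :=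
          Nat.mul_le_mul_right _ (by omega)
        have : 2 ^ a ≤ k := by omega
        exact_mod_cast this
      have h10 : (0:ℝ) < 2 ^ a := by positivity
      have ha0 : (0:ℝ) ≤ a := by positivity
      rw [pow_succ] at h8
      have h11 : ((a:ℝ) + 5) * (a + 3) ≤ (Real.logb 2 k + 4) ^ 2 := by nlinarith
      calc (5:ℝ) * k ≤ 5 * (32 * ((a + 5) * (2 ^ a * 2 * (a + 3)))) := by gcongr
        _ = 320 * (((a:ℝ) + 5) * (a + 3)) * 2 ^ a := by ring
        _ ≤ 320 * (Real.logb 2 k + 4) ^ 2 * 2 ^ a := by gcongr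
    obtain ⟨n₀, hn₀⟩ := hit_bound a k ha
    refine ⟨n₀, fun n hn m hm => hn₀ n hn m ?_⟩
    rw [hm]
    apply mul_le_mul_of_nonneg_right _ (by positivity)
    linarith

end Pool.Agent.Lib.MP_0e79d0_lc
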