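import Mathlib
import Pool.Agent.Lib.MP_0e79d0_lc.Defs

/-!
Read-once branching programs for the search problem of an unsatisfiable formula, and regular
resolution refutations.
-/

namespace Pool.Agent.Lib.MP_0e79d0_lc

/-- A branching program with `s` nodes over the variables `0, …, n-1`. A node either queries a
variable `x` and has one child for each value of `x`, or it is a leaf and outputs a clause. The
nodes are numbered in such a way that children have smaller numbers (so the graph is acyclic). -/
structure BranchingProgram (k n s : ℕ) where
  /-- the source -/
  root : Fin s
  /-- the query and the children, or the output -/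
  node : Fin s → (Fin n × (Bool → Fin s)) ⊕ KClause k n
  /-- children have smaller numbers -/
  child_lt : ∀ i x c, node i = Sum.inl (x, c) → ∀ b, c b < i

namespace BranchingProgram

variable {k n s : ℕ} (B : BranchingProgram k n s)

/-- The node `i` queries the variable `x`. -/
def Queries (i : Fin s) (x : Fin n) : Prop := ∃ c, B.node i = Sum.inl (x, c)

/-- `j` is a child of `i`. -/
def Edge (i j : Fin s) : Prop := ∃ x c b, B.node i = Sum.inl (x, c) ∧ c b = j

/-- On the assignment `α` the program moves from `i` to `j`. -/
def Step (α : Fin n → Bool) (i j : Fin s) : Prop := ∃ x c, B.node i = Sum.inl (x, c) ∧ c (α x) = j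

/-- The program is read-once: on no directed path starting at the source is a variable queried
twice. -/
def ReadOnce : Prop :=
  ∀ i j x, Relation.ReflTransGen B.Edge B.root i → Relation.TransGen B.Edge i j →
    B.Queries i x → ¬ B.Queries j x

/-- The program solves the search problem of `F`: on every assignment it outputs a clause of `F`
that the assignment falsifies. -/
def Solves (F : Set (KClause k n)) : Prop :=
  ∀ α i C, Relation.ReflTransGen (B.Step α) B.root i → B.node i = Sum.inr C →
    C ∈ F ∧ ¬ SatisfiesClause α C

end BranchingProgram

/-- A resolution refutation of `F` with `s` lines. A line is a clause, i.e. a finite set of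
literals `(v, b)`; the literal `(v, b)` is true when `v` has the value `b`. A line is a weakening of
a clause of `F`, or it is derived from two earlier lines by resolving on a variable `x` (and
possibly weakening the resolvent). One of the lines is the empty clause. -/
structure Refutation {k n : ℕ} (F : Set (KClause k n)) (s : ℕ) where
  /-- the clauses -/
  line : Fin s → Finset (Fin n × Bool)
  /-- the resolved variable and the two premises, or nothing for a clause of `F` -/
  rule : Fin s → Option (Fin n × Fin s × Fin s)
  /-- lines without premises are (weakenings of) clauses of `F` -/
  initial : ∀ i, rule i = none → ∃ C ∈ F, C.1 ⊆ line i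
  /-- the resolution rule -/
  resolve : ∀ i x l r, rule i = some (x, l, r) → l < i ∧ r < i ∧
    line l ⊆ insert (x, true) (line i) ∧ line r ⊆ insert (x, false) (line i)
  /-- the last line -/
  last : Fin s
  /-- the last line is the empty clause -/
  last_eq : line last = ∅

namespace Refutation

variable {k n s : ℕ} {F : Set (KClause k n)} (π : Refutation F s)

/-- `j` is a premise of `i`. -/
def Premise (i j : Fin s) : Prop := ∃ x l r, π.rule i = some (x, l, r) ∧ (j = l ∨ j = r)

/-- The line `i` is obtained by resolving on `x`. -/
def ResolvesOn (i : Fin s) (x : Fin n) : Prop := ∃ l r, π.rule i = some (x, l, r)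

/-- The refutation is regular: on no path from the empty clause to a clause of `F` is a variable
resolved twice. -/
def Regular : Prop :=
  ∀ i j x, Relation.ReflTransGen π.Premise π.last i → Relation.TransGen π.Premise i j →
    π.ResolvesOn i x → ¬ π.ResolvesOn j x

end Refutation

end Pool.Agent.Lib.MP_0e79d0_lc
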