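import Mathlib
import Pool.Agent.Lib.MP_0e79d0_lc.Defs
import Pool.Agent.Lib.MP_0e79d0_lc.TwoLevel
import Pool.Agent.Lib.MP_0e79d0_lc.RegularDefs
import Pool.Agent.Lib.MP_0e79d0_lc.Main2

section

/-!
Walks through read-once branching programs: if no signed mass survives on refuted subcubes then
almost all assignments pass through a node that is reached by few assignments.
-/

namespace Pool.Agent.Lib.MP_0e79d0_lc

open Finset Relation

namespace BranchingProgram

variable {k n s : ℕ} (B : BranchingProgram k n s)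

/-- The next node on the assignment `α` (a leaf is its own successor). -/
def next (α : Fin n → Bool) (i : Fin s) : Fin s :=
  match B.node i with
  | Sum.inl (x, c) => c (α x)
  | Sum.inr _ => i

/-- The walk of `α`. -/
def walk (α : Fin n → Bool) : ℕ → Fin s
  | 0 => B.root
  | t + 1 => B.next α (walk α t)

/-- The variable queried at a node, as a set. -/
def qset (i : Fin s) : Finset (Fin n) :=
  match B.node i with
  | Sum.inl (x, _) => {x}
  | Sum.inr _ => ∅

/-- The variables queried by `α` before time `t`. -/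
def asked (α : Fin n → Bool) (t : ℕ) : Finset (Fin n) :=
  (range t).biUnion (fun t' => B.qset (B.walk α t'))

theorem mem_qset {i : Fin s} {x : Fin n} : x ∈ B.qset i ↔ B.Queries i x := by
  unfold qset Queries
  rcases h : B.node i with ⟨y, c⟩ | C
  · simp only [Finset.mem_singleton, Sum.inl.injEq, Prod.mk.injEq, exists_and_left,
      exists_eq', and_true]
    exact eq_comm
  · simp

theorem next_eq {α : Fin n → Bool} {i : Fin s} {x : Fin n} {c : Bool → Fin s}
    (h : B.node i = Sum.inl (x, c)) : B.next α i = c (α x) := by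
  unfold next
  rw [h]

theorem next_leaf {α : Fin n → Bool} {i : Fin s} {C : KClause k n}
    (h : B.node i = Sum.inr C) : B.next α i = i := by
  unfold next
  rw [h]

theorem next_congr {α α' : Fin n → Bool} {i : Fin s} (h : ∀ x ∈ B.qset i, α x = α' x) :
    B.next α i = B.next α' i := by
  rcases hi : B.node i with ⟨y, c⟩ | C
  · rw [B.next_eq hi, B.next_eq hi, h y (B.mem_qset.2 ⟨c, hi⟩)]
  · rw [B.next_leaf hi, B.next_leaf hi]

theorem asked_mono (α : Fin n → Bool) {t t' : ℕ} (h : t ≤ t') : B.asked α t ⊆ B.asked α t' :=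
  Finset.biUnion_subset_biUnion_of_subset_left _ (Finset.range_mono h)

theorem walk_congr {α α' : Fin n → Bool} (t : ℕ) (h : ∀ x ∈ B.asked α t, α x = α' x) :
    ∀ t' ≤ t, B.walk α' t' = B.walk α t' := by
  intro t'
  induction t' with
  | zero => intro _; rfl
  | succ t' ih =>
    intro ht
    have ih' := ih (by omega)
    show B.next α' (B.walk α' t') = B.next α (B.walk α t')
    rw [ih']
    refine (B.next_congr fun x hx => h x ?_).symm
    exact Finset.mem_biUnion.2 ⟨t', Finset.mem_range.2 (by omega), hx⟩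

theorem asked_congr {α α' : Fin n → Bool} (t : ℕ) (h : ∀ x ∈ B.asked α t, α x = α' x) :
    B.asked α' t = B.asked α t := by
  unfold asked
  refine Finset.biUnion_congr rfl fun t' ht' => ?_
  rw [B.walk_congr t h t' (Finset.mem_range.1 ht').le]

theorem card_qset_le (i : Fin s) : #(B.qset i) ≤ 1 := by
  unfold qset
  rcases B.node i with ⟨y, c⟩ | C <;> simp

theorem card_asked_le (α : Fin n → Bool) (t : ℕ) : #(B.asked α t) ≤ t := by
  refine Finset.card_biUnion_le.trans ?_
  refine (Finset.sum_le_card_nsmul _ _ 1 (fun i _ => B.card_qset_le _)).trans ?_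
  simp

theorem step_next (α : Fin n → Bool) {i : Fin s} {x : Fin n} (h : B.Queries i x) :
    B.Step α i (B.next α i) := by
  obtain ⟨c, hc⟩ := h
  exact ⟨x, c, hc, (B.next_eq hc).symm⟩

theorem reach_next (α : Fin n → Bool) (i : Fin s) :
    ReflTransGen (B.Step α) i (B.next α i) := by
  rcases hi : B.node i with ⟨y, c⟩ | C
  · exact ReflTransGen.single (B.step_next α ⟨c, hi⟩)
  · rw [B.next_leaf hi]

theorem reach_walk (α : Fin n → Bool) (t : ℕ) :
    ReflTransGen (B.Step α) B.root (B.walk α t) := by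
  induction t with
  | zero => exact ReflTransGen.refl
  | succ t ih => exact ih.trans (B.reach_next α _)

theorem edge_of_step {α : Fin n → Bool} {i j : Fin s} (h : B.Step α i j) : B.Edge i j := by
  obtain ⟨x, c, h1, h2⟩ := h
  exact ⟨x, c, α x, h1, h2⟩

theorem edges_of_steps {α : Fin n → Bool} {i j : Fin s} (h : ReflTransGen (B.Step α) i j) :
    ReflTransGen B.Edge i j :=
  ReflTransGen.mono (p := B.Edge) (fun _ _ h => B.edge_of_step h) i j h

theorem reach_walk_walk (α : Fin n → Bool) (t u : ℕ) :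
    ReflTransGen (B.Step α) (B.walk α t) (B.walk α (t + u)) := by
  induction u with
  | zero => exact ReflTransGen.refl
  | succ u ih => exact ih.trans (B.reach_next α _)

/-- Every walk ends in a leaf. -/
theorem exists_leaf (α : Fin n → Bool) : ∀ i : Fin s,
    ∃ j C, ReflTransGen (B.Step α) i j ∧ B.node j = Sum.inr C := by
  intro i
  induction i using WellFoundedLT.induction with
  | ind i ih =>
    rcases hi : B.node i with ⟨y, c⟩ | C
    · obtain ⟨j, C, hj, hC⟩ := ih (c (α y)) (B.child_lt i y c hi (α y))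
      exact ⟨j, C, ReflTransGen.head ⟨y, c, hi, rfl⟩ hj, hC⟩
    · exact ⟨i, C, ReflTransGen.refl, hi⟩

/-- The clauses output by the assignments passing through `v`. -/
def outs (v : Fin s) : Set (KClause k n) :=
  {C | ∃ α t j, B.walk α t = v ∧ ReflTransGen (B.Step α) v j ∧ B.node j = Sum.inr C}

/-- The variables queried at or below `v`. -/
def below (v : Fin s) : Set (Fin n) := {x | ∃ j, ReflTransGen B.Edge v j ∧ B.Queries j x}

/-- The variables with a fixed value on the assignments passing through `v`. -/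
def fixed (v : Fin s) : Set (Fin n) := {x | ∃ b, ∀ α t, B.walk α t = v → α x = b}

/-- By read-onceness the variables asked before `v` are not asked below `v`. -/
theorem disj (hB : B.ReadOnce) (α : Fin n → Bool) (t : ℕ) {x : Fin n}
    (hx : x ∈ B.asked α t) : x ∉ B.below (B.walk α t) := by
  rintro ⟨j, hj, hq⟩
  obtain ⟨t', ht', hx'⟩ := Finset.mem_biUnion.1 hx
  rw [Finset.mem_range] at ht'
  have hq' := B.mem_qset.1 hx'
  obtain ⟨u, rfl⟩ := Nat.exists_eq_add_of_lt ht'
  have h1 : TransGen B.Edge (B.walk α t') j := by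
    refine TransGen.trans_left (TransGen.single (B.edge_of_step (B.step_next α hq'))) ?_
    have h2 := B.reach_walk_walk α (t' + 1) u
    have e : t' + 1 + u = t' + u + 1 := by ring
    rw [e] at h2
    exact (B.edges_of_steps h2).trans hj
  exact hB _ _ x (B.edges_of_steps (B.reach_walk α t')) h1 hq' hq

theorem outs_subset (F : Set (KClause k n)) (hS : B.Solves F) (v : Fin s) : B.outs v ⊆ F := by
  rintro C ⟨α, t, j, rfl, hj, hC⟩
  exact (hS α j C ((B.reach_walk α t).trans hj) hC).1

theorem vars_outs_subset (F : Set (KClause k n)) (hB : B.ReadOnce) (hS : B.Solves F)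
    (v : Fin s) : vars (B.outs v) ⊆ B.fixed v ∪ B.below v := by
  classical
  rintro x ⟨C, ⟨α₀, t₀, j, hv, hj, hC⟩, b, hb⟩
  by_cases hx : x ∈ B.below v
  · exact Or.inr hx
  refine Or.inl ⟨!b, ?_⟩
  intro α₁ t₁ hv₁
  let α : Fin n → Bool := fun y => if y ∈ B.below v then α₀ y else α₁ y
  have h1 : B.walk α t₁ = v := by
    rw [← hv₁]
    refine B.walk_congr t₁ (fun y hy => ?_) t₁ le_rfl
    have := B.disj hB α₁ t₁ hy
    rw [hv₁] at this
    show α₁ y = if y ∈ B.below v then α₀ y else α₁ y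
    rw [if_neg this]
  have h2 : ∀ i, ReflTransGen (B.Step α₀) v i → ReflTransGen (B.Step α) v i := by
    intro i hi
    induction hi with
    | refl => exact ReflTransGen.refl
    | tail hi' hstep ih =>
      refine ih.tail ?_
      obtain ⟨y, c, h3, h4⟩ := hstep
      refine ⟨y, c, h3, ?_⟩
      rw [← h4]
      have h5 : y ∈ B.below v := ⟨_, B.edges_of_steps hi', ⟨c, h3⟩⟩
      show c (if y ∈ B.below v then α₀ y else α₁ y) = c (α₀ y)
      rw [if_pos h5]
  have h3 := (hS α j C (by
    have := (B.reach_walk α t₁)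
    rw [h1] at this
    exact this.trans (h2 j hj)) hC).2
  have h4 : α x = α₁ x := by
    show (if x ∈ B.below v then α₀ x else α₁ x) = α₁ x
    rw [if_neg hx]
  by_contra h5
  apply h3
  refine ⟨(x, b), hb, ?_⟩
  rw [h4]
  cases hb1 : α₁ x <;> cases b <;> simp_all

/-- The number of assignments through `v`. -/
theorem card_through (v : Fin s) (𝒜 : Finset (Fin n → Bool))
    (h𝒜 : ∀ α ∈ 𝒜, ∃ t, B.walk α t = v) : #𝒜 ≤ 2 ^ (n - (B.fixed v).ncard) := by
  classical
  let β : Fin n → Option Bool := fun x => if h : x ∈ B.fixed v then some h.choose else none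
  have h1 : 𝒜 ⊆ cube β := by
    intro α hα
    obtain ⟨t, ht⟩ := h𝒜 α hα
    rw [cube, Finset.mem_filter]
    refine ⟨Finset.mem_univ _, fun x b hb => ?_⟩
    by_cases hx : x ∈ B.fixed v
    · have h2 : β x = some hx.choose := by simp only [β]; rw [dif_pos hx]
      rw [h2] at hb
      rw [← Option.some.inj hb]
      exact hx.choose_spec α t ht
    · have h2 : β x = none := by simp only [β]; rw [dif_neg hx]
      rw [h2] at hb
      exact absurd hb (by simp)
  refine (Finset.card_le_card h1).trans ?_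
  rw [card_cube]
  apply Nat.pow_le_pow_right (by norm_num)
  have h3 : free β = univ.filter (fun x => x ∉ B.fixed v) := by
    ext x
    simp only [free, Finset.mem_filter, Finset.mem_univ, true_and, β]
    by_cases hx : x ∈ B.fixed v
    · simp [hx]
    · simp [hx]
  rw [h3]
  have h4 := Finset.card_filter_add_card_filter_not (s := (univ : Finset (Fin n)))
    (fun x => x ∈ B.fixed v)
  rw [Finset.card_univ, Fintype.card_fin] at h4
  have h5 : (B.fixed v).ncard = #(univ.filter (fun x => x ∈ B.fixed v)) := by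
    rw [← Set.ncard_coe_finset]
    congr 1
    ext x
    simp
  omega

/-- Few variables occur in the outputs of a leaf. -/
theorem vars_outs_leaf {v : Fin s} {C : KClause k n} (h : B.node v = Sum.inr C) :
    (vars (B.outs v)).ncard ≤ k := by
  have h1 : B.outs v ⊆ {C} := by
    rintro D ⟨α, t, j, _, hj, hD⟩
    have h2 : j = v := by
      rcases ReflTransGen.cases_head hj with h3 | ⟨c, ⟨x, c', h4, _⟩, _⟩
      · exact h3.symm
      · rw [h] at h4
        exact absurd h4 (by simp)
    rw [h2, h] at hD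
    exact (Sum.inr.inj hD).symm
  have h2 : vars (B.outs v) ⊆ ((C.1.image Prod.fst : Finset (Fin n)) : Set (Fin n)) := by
    rintro x ⟨D, hD, b, hb⟩
    have : D = C := h1 hD
    subst this
    exact Finset.mem_coe.2 (Finset.mem_image.2 ⟨(x, b), hb, rfl⟩)
  refine (Set.ncard_le_ncard h2 (Set.toFinite _)).trans ?_
  rw [Set.ncard_coe_finset]
  exact Finset.card_image_le.trans C.2

/-- If no node up to time `t` is a leaf then `t` variables have been asked. -/
theorem card_asked (hB : B.ReadOnce) (α : Fin n → Bool) (t : ℕ)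
    (h : ∀ t' ≤ t, ∀ C, B.node (B.walk α t') ≠ Sum.inr C) : #(B.asked α t) = t := by
  induction t with
  | zero => simp [asked]
  | succ t ih =>
    have ih' := ih (fun t' ht' => h t' (by omega))
    have h1 : B.asked α (t + 1) = B.qset (B.walk α t) ∪ B.asked α t := by
      unfold asked
      rw [Finset.range_add_one, Finset.biUnion_insert]
    have h2 : Disjoint (B.qset (B.walk α t)) (B.asked α t) := by
      rw [Finset.disjoint_right]
      intro x hx hx'
      exact B.disj hB α t hx ⟨_, ReflTransGen.refl, B.mem_qset.1 hx'⟩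
    rw [h1, Finset.card_union_of_disjoint h2, ih']
    have h3 : #(B.qset (B.walk α t)) = 1 := by
      rcases hi : B.node (B.walk α t) with ⟨y, c⟩ | C
      · unfold qset
        rw [hi]
        simp
      · exact absurd hi (h t (by omega) C)
    omega

/-- The assignment `α` restricted to the variables asked before time `t`. -/
def record (α : Fin n → Bool) (t : ℕ) : Fin n → Option Bool :=
  fun x => if x ∈ B.asked α t then some (α x) else none

theorem mem_cube_record {α α' : Fin n → Bool} {t : ℕ} :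
    α' ∈ cube (B.record α t) ↔ ∀ x ∈ B.asked α t, α x = α' x := by
  rw [cube, Finset.mem_filter]
  constructor
  · rintro ⟨-, h⟩ x hx
    have := h x (α x) (by unfold record; rw [if_pos hx])
    exact this.symm
  · intro h
    refine ⟨Finset.mem_univ _, fun x b hb => ?_⟩
    unfold record at hb
    by_cases hx : x ∈ B.asked α t
    · rw [if_pos hx] at hb
      rw [← Option.some.inj hb]
      exact (h x hx).symm
    · rw [if_neg hx] at hb
      exact absurd hb (by simp)

theorem record_congr {α α' : Fin n → Bool} {t : ℕ} (h : ∀ x ∈ B.asked α t, α x = α' x) :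
    B.record α' t = B.record α t := by
  funext x
  unfold record
  rw [B.asked_congr t h]
  by_cases hx : x ∈ B.asked α t
  · rw [if_pos hx, if_pos hx, h x hx]
  · rw [if_neg hx, if_neg hx]

theorem card_free_record (α : Fin n → Bool) (t : ℕ) : n ≤ #(free (B.record α t)) + t := by
  have h1 : free (B.record α t) = univ.filter (fun x => x ∉ B.asked α t) := by
    ext x
    simp only [free, Finset.mem_filter, Finset.mem_univ, true_and, record]
    by_cases hx : x ∈ B.asked α t
    · simp [hx]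
    · simp [hx]
  have h2 := Finset.card_filter_add_card_filter_not (s := (univ : Finset (Fin n)))
    (fun x => x ∈ B.asked α t)
  rw [Finset.card_univ, Fintype.card_fin, Finset.filter_mem_eq_inter, Finset.univ_inter] at h2
  have h3 := B.card_asked_le α t
  rw [h1]
  omega

/-- The main estimate. -/
theorem bound (F : Set (KClause k n)) (hB : B.ReadOnce) (hS : B.Solves F)
    (φ : (Fin n → Bool) → ℝ) (A D m : ℝ) (f₀ : ℕ) (hf : f₀ ≤ n) (hk : (k : ℝ) ≤ m)
    (h1 : ∀ α, |φ α| ≤ A) (h2 : (2:ℝ) ^ n ≤ ∑ α, φ α)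
    (h3 : ∀ β, LocallyRefuted m F β → (∑ α ∈ cube β, φ α) ^ 2 ≤ D * #(cube β))
    (h4 : 4 * D ≤ 2 ^ f₀) : (2:ℝ) ^ m ≤ 2 * A * 2 ^ f₀ * s := by
  classical
  have hA0 : 0 ≤ A := (abs_nonneg _).trans (h1 (fun _ => false))
  set ℓ := n - f₀ with hℓ
  let LR : Fin s → Prop := fun v => ((vars (B.outs v)).ncard : ℝ) ≤ m
  -- subcubes recorded at a locally refuted node
  have hrec : ∀ α t, LR (B.walk α t) → LocallyRefuted m F (B.record α t) := by
    intro α t hLR
    refine ⟨B.outs (B.walk α t), B.outs_subset F hS _, hLR, fun α' hα' => ?_⟩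
    rw [B.mem_cube_record] at hα'
    have hw := B.walk_congr t hα' t le_rfl
    obtain ⟨j, C, hj, hC⟩ := B.exists_leaf α' (B.walk α t)
    refine ⟨C, ⟨α', t, j, hw, hj, hC⟩, (hS α' j C ?_ hC).2⟩
    have := B.reach_walk α' t
    rw [hw] at this
    exact this.trans hj
  let 𝒜 : Finset (Fin n → Bool) := univ.filter (fun α => ∃ t, t ≤ ℓ ∧ LR (B.walk α t))
  let τ : (Fin n → Bool) → ℕ := fun α =>
    if h : ∃ t, t ≤ ℓ ∧ LR (B.walk α t) then Nat.find h else 0
  have hτ : ∀ α ∈ 𝒜, τ α ≤ ℓ ∧ LR (B.walk α (τ α)) := by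
    intro α hα
    have h := (Finset.mem_filter.1 hα).2
    have : τ α = Nat.find h := by simp only [τ]; rw [dif_pos h]
    rw [this]
    exact Nat.find_spec h
  have hτ' : ∀ α ∈ 𝒜, ∀ t < τ α, ¬ LR (B.walk α t) := by
    intro α hα t ht hLR
    have h := (Finset.mem_filter.1 hα).2
    have h5 : τ α = Nat.find h := by simp only [τ]; rw [dif_pos h]
    rw [h5] at ht
    exact Nat.find_min h ht ⟨by
      have := (hτ α hα).1
      rw [h5] at this
      omega, hLR⟩
  have hτeq : ∀ α ∈ 𝒜, ∀ α', α' ∈ cube (B.record α (τ α)) → α' ∈ 𝒜 ∧ τ α' = τ α ∧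
      B.record α' (τ α') = B.record α (τ α) := by
    intro α hα α' hα'
    rw [B.mem_cube_record] at hα'
    have hw := B.walk_congr (τ α) hα'
    have h5 : α' ∈ 𝒜 := by
      refine Finset.mem_filter.2 ⟨Finset.mem_univ _, τ α, (hτ α hα).1, ?_⟩
      rw [hw _ le_rfl]
      exact (hτ α hα).2
    have h6 : τ α' = τ α := by
      apply le_antisymm
      · by_contra hlt
        push Not at hlt
        apply hτ' α' h5 (τ α) hlt
        rw [hw _ le_rfl]
        exact (hτ α hα).2
      · by_contra hlt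
        push Not at hlt
        apply hτ' α hα (τ α') hlt
        rw [← hw _ hlt.le]
        exact (hτ α' h5).2
    refine ⟨h5, h6, ?_⟩
    rw [h6]
    exact B.record_congr hα'
  -- the mass of `𝒜`
  have hmassA : ∑ α ∈ 𝒜, φ α ≤ (2:ℝ) ^ n / 2 := by
    have h5 : ∀ β ∈ 𝒜.image (fun α => B.record α (τ α)),
        ∑ α ∈ 𝒜 with B.record α (τ α) = β, φ α ≤
          ∑ α ∈ 𝒜 with B.record α (τ α) = β, (1 / 2 : ℝ) := by
      intro β hβ
      obtain ⟨α₀, hα₀, rfl⟩ := Finset.mem_image.1 hβ
      have h6 : (𝒜.filter fun α => B.record α (τ α) = B.record α₀ (τ α₀)) =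
          cube (B.record α₀ (τ α₀)) := by
        ext α
        rw [Finset.mem_filter]
        constructor
        · rintro ⟨_, h7⟩
          rw [← h7, B.mem_cube_record]
          exact fun _ _ => rfl
        · intro h7
          have h8 := hτeq α₀ hα₀ α h7
          exact ⟨h8.1, h8.2.2⟩
      rw [h6]
      have h7 := h3 _ (hrec α₀ (τ α₀) (hτ α₀ hα₀).2)
      have h8 : (2:ℝ) ^ f₀ ≤ #(cube (B.record α₀ (τ α₀))) := by
        rw [card_cube]
        push_cast
        apply pow_le_pow_right₀ (by norm_num)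
        have h9 := B.card_free_record α₀ (τ α₀)
        have h10 := (hτ α₀ hα₀).1
        omega
      have h9 : (2 * ∑ α ∈ cube (B.record α₀ (τ α₀)), φ α) ^ 2 ≤
          (#(cube (B.record α₀ (τ α₀))) : ℝ) ^ 2 := by
        have h10 : (0:ℝ) ≤ #(cube (B.record α₀ (τ α₀))) := Nat.cast_nonneg _
        calc (2 * ∑ α ∈ cube (B.record α₀ (τ α₀)), φ α) ^ 2 =
            4 * (∑ α ∈ cube (B.record α₀ (τ α₀)), φ α) ^ 2 := by ring
          _ ≤ 4 * (D * #(cube (B.record α₀ (τ α₀)))) := by linarith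
          _ = (4 * D) * #(cube (B.record α₀ (τ α₀))) := by ring
          _ ≤ #(cube (B.record α₀ (τ α₀))) * #(cube (B.record α₀ (τ α₀))) :=
              mul_le_mul_of_nonneg_right (h4.trans h8) h10
          _ = _ := by ring
      have h10 := (le_abs_self _).trans (abs_le_of_sq_le_sq h9 (Nat.cast_nonneg _))
      rw [Finset.sum_const, nsmul_eq_mul]
      linarith
    rw [← Finset.sum_fiberwise_of_maps_to (g := fun α => B.record α (τ α))
      (t := 𝒜.image (fun α => B.record α (τ α)))
      (fun α hα => Finset.mem_image_of_mem _ hα)]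
    refine (Finset.sum_le_sum h5).trans ?_
    rw [Finset.sum_fiberwise_of_maps_to (fun α hα => Finset.mem_image_of_mem _ hα),
      Finset.sum_const, nsmul_eq_mul]
    have h6 : (#𝒜 : ℝ) ≤ 2 ^ n := by
      have : #𝒜 ≤ 2 ^ n := by
        refine (Finset.card_le_univ _).trans ?_
        rw [Fintype.card_fun, Fintype.card_bool, Fintype.card_fin]
      exact_mod_cast this
    linarith
  -- the rest passes through nodes with many fixed variables
  have hcardB : (#(𝒜ᶜ) : ℝ) ≤ s * (2:ℝ) ^ ((n:ℝ) - m + f₀) := by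
    have h5 : (#(𝒜ᶜ) : ℝ) = ∑ v : Fin s, (#((𝒜ᶜ).filter (fun α => B.walk α ℓ = v)) : ℝ) := by
      rw [Finset.card_eq_sum_card_fiberwise (f := fun α => B.walk α ℓ)
        (t := (univ : Finset (Fin s))) (fun α _ => Finset.mem_univ _)]
      push_cast
      rfl
    rw [h5]
    refine (Finset.sum_le_card_nsmul _ _ ((2:ℝ) ^ ((n:ℝ) - m + f₀)) ?_).trans ?_
    · intro v _
      rcases Finset.eq_empty_or_nonempty ((𝒜ᶜ).filter (fun α => B.walk α ℓ = v)) with he | ⟨α, hα⟩
      · rw [he]
        simp only [Finset.card_empty, Nat.cast_zero]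
        positivity
      · rw [Finset.mem_filter, Finset.mem_compl] at hα
        obtain ⟨hα, hv⟩ := hα
        have hnot : ∀ t ≤ ℓ, ¬ LR (B.walk α t) := by
          intro t ht hLR
          exact hα (Finset.mem_filter.2 ⟨Finset.mem_univ _, t, ht, hLR⟩)
        have hasked : #(B.asked α ℓ) = ℓ := by
          apply B.card_asked hB
          intro t ht C hC
          apply hnot t ht
          have h6 := B.vars_outs_leaf hC
          have h7 : ((vars (B.outs (B.walk α t))).ncard : ℝ) ≤ k := by exact_mod_cast h6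
          exact h7.trans hk
        have h6 : (B.below v).ncard + ℓ ≤ n := by
          have h7 : Disjoint (B.below v) (B.asked α ℓ : Set (Fin n)) := by
            rw [Set.disjoint_right]
            intro x hx
            rw [← hv]
            exact B.disj hB α ℓ hx
          have h8 := Set.ncard_union_eq h7 (Set.toFinite _) (Set.toFinite _)
          rw [Set.ncard_coe_finset, hasked] at h8
          have h9 := Set.ncard_le_ncard (Set.subset_univ (B.below v ∪ (B.asked α ℓ : Set (Fin n))))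
            (Set.toFinite _)
          rw [Set.ncard_univ, Nat.card_eq_fintype_card, Fintype.card_fin] at h9
          omega
        have h7 : m < (B.fixed v).ncard + f₀ := by
          have h8 := hnot ℓ le_rfl
          rw [hv] at h8
          simp only [LR, not_le] at h8
          refine h8.trans_le ?_
          have h9 : (vars (B.outs v)).ncard ≤ (B.fixed v).ncard + (B.below v).ncard :=
            (Set.ncard_le_ncard (B.vars_outs_subset F hB hS v) (Set.toFinite _)).trans
              (Set.ncard_union_le _ _)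
          have h10 : (vars (B.outs v)).ncard ≤ (B.fixed v).ncard + f₀ := by omega
          exact_mod_cast h10
        have h8 := B.card_through v ((𝒜ᶜ).filter (fun α => B.walk α ℓ = v))
          (fun α' hα' => ⟨ℓ, (Finset.mem_filter.1 hα').2⟩)
        have h9 : (B.fixed v).ncard ≤ n := by
          have := Set.ncard_le_ncard (Set.subset_univ (B.fixed v)) (Set.toFinite _)
          rwa [Set.ncard_univ, Nat.card_eq_fintype_card, Fintype.card_fin] at this
        calc (#((𝒜ᶜ).filter (fun α => B.walk α ℓ = v)) : ℝ) ≤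
            ((2 ^ (n - (B.fixed v).ncard) : ℕ) : ℝ) := by exact_mod_cast h8
          _ = (2:ℝ) ^ ((n:ℝ) - (B.fixed v).ncard) := by
              push_cast
              rw [← Real.rpow_natCast, Nat.cast_sub h9]
          _ ≤ _ := by
              apply Real.rpow_le_rpow_of_exponent_le (by norm_num)
              linarith
    · rw [Finset.card_univ, Fintype.card_fin, nsmul_eq_mul]
  have hmassB : ∑ α ∈ 𝒜ᶜ, φ α ≤ A * #(𝒜ᶜ) := by
    refine (Finset.sum_le_card_nsmul _ _ A (fun α _ => (le_abs_self _).trans (h1 α))).trans ?_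
    rw [nsmul_eq_mul, mul_comm]
  have htot : ∑ α, φ α = ∑ α ∈ 𝒜, φ α + ∑ α ∈ 𝒜ᶜ, φ α := (Finset.sum_add_sum_compl 𝒜 φ).symm
  have h5 : (2:ℝ) ^ n ≤ 2 * (A * (s * (2:ℝ) ^ ((n:ℝ) - m + f₀))) := by
    have h6 : A * #(𝒜ᶜ) ≤ A * (s * (2:ℝ) ^ ((n:ℝ) - m + f₀)) :=
      mul_le_mul_of_nonneg_left hcardB hA0
    linarith
  have h6 : (2:ℝ) ^ ((n:ℝ) - m + f₀) = (2:ℝ) ^ n * 2 ^ f₀ / (2:ℝ) ^ m := by
    rw [Real.rpow_add (by norm_num), Real.rpow_sub (by norm_num), Real.rpow_natCast,
      Real.rpow_natCast]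
    ring
  rw [h6] at h5
  have h7 : (0:ℝ) < (2:ℝ) ^ m := by positivity
  have h8 : (0:ℝ) < (2:ℝ) ^ n := by positivity
  have h9 : (2:ℝ) ^ n * (2:ℝ) ^ m ≤ (2:ℝ) ^ n * (2 * A * 2 ^ f₀ * s) := by
    calc (2:ℝ) ^ n * (2:ℝ) ^ m ≤
        (2 * (A * (s * ((2:ℝ) ^ n * 2 ^ f₀ / (2:ℝ) ^ m)))) * (2:ℝ) ^ m :=
          mul_le_mul_of_nonneg_right h5 h7.le
      _ = _ := by field_simp
  exact le_of_mul_le_mul_left h9 h8

end BranchingProgram

end Pool.Agent.Lib.MP_0e79d0_lc
end

section

/-!
A signed function of large total mass that has almost no mass on locally refuted subcubes.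
-/

namespace Pool.Agent.Lib.MP_0e79d0_lc

open Finset

section Labels

variable {V E : Type} [Fintype V] [DecidableEq V] [Fintype E] [DecidableEq E] {t n : ℕ}
  (root : E → V) (leaf : Fin t → E → V) (U : E → Finset (Fin n)) {k : ℕ}

omit [Fintype V] [DecidableEq V] in
theorem abs_chr_le (z : V → ZMod 2) (S : Finset V) : |chr z S| ≤ 1 := by
  simp only [chr, sgn]
  split_ifs <;> norm_num

omit [DecidableEq V] in
theorem abs_pseudo_le (z : V → ZMod 2) (r : ℕ) : |pseudo z r| ≤ 2 ^ Fintype.card V := by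
  simp only [pseudo]
  refine (Finset.abs_sum_le_sum_abs _ _).trans ?_
  refine (Finset.sum_le_card_nsmul _ _ 1 (fun S _ => abs_chr_le z S)).trans ?_
  rw [nsmul_eq_mul, mul_one]
  have : #((univ : Finset (Finset V)).filter (fun S => #S ≤ r)) ≤ 2 ^ Fintype.card V := by
    rw [← Fintype.card_finset]
    exact Finset.card_le_univ _
  exact_mod_cast this

/-- The signed function. -/
theorem exists_phi (hk : ∀ j, #(nbv root leaf U j) ≤ k) (r s u p : ℕ) (m : ℝ)
    (hr : r < Fintype.card V) (hp : 1 ≤ p)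
    (hu : ∀ S ∈ middle V r s, #(uncov root leaf U S) ≤ u)
    (hs : ∀ J : Finset V, s < #J → m < #(J.biUnion (nbv root leaf U)))
    (K : ℝ) (hK0 : 0 ≤ K)
    (hK : (2:ℝ) ^ Fintype.card V * 3 ^ n * ((((2 * p : ℕ) : ℝ) ^ (2 * p)) ^ Fintype.card E *
      2 ^ (p * u)) ≤ K ^ p) :
    ∃ F : Set (KClause k n), ¬ Satisfiable F ∧ ∃ φ : (Fin n → Bool) → ℝ,
      (∀ α, |φ α| ≤ 2 ^ Fintype.card V) ∧ (2:ℝ) ^ n ≤ ∑ α, φ α ∧
      ∀ β, LocallyRefuted m F β →
        (∑ α ∈ cube β, φ α) ^ 2 ≤ (2 ^ Fintype.card V) ^ 2 * K * #(cube β) := by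
  classical
  obtain ⟨h, hh⟩ := exists_labels root leaf U (middle V r s) p u hp hu K hK0 hK
  obtain ⟨b, hb, hmass⟩ := exists_shift root leaf U h r hr
  refine ⟨VF root leaf U hk h b, VF_unsat root leaf U hk h b hb,
    fun α => pseudo (yy root leaf U h b α) r, fun α => abs_pseudo_le _ r, hmass, ?_⟩
  intro β hβ
  obtain ⟨T, hTF, hTm, hTα⟩ := hβ
  set J := insideV root leaf U (vars T) with hJ
  have hJs : #J ≤ s := card_insideV_le root leaf U s m hs _ hTm
  have h3 : ∀ α ∈ cube β, ∃ j ∈ J, yy root leaf U h b α j = 1 := by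
    intro α hα
    obtain ⟨C, hCT, hCα⟩ := hTα α hα
    obtain ⟨j, x, hC, hz⟩ := hTF hCT
    refine ⟨j, ?_, ?_⟩
    · rw [hJ, mem_insideV]
      intro v hv
      refine ⟨C, hCT, !(x v), ?_⟩
      rw [hC]
      exact Finset.mem_image.mpr ⟨v, hv, rfl⟩
    · rw [← hz]
      apply yy_congr
      intro v hv
      by_contra hne
      apply hCα
      rw [hC, sat_clv]
      exact ⟨v, hv, hne⟩
  have h4 : ∑ α ∈ cube β, pseudo (yy root leaf U h b α) r =
      ∑ S ∈ middle V r s, (if r < #(S \ J) + #J then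
      sgn (∑ j ∈ S, b j) * ∑ α ∈ cube β, chr (yy root leaf U h 0 α) S else 0) := by
    calc ∑ α ∈ cube β, pseudo (yy root leaf U h b α) r =
          ∑ α ∈ cube β, ∑ S ∈ middle V r s, (if r < #(S \ J) + #J then
          chr (yy root leaf U h b α) S else 0) := by
          apply Finset.sum_congr rfl
          intro α hα
          exact pseudo_eq _ r s J hJs (h3 α hα)
      _ = ∑ S ∈ middle V r s, ∑ α ∈ cube β, (if r < #(S \ J) + #J then
          chr (yy root leaf U h b α) S else 0) := Finset.sum_comm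
      _ = _ := by
          apply Finset.sum_congr rfl
          intro S _
          split_ifs
          · rw [Finset.mul_sum]
            apply Finset.sum_congr rfl
            intro α _
            exact chr_yy root leaf U h b α S
          · simp
  have h5 : (#(middle V r s) : ℝ) ≤ 2 ^ Fintype.card V := by
    have : #(middle V r s) ≤ 2 ^ Fintype.card V := by
      rw [← Fintype.card_finset]
      exact Finset.card_le_univ _
    exact_mod_cast this
  rw [h4]
  calc (∑ S ∈ middle V r s, (if r < #(S \ J) + #J then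
      sgn (∑ j ∈ S, b j) * ∑ α ∈ cube β, chr (yy root leaf U h 0 α) S else 0)) ^ 2 ≤
      #(middle V r s) * ∑ S ∈ middle V r s, (if r < #(S \ J) + #J then
      sgn (∑ j ∈ S, b j) * ∑ α ∈ cube β, chr (yy root leaf U h 0 α) S else 0) ^ 2 :=
        sq_sum_le_card_mul_sum_sq
    _ ≤ #(middle V r s) * ∑ S ∈ middle V r s, (K * #(cube β) : ℝ) := by
        apply mul_le_mul_of_nonneg_left _ (Nat.cast_nonneg _)
        apply Finset.sum_le_sum
        intro S hS
        have h5 := hh S hS β
        rw [card_cube]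
        push_cast
        split_ifs
        · rw [mul_pow, sq (sgn _), sgn_sq, one_mul]
          exact h5
        · rw [sq, zero_mul]
          positivity
    _ = (#(middle V r s) : ℝ) ^ 2 * K * #(cube β) := by
        rw [Finset.sum_const, nsmul_eq_mul]
        ring
    _ ≤ _ := by
        have h6 : (0:ℝ) ≤ K * #(cube β) := mul_nonneg hK0 (Nat.cast_nonneg _)
        have h7 : (#(middle V r s) : ℝ) ^ 2 ≤ (2 ^ Fintype.card V) ^ 2 :=
          pow_le_pow_left₀ (Nat.cast_nonneg _) h5 2
        calc (#(middle V r s) : ℝ) ^ 2 * K * #(cube β) =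
            (#(middle V r s) : ℝ) ^ 2 * (K * #(cube β)) := by ring
          _ ≤ (2 ^ Fintype.card V) ^ 2 * (K * #(cube β)) := mul_le_mul_of_nonneg_right h7 h6
          _ = _ := by ring

end Labels

theorem phi_struct (a : ℕ) : ∃ M₀ : ℕ, ∀ M ≥ M₀, 1 ≤ M → ∀ (n k : ℕ) (m : ℝ),
    4 * M * (2 ^ a * (a + 2)) ≤ n → 32 * ((a + 4) * (2 ^ a * (a + 2))) ≤ k →
    m + 4 * M * (a + 2) ≤ 4 * M * (2 ^ a * (a + 2)) →
    ∃ F : Set (KClause k n), ¬ Satisfiable F ∧ ∃ φ : (Fin n → Bool) → ℝ,
      (∀ α, |φ α| ≤ 2 ^ (2 * M)) ∧ (2:ℝ) ^ n ≤ ∑ α, φ α ∧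
      ∀ β, LocallyRefuted m F β →
        (∑ α ∈ cube β, φ α) ^ 2 ≤ (2 ^ (2 * M)) ^ 2 *
          ((2:ℝ) ^ (((2 * n + 2 * M : ℕ) : ℝ) / 2 ^ (a + 1)) *
          2 ^ (8 * M * (a + 2) + ((n - 4 * M * (2 ^ a * (a + 2))) + 4 * M * (a + 2)))) *
          #(cube β) := by
  obtain ⟨M₀, hM₀⟩ := exists_structure a
  refine ⟨M₀, fun M hM hM1 n k m hn hk hm => ?_⟩
  replace hM₀ := hM₀ M hM hM1
  generalize hR : 2 ^ a * (a + 2) = R at hM₀ hn hk ⊢
  obtain ⟨σ, π, hσπ⟩ := hM₀
  have hcardI : Fintype.card ((Fin (2 * M) × Fin (2 ^ 1)) × Fin R) = 4 * M * R := by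
    simp only [Fintype.card_prod, Fintype.card_fin]
    ring
  have hcardE : Fintype.card (Fin (2 * M) × Fin (2 ^ 1)) = 4 * M := by
    simp only [Fintype.card_prod, Fintype.card_fin]; ring
  obtain ⟨ε⟩ : Nonempty (((Fin (2 * M) × Fin (2 ^ 1)) × Fin R) ↪ Fin n) := by
    rw [Function.Embedding.nonempty_iff_card_le, hcardI, Fintype.card_fin]
    exact hn
  let root : Fin (2 * M) × Fin (2 ^ 1) → Fin (2 * M) := fun e => e.1
  let leaf : Fin 15 → Fin (2 * M) × Fin (2 ^ 1) → Fin (2 * M) := fun s e => (σ s e).1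
  let U : Fin (2 * M) × Fin (2 ^ 1) → Finset (Fin n) := fun e =>
    (univ.filter (fun i : (Fin (2 * M) × Fin (2 ^ 1)) × Fin R => ∃ s, (π s i).1 = e)).map ε
  have hmemU : ∀ e i, ε i ∈ U e ↔ ∃ s, (π s i).1 = e := by
    intro e i
    simp only [U, Finset.mem_map', mem_filter, mem_univ, true_and]
  have hcardU : ∀ e, #(U e) ≤ (a + 4) * R := by
    intro e
    simp only [U, Finset.card_map]
    exact card_slot_le R (a + 4) π e
  -- widths
  have hk' : ∀ j, #(nbv root leaf U j) ≤ k := by
    intro j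
    refine le_trans ?_ hk
    have hE : #(univ.filter (fun e => root e = j ∨ ∃ s, leaf s e = j)) ≤ 32 := by
      have hsub : (univ.filter (fun e => root e = j ∨ ∃ s, leaf s e = j)) ⊆
          (univ.filter (fun e : Fin (2 * M) × Fin (2 ^ 1) => e.1 = j)) ∪
          (univ.filter (fun e : Fin (2 * M) × Fin (2 ^ 1) => ∃ s, (σ s e).1 = j)) := by
        intro e he
        simp only [mem_filter, mem_univ, true_and, mem_union] at he ⊢
        exact he
      refine (Finset.card_le_card hsub).trans ((Finset.card_union_le _ _).trans ?_)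
      have h1 := card_fst_fiber (2 * M) (2 ^ 1) j
      have h2 := card_slot_le (2 ^ 1) 15 σ j
      omega
    refine Finset.card_biUnion_le.trans ?_
    refine (Finset.sum_le_card_nsmul _ _ ((a + 4) * R) (fun e _ => hcardU e)).trans ?_
    rw [smul_eq_mul]
    exact Nat.mul_le_mul_right _ hE
  -- uncovered bits
  have hu : ∀ S ∈ middle (Fin (2 * M)) M (M / 2), #(uncov root leaf U S) ≤
      (n - 4 * M * R) + 4 * M * (a + 2) := by
    intro S hS
    have hS' := (Finset.mem_filter.mp hS).2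
    have h1 := hσπ S (by omega) hS'.1
    have hsub : uncov root leaf U S ⊆ ((univ : Finset ((Fin (2 * M) × Fin (2 ^ 1)) ×
        Fin R)).map ε)ᶜ ∪ ((univ.filter (fun i : (Fin (2 * M) × Fin (2 ^ 1)) × Fin R =>
          ∀ s s', ((σ s' (π s i).1).1 ∈ S ↔ (π s i).1.1 ∈ S))).map ε) := by
      intro v hv
      rw [Finset.mem_union]
      by_cases hv' : v ∈ (univ : Finset ((Fin (2 * M) × Fin (2 ^ 1)) × Fin R)).map ε
      · right
        rw [Finset.mem_map] at hv'
        obtain ⟨i, _, rfl⟩ := hv'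
        rw [Finset.mem_map']
        rw [Finset.mem_filter]
        refine ⟨Finset.mem_univ _, fun s => ?_⟩
        by_contra hcon
        have h2 := (Finset.mem_filter.mp hv).2 (π s i).1 hcon
        exact h2 ((hmemU _ _).mpr ⟨s, rfl⟩)
      · left
        exact Finset.mem_compl.mpr hv'
    refine (Finset.card_le_card hsub).trans ((Finset.card_union_le _ _).trans ?_)
    rw [Finset.card_compl, Finset.card_map, Finset.card_map, Finset.card_univ, hcardI,
      Fintype.card_fin]
    omega
  -- touched bits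
  have hs : ∀ J : Finset (Fin (2 * M)), M / 2 < #J → m < #(J.biUnion (nbv root leaf U)) := by
    intro J hJ
    have hun : #(univ.filter (fun i : (Fin (2 * M) × Fin (2 ^ 1)) × Fin R =>
        ε i ∉ J.biUnion (nbv root leaf U))) < 4 * M * (a + 2) := by
      have hout : ∀ i : (Fin (2 * M) × Fin (2 ^ 1)) × Fin R, ε i ∉ J.biUnion (nbv root leaf U) →
          ∀ s, (π s i).1.1 ∉ J ∧ ∀ s', (σ s' (π s i).1).1 ∉ J := by
        intro i hi s
        rw [Finset.mem_biUnion] at hi
        push Not at hi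
        have hUi : ε i ∈ U (π s i).1 := (hmemU _ _).mpr ⟨s, rfl⟩
        constructor
        · intro h
          apply hi _ h
          rw [nbv, Finset.mem_biUnion]
          exact ⟨(π s i).1, Finset.mem_filter.mpr ⟨Finset.mem_univ _, Or.inl rfl⟩, hUi⟩
        · intro s' h
          apply hi _ h
          rw [nbv, Finset.mem_biUnion]
          exact ⟨(π s i).1, Finset.mem_filter.mpr ⟨Finset.mem_univ _, Or.inr ⟨s', rfl⟩⟩, hUi⟩
      by_cases hJM : #J ≤ M
      · refine lt_of_le_of_lt (Finset.card_le_card ?_) (hσπ J (by omega) hJM)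
        intro i hi
        rw [Finset.mem_filter] at hi ⊢
        refine ⟨hi.1, fun s s' => ?_⟩
        have h1 := hout i hi.2 s
        exact ⟨fun h => absurd h (h1.2 s'), fun h => absurd h h1.1⟩
      · have hc : #(Jᶜ) ≤ M := by
          rw [Finset.card_compl, Fintype.card_fin]
          omega
        obtain ⟨S, hS, hSc⟩ := Finset.exists_superset_card_eq hc
          (by rw [Fintype.card_fin]; omega)
        refine lt_of_le_of_lt (Finset.card_le_card ?_) (hσπ S (by omega) hSc.le)
        intro i hi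
        rw [Finset.mem_filter] at hi ⊢
        refine ⟨hi.1, fun s s' => ?_⟩
        have h1 := hout i hi.2 s
        exact ⟨fun _ => hS (Finset.mem_compl.mpr h1.1),
          fun _ => hS (Finset.mem_compl.mpr (h1.2 s'))⟩
    have h3 : #(univ.filter (fun i : (Fin (2 * M) × Fin (2 ^ 1)) × Fin R =>
        ε i ∈ J.biUnion (nbv root leaf U))) ≤ #(J.biUnion (nbv root leaf U)) := by
      apply Finset.card_le_card_of_injOn (fun i => ε i)
      · intro i hi
        rw [Finset.mem_coe, Finset.mem_filter] at hi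
        exact hi.2
      · intro i _ i' _ h
        exact ε.injective h
    have h4 := Finset.card_filter_add_card_filter_not
      (s := (univ : Finset ((Fin (2 * M) × Fin (2 ^ 1)) × Fin R)))
      (fun i => ε i ∈ J.biUnion (nbv root leaf U))
    rw [Finset.card_univ, hcardI] at h4
    have h5 : 4 * M * R < #(J.biUnion (nbv root leaf U)) + 4 * M * (a + 2) := by omega
    have h6 : ((4 * M * R : ℕ) : ℝ) < ((#(J.biUnion (nbv root leaf U)) + 4 * M * (a + 2) : ℕ) : ℝ) := by
      exact_mod_cast h5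
    rw [← hR] at h6
    push_cast at h6
    linarith
  have hmain := exists_phi root leaf U hk' M (M / 2) ((n - 4 * M * R) + 4 * M * (a + 2))
    (2 ^ (a + 1)) m (by rw [Fintype.card_fin]; omega) Nat.one_le_two_pow hu hs
    ((2:ℝ) ^ (((2 * n + 2 * M : ℕ) : ℝ) / 2 ^ (a + 1)) *
          2 ^ (8 * M * (a + 2) + ((n - 4 * M * R) + 4 * M * (a + 2)))) (by positivity)
    (by
      rw [Fintype.card_fin, hcardE]
      have e1 : ((2:ℝ) ^ (((2 * n + 2 * M : ℕ) : ℝ) / 2 ^ (a + 1))) ^ (2 ^ (a + 1)) =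
          2 ^ (2 * n + 2 * M) := by
        rw [← Real.rpow_natCast ((2:ℝ) ^ (((2 * n + 2 * M : ℕ) : ℝ) / 2 ^ (a + 1))) (2 ^ (a + 1)),
          ← Real.rpow_mul (by norm_num)]
        have : ((2 * n + 2 * M : ℕ) : ℝ) / 2 ^ (a + 1) * ((2 ^ (a + 1) : ℕ) : ℝ) =
            ((2 * n + 2 * M : ℕ) : ℝ) := by
          push_cast
          field_simp
        rw [this, Real.rpow_natCast]
      have e2 : (((2 * 2 ^ (a + 1) : ℕ) : ℝ) ^ (2 * 2 ^ (a + 1))) ^ (4 * M) =
          (2:ℝ) ^ (8 * M * (a + 2) * 2 ^ (a + 1)) := by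
        have : ((2 * 2 ^ (a + 1) : ℕ) : ℝ) = 2 ^ (a + 2) := by
          push_cast; ring
        rw [this, ← pow_mul, ← pow_mul]
        congr 1
        ring
      have e3 : (3:ℝ) ^ n ≤ 2 ^ (2 * n) := by
        rw [pow_mul]
        apply pow_le_pow_left₀ (by norm_num)
        norm_num
      rw [mul_pow, e1, e2]
      calc (2:ℝ) ^ (2 * M) * 3 ^ n * (2 ^ (8 * M * (a + 2) * 2 ^ (a + 1)) *
          2 ^ (2 ^ (a + 1) * ((n - 4 * M * R) + 4 * M * (a + 2)))) ≤
          (2:ℝ) ^ (2 * M) * 2 ^ (2 * n) * (2 ^ (8 * M * (a + 2) * 2 ^ (a + 1)) *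
          2 ^ (2 ^ (a + 1) * ((n - 4 * M * R) + 4 * M * (a + 2)))) := by gcongr
        _ = _ := by
          rw [← pow_mul, ← pow_add, ← pow_add, ← pow_add, ← pow_add]
          congr 1
          ring)
  rw [Fintype.card_fin] at hmain
  exact hmain

/-- The signed function with all parameters. -/
theorem regular_bound (a k : ℕ) (ha3 : 3 ≤ a) (hk : 32 * ((a + 4) * (2 ^ a * (a + 2))) ≤ k) :
    ∃ n₀ : ℕ, ∀ n ≥ n₀, ∃ F : Set (KClause k n), ¬ Satisfiable F ∧
      ∃ (φ : (Fin n → Bool) → ℝ) (A D m : ℝ) (f₀ : ℕ), f₀ ≤ n ∧ (k:ℝ) ≤ m ∧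
        (∀ α, |φ α| ≤ A) ∧ (2:ℝ) ^ n ≤ ∑ α, φ α ∧
        (∀ β, LocallyRefuted m F β → (∑ α ∈ cube β, φ α) ^ 2 ≤ D * #(cube β)) ∧
        4 * D ≤ 2 ^ f₀ ∧ 2 * A * 2 ^ f₀ * (2:ℝ) ^ ((1 - 7 / 2 ^ a : ℝ) * n) ≤ (2:ℝ) ^ m := by
  obtain ⟨M₀, hM₀⟩ := phi_struct a
  set R := 2 ^ a * (a + 2) with hR
  have hRpos : 0 < R := by positivity
  refine ⟨max ((M₀ + 1) * (4 * R)) (max (16 * R * 2 ^ a) (4 * k * 2 ^ a + 16 * 2 ^ a)),
    fun n hn => ?_⟩
  set M := n / (4 * R) with hMdef
  have hM1 : M₀ + 1 ≤ M := by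
    rw [hMdef, Nat.le_div_iff_mul_le (by positivity)]
    exact (le_max_left _ _).trans hn
  have hMn : 4 * M * R ≤ n := by
    have := Nat.div_mul_le_self n (4 * R)
    rw [← hMdef] at this
    calc 4 * M * R = M * (4 * R) := by ring
      _ ≤ n := this
  have hMn' : n < 4 * M * R + 4 * R := by
    have := Nat.lt_div_mul_add (a := n) (b := 4 * R) (by positivity)
    rw [← hMdef] at this
    calc n < M * (4 * R) + 4 * R := this
      _ = _ := by ring
  -- real versions
  set L : ℝ := 2 ^ a with hL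
  have hL1 : 1 ≤ L := one_le_pow₀ (by norm_num)
  have hL0 : 0 < L := by linarith
  have ha0 : (0:ℝ) ≤ a := by positivity
  have hRR : (R:ℝ) = L * (a + 2) := by rw [hR, hL]; push_cast; ring
  have hMnR : 4 * M * (L * (a + 2)) ≤ (n:ℝ) := by
    rw [← hRR]; exact_mod_cast hMn
  have hMnR' : (n:ℝ) < 4 * M * (L * (a + 2)) + 4 * (L * (a + 2)) := by
    rw [← hRR]; exact_mod_cast hMn'
  have hbig : 16 * (L * (a + 2)) * L ≤ n := by
    rw [← hRR, hL]
    exact_mod_cast (le_max_left _ _).trans ((le_max_right _ _).trans hn)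
  have hbig2 : 4 * k * L + 16 * L ≤ (n:ℝ) := by
    rw [hL]
    exact_mod_cast (le_max_right _ _).trans ((le_max_right _ _).trans hn)
  have hM0 : (0:ℝ) ≤ M := by positivity
  -- the quantities in units of n / L
  set ν : ℝ := (n:ℝ) / L with hν
  have hnν : (n:ℝ) = ν * L := by rw [hν]; field_simp
  have hq : 4 * (M:ℝ) * (a + 2) ≤ ν := by
    rw [hν, le_div_iff₀ hL0]; linarith
  have hM2 : 4 * (M:ℝ) ≤ ν / 2 := by
    have : 4 * (M:ℝ) * 2 ≤ 4 * (M:ℝ) * (a + 2) := by
      apply mul_le_mul_of_nonneg_left _ (by positivity)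
      linarith
    linarith
  have hRn : 4 * (L * (a + 2)) ≤ ν / 4 := by
    rw [hν, div_div, le_div_iff₀ (by positivity)]
    linarith
  have hν32 : 32 ≤ ν := by
    have h1 : (2:ℝ) ≤ L * (a + 2) := by nlinarith
    linarith
  have hL8 : (8:ℝ) ≤ L := by
    rw [hL]
    calc (8:ℝ) = 2 ^ 3 := by norm_num
      _ ≤ 2 ^ a := pow_le_pow_right₀ (by norm_num) ha3
  have hkν : (k:ℝ) ≤ ν := by
    have h1 : 4 * (k:ℝ) + 16 ≤ ν := by
      rw [hν, le_div_iff₀ hL0]; linarith
    have h2 : (0:ℝ) ≤ k := by positivity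
    linarith
  have hn8 : 8 * ν ≤ n := by
    rw [hnν, mul_comm ν L]
    exact mul_le_mul_of_nonneg_right hL8 (by linarith)
  have h4 : (n:ℝ) - 4 * M * (L * (a + 2)) ≤ ν / 4 := by linarith
  obtain ⟨F, hF, φ, h1, h2, h3⟩ := hM₀ M (by omega) (by omega) n k (n - 5 / 4 * ν) hMn hk
    (by linarith)
  refine ⟨F, hF, φ, 2 ^ (2 * M), (2 ^ (2 * M)) ^ 2 *
          ((2:ℝ) ^ (((2 * n + 2 * M : ℕ) : ℝ) / 2 ^ (a + 1)) *
          2 ^ (8 * M * (a + 2) + ((n - 4 * M * R) + 4 * M * (a + 2)))),
    n - 5 / 4 * ν, ⌊5 * ν⌋₊, ?_, ?_, h1, h2, h3, ?_, ?_⟩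
  · have h5 : ((⌊5 * ν⌋₊ : ℕ) : ℝ) ≤ n := (Nat.floor_le (by positivity)).trans (by linarith)
    exact_mod_cast h5
  · linarith
  · have e2 : ((2:ℝ) ^ (2 * M)) ^ 2 = (2:ℝ) ^ (4 * (M:ℝ)) := by
      rw [← pow_mul, ← Real.rpow_natCast]
      congr 1
      push_cast; ring
    have e3 : (2:ℝ) ^ (8 * M * (a + 2) + ((n - 4 * M * R) + 4 * M * (a + 2))) =
        (2:ℝ) ^ (8 * (M:ℝ) * (a + 2) + ((n - 4 * M * (L * (a + 2))) + 4 * M * (a + 2))) := by
      rw [← Real.rpow_natCast]
      congr 1
      push_cast [Nat.cast_sub hMn]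
      rw [hRR]
    have e4 : ((2 * n + 2 * M : ℕ) : ℝ) / 2 ^ (a + 1) = (n + M) / L := by
      push_cast
      rw [pow_succ, ← hL]
      field_simp
    have e5 : (4:ℝ) = (2:ℝ) ^ (2:ℝ) := by norm_num
    have e6 : (2:ℝ) ^ ⌊5 * ν⌋₊ = (2:ℝ) ^ ((⌊5 * ν⌋₊ : ℕ) : ℝ) := (Real.rpow_natCast _ _).symm
    rw [e2, e3, e4, e6, ← Real.rpow_add (by norm_num), ← Real.rpow_add (by norm_num)]
    nth_rewrite 1 [e5]
    rw [← Real.rpow_add (by norm_num)]
    apply Real.rpow_le_rpow_of_exponent_le (by norm_num)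
    have h5 := Nat.lt_floor_add_one (5 * ν)
    have h6 : ((n:ℝ) + M) / L = ν + M / L := by rw [hν]; ring
    have h7 : (M:ℝ) / L ≤ ν / 8 := by
      calc (M:ℝ) / L ≤ M / 1 := by gcongr
        _ = M := by ring
        _ ≤ ν / 8 := by linarith
    rw [h6]
    linarith
  · have e1 : (2:ℝ) ^ (2 * M) = (2:ℝ) ^ (2 * (M:ℝ)) := by
      rw [← Real.rpow_natCast]
      congr 1
      push_cast; ring
    have e6 : (2:ℝ) ^ ⌊5 * ν⌋₊ = (2:ℝ) ^ ((⌊5 * ν⌋₊ : ℕ) : ℝ) := (Real.rpow_natCast _ _).symm
    have e7 : (2:ℝ) * (2:ℝ) ^ (2 * (M:ℝ)) = (2:ℝ) ^ (1 + 2 * (M:ℝ)) := by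
      rw [Real.rpow_add (by norm_num), Real.rpow_one]
    have e8 : (1 - 7 / 2 ^ a : ℝ) * n = n - 7 * ν := by
      rw [hν, ← hL]; ring
    rw [e1, e6, e7, ← Real.rpow_add (by norm_num), ← Real.rpow_add (by norm_num), e8]
    apply Real.rpow_le_rpow_of_exponent_le (by norm_num)
    have h5 : ((⌊5 * ν⌋₊ : ℕ) : ℝ) ≤ 5 * ν := Nat.floor_le (by positivity)
    linarith

end Pool.Agent.Lib.MP_0e79d0_lc
end

section

/-!
The lower bound for read-once branching programs and for regular resolution.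
-/

namespace Pool.Agent.Lib.MP_0e79d0_lc

open Finset Relation

namespace Refutation

variable {k n s : ℕ} {F : Set (KClause k n)} (π : Refutation F s)

/-- The branching program of a refutation: start at the empty clause and walk to falsified
premises. -/
noncomputable def toBP : BranchingProgram k n s where
  root := π.last
  node i := match h : π.rule i with
    | some (x, l, r) => Sum.inl (x, fun b : Bool => if b then r else l)
    | none => Sum.inr (π.initial i h).choose
  child_lt := by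
    intro i x c hi b
    split at hi
    · rename_i y l r h
      have h1 := π.resolve i y l r h
      have h2 := (Prod.mk.inj (Sum.inl.inj hi)).2
      rw [← h2]
      cases b
      · exact h1.1
      · exact h1.2.1
    · exact absurd hi (by simp)

theorem toBP_node_some {i : Fin s} {x : Fin n} {l r : Fin s} (h : π.rule i = some (x, l, r)) :
    π.toBP.node i = Sum.inl (x, fun b : Bool => if b then r else l) := by
  show (match h : π.rule i with
    | some (x, l, r) => (Sum.inl (x, fun b : Bool => if b then r else l) : _ ⊕ KClause k n)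
    | none => Sum.inr (π.initial i h).choose) = _
  split
  · rename_i y l' r' h'
    rw [h] at h'
    have := Option.some.inj h'
    simp only [Prod.mk.injEq] at this
    obtain ⟨rfl, rfl, rfl⟩ := this
    rfl
  · rename_i h'
    rw [h] at h'
    exact absurd h' (by simp)

theorem toBP_node_none {i : Fin s} (h : π.rule i = none) :
    ∃ C ∈ F, C.1 ⊆ π.line i ∧ π.toBP.node i = Sum.inr C := by
  refine ⟨(π.initial i h).choose, (π.initial i h).choose_spec.1,
    (π.initial i h).choose_spec.2, ?_⟩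
  show (match h : π.rule i with
    | some (x, l, r) => (Sum.inl (x, fun b : Bool => if b then r else l) : _ ⊕ KClause k n)
    | none => Sum.inr (π.initial i h).choose) = _
  split
  · rename_i y l' r' h'
    rw [h] at h'
    exact absurd h' (by simp)
  · rfl

theorem rule_of_queries {i : Fin s} {x : Fin n} {c : Bool → Fin s}
    (h : π.toBP.node i = Sum.inl (x, c)) :
    ∃ l r, π.rule i = some (x, l, r) ∧ ∀ b, c b = if b then r else l := by
  rcases hr : π.rule i with _ | ⟨y, l, r⟩
  · obtain ⟨C, _, _, hC⟩ := π.toBP_node_none hr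
    rw [h] at hC
    exact absurd hC (by simp)
  · rw [π.toBP_node_some hr] at h
    have := Prod.mk.inj (Sum.inl.inj h)
    obtain ⟨rfl, rfl⟩ := this
    exact ⟨l, r, rfl, fun _ => rfl⟩

theorem premise_of_edge {i j : Fin s} (h : π.toBP.Edge i j) : π.Premise i j := by
  obtain ⟨x, c, b, h1, h2⟩ := h
  obtain ⟨l, r, h3, h4⟩ := π.rule_of_queries h1
  refine ⟨x, l, r, h3, ?_⟩
  rw [← h2, h4 b]
  cases b
  · exact Or.inl rfl
  · exact Or.inr rfl

theorem toBP_readOnce (h : π.Regular) : π.toBP.ReadOnce := by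
  intro i j x h1 h2 h3 h4
  refine h i j x (ReflTransGen.mono (p := π.Premise) (fun _ _ h => π.premise_of_edge h) _ _ h1)
    (TransGen.mono (p := π.Premise) (fun _ _ h => π.premise_of_edge h) _ _ h2) ?_ ?_
  · obtain ⟨c, hc⟩ := h3
    obtain ⟨l, r, h5, _⟩ := π.rule_of_queries hc
    exact ⟨l, r, h5⟩
  · obtain ⟨c, hc⟩ := h4
    obtain ⟨l, r, h5, _⟩ := π.rule_of_queries hc
    exact ⟨l, r, h5⟩

theorem toBP_solves : π.toBP.Solves F := by
  intro α i C hi hC
  have h1 : ∀ q ∈ π.line i, α q.1 ≠ q.2 := by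
    clear hC
    induction hi with
    | refl =>
      intro q hq
      have h2 : π.toBP.root = π.last := rfl
      rw [h2, π.last_eq] at hq
      exact absurd hq (Finset.notMem_empty q)
    | tail _ hstep ih =>
      rename_i i' j'
      obtain ⟨x, c, h2, h3⟩ := hstep
      obtain ⟨l, r, h4, h5⟩ := π.rule_of_queries h2
      obtain ⟨_, _, h6, h7⟩ := π.resolve _ x l r h4
      rw [h5] at h3
      intro q hq
      cases hx : α x
      · rw [hx] at h3
        simp only [Bool.false_eq_true, if_false] at h3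
        rw [← h3] at hq
        rcases Finset.mem_insert.1 (h6 hq) with h8 | h8
        · rw [h8]
          simp [hx]
        · exact ih q h8
      · rw [hx] at h3
        simp only [if_true] at h3
        rw [← h3] at hq
        rcases Finset.mem_insert.1 (h7 hq) with h8 | h8
        · rw [h8]
          simp [hx]
        · exact ih q h8
  rcases hr : π.rule i with _ | ⟨y, l, r⟩
  · obtain ⟨D, hD, hsub, hnode⟩ := π.toBP_node_none hr
    rw [hC] at hnode
    have h2 : C = D := Sum.inr.inj hnode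
    subst h2
    refine ⟨hD, ?_⟩
    rintro ⟨q, hq, h3⟩
    exact h1 q (hsub hq) h3
  · rw [π.toBP_node_some hr] at hC
    exact absurd hC (by simp)

end Refutation

/-- Final form. -/
theorem regular_main (k : ℕ) (hk : 1 ≤ k) : ∃ n₀ : ℕ, ∀ n ≥ n₀, ∀ m : ℝ,
    m = (1 - 448 * (Real.logb 2 k + 4) ^ 2 / k) * n →
    ∃ F : Set (KClause k n), ¬ Satisfiable F ∧
      (∀ (s : ℕ) (B : BranchingProgram k n s), B.ReadOnce → B.Solves F → (2:ℝ) ^ m ≤ s) ∧
      (∀ (s : ℕ) (π : Refutation F s), π.Regular → (2:ℝ) ^ m ≤ s) := by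
  have hk0 : (0:ℝ) < k := by exact_mod_cast hk
  have hlog : 0 ≤ Real.logb 2 k := Real.logb_nonneg (by norm_num) (by exact_mod_cast hk)
  -- it suffices to treat branching programs
  suffices h : ∃ n₀ : ℕ, ∀ n ≥ n₀, ∀ m : ℝ,
      m = (1 - 448 * (Real.logb 2 k + 4) ^ 2 / k) * n →
      ∃ F : Set (KClause k n), ¬ Satisfiable F ∧
      (∀ (s : ℕ) (B : BranchingProgram k n s), B.ReadOnce → B.Solves F → (2:ℝ) ^ m ≤ s) by
    obtain ⟨n₀, h⟩ := h
    refine ⟨n₀, fun n hn m hm => ?_⟩
    obtain ⟨F, hF, h1⟩ := h n hn m hm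
    exact ⟨F, hF, h1, fun s π hπ => h1 s π.toBP (π.toBP_readOnce hπ) π.toBP_solves⟩
  by_cases hk5 : k < 8960
  · refine ⟨0, fun n _ m hm => ?_⟩
    refine ⟨Set.univ, ?_, ?_⟩
    · rintro ⟨α, hα⟩
      obtain ⟨l, hl, _⟩ := hα ⟨∅, by simp⟩ (Set.mem_univ _)
      simp at hl
    · intro s B _ _
      have hm0 : m ≤ 0 := by
        rw [hm]
        apply mul_nonpos_of_nonpos_of_nonneg _ (by positivity)
        rw [sub_nonpos, le_div_iff₀ hk0, one_mul]
        by_cases hk6 : k < 32
        · have h2 : (k:ℝ) < 32 := by exact_mod_cast hk6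
          nlinarith
        · push Not at hk6
          have h2 : (k:ℝ) < 8960 := by exact_mod_cast hk5
          have h3 : (5:ℝ) ≤ Real.logb 2 k := by
            rw [Real.le_logb_iff_rpow_le (by norm_num) hk0]
            have : (32:ℝ) ≤ k := by exact_mod_cast hk6
            calc (2:ℝ) ^ (5:ℝ) = 32 := by norm_num
              _ ≤ k := this
          nlinarith
      have h2 : (2:ℝ) ^ m ≤ 1 := Real.rpow_le_one_of_one_le_of_nonpos (by norm_num) hm0
      have h3 : 0 < s := Nat.pos_of_ne_zero (by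
        rintro rfl
        exact B.root.elim0)
      have h4 : (1:ℝ) ≤ s := by exact_mod_cast h3
      exact h2.trans h4
  · push Not at hk5
    obtain ⟨a, ha3, ha, ha'⟩ : ∃ a : ℕ, 3 ≤ a ∧ 32 * ((a + 4) * (2 ^ a * (a + 2))) ≤ k ∧
        k < 32 * ((a + 1 + 4) * (2 ^ (a + 1) * (a + 1 + 2))) := by
      have hex : ∃ a : ℕ, k < 32 * ((a + 4) * (2 ^ a * (a + 2))) := by
        refine ⟨k, ?_⟩
        have h1 := Nat.lt_two_pow_self (n := k)
        have h2 : 2 ^ k * 1 ≤ 2 ^ k * (k + 2) := Nat.mul_le_mul_left _ (by omega)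
        have h3 : 1 * (2 ^ k * (k + 2)) ≤ (k + 4) * (2 ^ k * (k + 2)) :=
          Nat.mul_le_mul_right _ (by omega)
        omega
      classical
      have hspec := Nat.find_spec hex
      have hmin := @Nat.find_min _ _ hex
      have hge : 4 ≤ Nat.find hex := by
        by_contra h
        push Not at h
        have h5 : ∀ b < 4, ¬ k < 32 * ((b + 4) * (2 ^ b * (b + 2))) := by
          intro b hb
          interval_cases b <;> omega
        exact h5 _ h hspec
      obtain ⟨b, hb⟩ := Nat.exists_eq_succ_of_ne_zero (show Nat.find hex ≠ 0 by omega)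
      refine ⟨b, by omega, ?_, ?_⟩
      · have := hmin (m := b) (by omega)
        omega
      · rw [hb] at hspec
        exact hspec
    have h7 : (7:ℝ) / 2 ^ a ≤ 448 * (Real.logb 2 k + 4) ^ 2 / k := by
      rw [div_le_div_iff₀ (by positivity) hk0]
      have h8 : (k:ℝ) < 32 * ((a + 5) * (2 ^ (a + 1) * (a + 3))) := by
        have : (k:ℝ) < ((32 * ((a + 1 + 4) * (2 ^ (a + 1) * (a + 1 + 2))) : ℕ) : ℝ) := by
          exact_mod_cast ha'
        push_cast at this
        linarith
      have h9 : (a:ℝ) ≤ Real.logb 2 k := by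
        rw [Real.le_logb_iff_rpow_le (by norm_num) hk0, Real.rpow_natCast]
        have h10 : 2 ^ a * 1 ≤ 2 ^ a * (a + 2) := Nat.mul_le_mul_left _ (by omega)
        have h11 : 1 * (2 ^ a * (a + 2)) ≤ (a + 4) * (2 ^ a * (a + 2)) :=
          Nat.mul_le_mul_right _ (by omega)
        have : 2 ^ a ≤ k := by omega
        exact_mod_cast this
      have h10 : (0:ℝ) < 2 ^ a := by positivity
      have ha0 : (0:ℝ) ≤ a := by positivity
      rw [pow_succ] at h8
      have h11 : ((a:ℝ) + 5) * (a + 3) ≤ (Real.logb 2 k + 4) ^ 2 := by nlinarith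
      calc (7:ℝ) * k ≤ 7 * (32 * ((a + 5) * (2 ^ a * 2 * (a + 3)))) := by gcongr
        _ = 448 * (((a:ℝ) + 5) * (a + 3)) * 2 ^ a := by ring
        _ ≤ 448 * (Real.logb 2 k + 4) ^ 2 * 2 ^ a := by gcongr
    obtain ⟨n₀, hn₀⟩ := regular_bound a k ha3 ha
    refine ⟨n₀, fun n hn m hm => ?_⟩
    obtain ⟨F, hF, φ, A, D, m', f₀, hf, hkm, h1, h2, h3, h4, h5⟩ := hn₀ n hn
    refine ⟨F, hF, fun s B hB hS => ?_⟩
    have h6 := B.bound F hB hS φ A D m' f₀ hf hkm h1 h2 h3 h4
    have h8 : (2:ℝ) ^ m ≤ (2:ℝ) ^ ((1 - 7 / 2 ^ a : ℝ) * n) := by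
      apply Real.rpow_le_rpow_of_exponent_le (by norm_num)
      rw [hm]
      apply mul_le_mul_of_nonneg_right _ (by positivity)
      linarith
    have hA0 : 0 < A := by
      by_contra hA
      push Not at hA
      have h9 : ∑ α, φ α ≤ 0 :=
        Finset.sum_nonpos fun α _ => (le_abs_self _).trans ((h1 α).trans hA)
      have h10 : (0:ℝ) < 2 ^ n := by positivity
      linarith
    have h9 : 0 < 2 * A * 2 ^ f₀ := by positivity
    refine h8.trans ?_
    exact le_of_mul_le_mul_left (h5.trans h6) h9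

end Pool.Agent.Lib.MP_0e79d0_lc
end
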